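import Pool.Agent.Lib.MP_cea156_al.BDefs
/-! B01: mutation of seeds preserves `Ok`; it is an involution. Algebraic independence: `x_k` is transcendental over the algebra
`R` generated by the other variables; `exch` lies in `R` (as `b_{kk} = 0`) and is not zero (a sum of two monomials with
coefficient 1), so `exch / x_k` is transcendental over `R`. -/
namespace Cea
variable {n : ℕ} {K : Type} [Field K]

private theorem B01_diag {B : Matrix (Fin n) (Fin n) ℤ} (hB : ∀ i j, B i j = -B j i) (k : Fin n) : B k k = 0 := by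
  have := hB k k
  omega

private theorem B01_mutB_mutB (k : Fin n) (B : Matrix (Fin n) (Fin n) ℤ) : mutB k (mutB k B) = B := by
  funext i j
  by_cases h : i = k ∨ j = k
  · simp [mutB, h]
  · have h1 : i ≠ k := fun e => h (Or.inl e)
    have h2 : j ≠ k := fun e => h (Or.inr e)
    have e1 : mutB k B i k = -B i k := by simp [mutB]
    have e2 : mutB k B k j = -B k j := by simp [mutB]
    have e3 : mutB k B i j = B i j + (max (B i k) 0 * max (B k j) 0 - max (-B i k) 0 * max (-B k j) 0) := by
      simp only [mutB, h, if_false]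
    have e4 : mutB k (mutB k B) i j = mutB k B i j +
        (max (mutB k B i k) 0 * max (mutB k B k j) 0 - max (-mutB k B i k) 0 * max (-mutB k B k j) 0) := by
      rw [mutB]
      simp only [h, if_false]
    rw [e4, e1, e2, e3, neg_neg, neg_neg]
    ring

private theorem B01_mutB_skew (k : Fin n) {B : Matrix (Fin n) (Fin n) ℤ} (hB : ∀ i j, B i j = -B j i) (i j : Fin n) :
    mutB k B i j = -mutB k B j i := by
  by_cases h : i = k ∨ j = k
  · have h' : j = k ∨ i = k := h.symm
    simp only [mutB, h, h', if_true]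
    rw [hB i j]
  · have h' : ¬ (j = k ∨ i = k) := fun e => h e.symm
    simp only [mutB, h, h', if_false]
    rw [hB j k, hB k i, neg_neg, neg_neg, hB i j]
    ring

/-- the exchange polynomial only depends on the variables `i ≠ k` -/
private theorem B01_exch_congr {s s' : Seed n K} (k : Fin n) (hk : s.B k k = 0) (hk' : s'.B k k = 0)
    (hx : ∀ i, i ≠ k → s'.x i = s.x i) (hB : ∀ i, s'.B i k = -s.B i k) : s'.exch k = s.exch k := by
  unfold Seed.exch
  rw [add_comm]
  congr 1
  · refine Finset.prod_congr rfl fun i _ => ?_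
    rw [hB i, neg_neg]
    by_cases h : i = k
    · subst h; simp [hk]
    · rw [hx i h]
  · refine Finset.prod_congr rfl fun i _ => ?_
    rw [hB i]
    by_cases h : i = k
    · subst h; simp [hk]
    · rw [hx i h]

variable [Algebra ℂ K]

theorem Ok_ne {s : Seed n K} (h : s.Ok) (i : Fin n) : s.x i ≠ 0 := h.1.ne_zero i

theorem exch_ne {s : Seed n K} (h : s.Ok) (k : Fin n) : s.exch k ≠ 0 := by
  intro h0
  let P : MvPolynomial (Fin n) ℂ :=
    ∏ i, MvPolynomial.X i ^ (s.B i k).toNat + ∏ i, MvPolynomial.X i ^ (-s.B i k).toNat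
  have h1 : MvPolynomial.aeval s.x P = s.exch k := by
    simp [P, Seed.exch]
  have h2 : P = 0 := by
    apply h.1
    rw [map_zero]
    exact h1.trans h0
  have h3 : MvPolynomial.eval (fun _ => (1 : ℂ)) P = 2 := by
    simp [P]
    norm_num
  rw [h2, map_zero] at h3
  norm_num at h3

private theorem B01_exch_mem {s : Seed n K} (h : s.Ok) (k : Fin n) :
    s.exch k ∈ Algebra.adjoin ℂ (Set.range fun i : {i : Fin n // i ≠ k} => s.x i) := by
  have hk := B01_diag h.2 k
  have hmem : ∀ e : Fin n → ℕ, e k = 0 → (∏ i, s.x i ^ e i) ∈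
      Algebra.adjoin ℂ (Set.range fun i : {i : Fin n // i ≠ k} => s.x i) := by
    intro e he
    refine Subalgebra.prod_mem _ fun i _ => ?_
    by_cases hi : i = k
    · subst hi
      rw [he, pow_zero]
      exact one_mem _
    · have : s.x i ∈ Set.range fun i : {i : Fin n // i ≠ k} => s.x i := ⟨⟨i, hi⟩, rfl⟩
      exact pow_mem (Algebra.subset_adjoin this) _
  unfold Seed.exch
  refine add_mem (hmem _ ?_) (hmem _ ?_)
  · simp [hk]
  · simp [hk]

private theorem B01_indep {x : Fin n → K} (k : Fin n) :
    AlgebraicIndependent ℂ x ↔ AlgebraicIndependent ℂ (fun i : {i : Fin n // i ≠ k} => x i) ∧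
      Transcendental (Algebra.adjoin ℂ (Set.range fun i : {i : Fin n // i ≠ k} => x i)) (x k) := by
  rw [← AlgebraicIndependent.option_iff, ← algebraicIndependent_equiv (Equiv.optionSubtypeNe k)]
  have : (x ∘ (Equiv.optionSubtypeNe k)) = fun o : Option {i : Fin n // i ≠ k} => o.elim (x k) (fun i => x i) := by
    funext o
    rcases o with _ | o <;> simp
  rw [this]

theorem mut_ok {s : Seed n K} (h : s.Ok) (k : Fin n) : (s.mut k).Ok := by
  refine ⟨?_, fun i j => B01_mutB_skew k h.2 i j⟩
  obtain ⟨h1, h2⟩ := (B01_indep k).1 h.1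
  have hE := B01_exch_mem h k
  have hE0 := exch_ne h k
  have hx0 := Ok_ne h k
  have e1 : (fun i : {i : Fin n // i ≠ k} => (s.mut k).x i) = fun i : {i : Fin n // i ≠ k} => s.x i := by
    funext i
    simp [Seed.mut, Function.update_of_ne i.2]
  have e2 : (s.mut k).x k = s.exch k / s.x k := by
    simp [Seed.mut]
  refine (B01_indep k).2 ?_
  rw [e1, e2]
  refine ⟨h1, fun halg => h2 ?_⟩
  have h3 : IsAlgebraic (Algebra.adjoin ℂ (Set.range fun i : {i : Fin n // i ≠ k} => s.x i)) (s.exch k) :=
    isAlgebraic_algebraMap (⟨_, hE⟩ : Algebra.adjoin ℂ (Set.range fun i : {i : Fin n // i ≠ k} => s.x i))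
  have h4 := h3.mul halg.inv
  have h5 : s.exch k * (s.exch k / s.x k)⁻¹ = s.x k := by
    field_simp
  rwa [h5] at h4

theorem mut_mut {s : Seed n K} (h : s.Ok) (k : Fin n) : (s.mut k).mut k = s := by
  have hk := B01_diag h.2 k
  have hE0 := exch_ne h k
  have hx0 := Ok_ne h k
  have hE : (s.mut k).exch k = s.exch k := by
    refine B01_exch_congr k hk ?_ ?_ ?_
    · simp [Seed.mut, mutB, hk]
    · intro i hi
      simp [Seed.mut, Function.update_of_ne hi]
    · intro i
      simp [Seed.mut, mutB]
  ext1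
  · show Function.update (s.mut k).x k ((s.mut k).exch k / (s.mut k).x k) = s.x
    rw [hE]
    have e2 : (s.mut k).x k = s.exch k / s.x k := by
      simp [Seed.mut]
    rw [e2]
    have e3 : s.exch k / (s.exch k / s.x k) = s.x k := by
      field_simp
    rw [e3]
    simp [Seed.mut]
  · exact B01_mutB_mutB k s.B

theorem initSeed_ok (B : Matrix (Fin n) (Fin n) ℤ) (hB : ∀ i j, B i j = -B j i) : (initSeed B).Ok := by
  refine ⟨?_, hB⟩
  have := (MvPolynomial.algebraicIndependent_X (Fin n) ℂ).map'
    (f := (Algebra.ofId (MvPolynomial (Fin n) ℂ) (FractionRing (MvPolynomial (Fin n) ℂ))).restrictScalars ℂ)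
    (IsFractionRing.injective (MvPolynomial (Fin n) ℂ) (FractionRing (MvPolynomial (Fin n) ℂ)))
  exact this

end Cea
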