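import Pool.Agent.Lib.MP_cea156_al.B01
/-! B02: reachability is symmetric, the two algebras depend only on the mutation class (DONE here, uses B01). -/
namespace Cea
open Relation
variable {n : ℕ} {K : Type} [Field K] [Algebra ℂ K]

theorem reach_ok {s s' : Seed n K} (h : s.Ok) (hr : Reach s s') : s'.Ok := by
  induction hr with
  | refl => exact h
  | tail _ hk ih =>
    obtain ⟨k, rfl⟩ := hk
    exact mut_ok ih k

theorem reach_symm {s s' : Seed n K} (h : s.Ok) (hr : Reach s s') : Reach s' s := by
  induction hr with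
  | refl => exact ReflTransGen.refl
  | tail h1 hk ih =>
    obtain ⟨k, rfl⟩ := hk
    exact ReflTransGen.head ⟨k, (mut_mut (reach_ok h h1) k).symm⟩ ih

theorem reach_iff {s s' : Seed n K} (h : s.Ok) (hr : Reach s s') (t : Seed n K) : Reach s t ↔ Reach s' t :=
  ⟨fun h1 => (reach_symm h hr).trans h1, fun h1 => hr.trans h1⟩

theorem clusterAlg_eq {s s' : Seed n K} (h : s.Ok) (hr : Reach s s') : clusterAlg s = clusterAlg s' := by
  unfold clusterAlg
  simp only [reach_iff h hr]

theorem upperAlg_eq {s s' : Seed n K} (h : s.Ok) (hr : Reach s s') : upperAlg s = upperAlg s' := by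
  unfold upperAlg
  simp only [Set.mem_ofPred_eq, reach_iff h hr]

/-- a chain of matrix mutations lifts to seeds -/
theorem reach_lift {s : Seed n K} {B' : Matrix (Fin n) (Fin n) ℤ}
    (h : ReflTransGen (fun a b => ∃ k, b = mutB k a) s.B B') : ∃ s' : Seed n K, Reach s s' ∧ s'.B = B' := by
  induction h with
  | refl => exact ⟨s, ReflTransGen.refl, rfl⟩
  | tail _ hk ih =>
    obtain ⟨k, rfl⟩ := hk
    obtain ⟨s', h1, rfl⟩ := ih
    exact ⟨s'.mut k, h1.tail ⟨k, rfl⟩, rfl⟩

end Cea
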