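import Pool.Agent.Lib.MP_cea156_al.BDefs
/-! B03: rank one. `R[x, 1/x] ∩ R[x', 1/x'] = R[x, x']` for `x x' = p ∈ R`, `x` transcendental over `R`.
`f x^a = g(x)`, `f x'^b = h(x')` with polynomials over `R`; comparing coefficients the coefficient of `x^{-k}`, `k > 0`, in `f` is
divisible by `p^k`. -/
namespace Cea

theorem B03_ne {K : Type} [Field K] [Algebra ℂ K] {R : Subalgebra ℂ K} {x : K} (hx : Transcendental R x) : x ≠ 0 := by
  rintro rfl
  exact hx isAlgebraic_zero

open Polynomial in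
theorem B03_repr {K : Type} [Field K] [Algebra ℂ K] (R : Subalgebra ℂ K) (x : K) (hx : x ≠ 0) (f : K)
    (h1 : f ∈ Algebra.adjoin ℂ ((R : Set K) ∪ {x, x⁻¹})) :
    ∃ (a : ℕ) (g : R[X]), f * x ^ a = aeval x g := by
  induction h1 using Algebra.adjoin_induction with
  | mem y hy =>
    rcases hy with hy | hy | hy
    · exact ⟨0, C ⟨y, hy⟩, by simp⟩
    · exact ⟨0, X, by rw [hy]; simp⟩
    · rw [Set.mem_singleton_iff] at hy
      exact ⟨1, 1, by rw [hy]; simp [hx]⟩
  | algebraMap r =>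
    refine ⟨0, C (algebraMap ℂ R r), ?_⟩
    rw [pow_zero, mul_one, aeval_C]; rfl
  | add y z _ _ hy hz =>
    obtain ⟨a, g, hg⟩ := hy
    obtain ⟨b, h, hh⟩ := hz
    refine ⟨a + b, g * X ^ b + h * X ^ a, ?_⟩
    simp only [map_add, map_mul, map_pow, aeval_X, ← hg, ← hh]
    ring
  | mul y z _ _ hy hz =>
    obtain ⟨a, g, hg⟩ := hy
    obtain ⟨b, h, hh⟩ := hz
    refine ⟨a + b, g * h, ?_⟩
    simp only [map_mul, ← hg, ← hh]
    ring

open Polynomial in
theorem B03_mem {K : Type} [Field K] [Algebra ℂ K] (R S : Subalgebra ℂ K) (hRS : R ≤ S) (x : K) (hx : x ∈ S) (g : R[X]) :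
    aeval x g ∈ S := by
  rw [aeval_eq_sum_range]
  refine Subalgebra.sum_mem _ fun i _ => ?_
  rw [Algebra.smul_def]
  exact S.mul_mem (hRS (g.coeff i).2) (S.pow_mem hx i)

open Polynomial in
/-- the constant coefficient is divisible by `p ^ (a + 1)` -/
theorem B03_const {K : Type} [Field K] [Algebra ℂ K] (R : Subalgebra ℂ K) (x : K) (p : R) (hx : Transcendental R x)
    (hp0 : p ≠ 0) (f : K) (a : ℕ) (g : R[X]) (hg : f * x ^ (a + 1) = aeval x g)
    (b : ℕ) (h : R[X]) (hh : f * ((p : K) / x) ^ b = aeval ((p : K) / x) h) :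
    g.coeff 0 = h.coeff (b + (a + 1)) * p ^ (a + 1) := by
  have hx0 : x ≠ 0 := B03_ne hx
  have hp0' : (p : K) ≠ 0 := by
    intro h0; exact hp0 (Subtype.ext h0)
  set n := h.natDegree + b + (a + 1) with hn
  -- the reversed polynomial
  set H : R[X] := ∑ j ∈ Finset.range (n + 1), monomial (n - j) (h.coeff j * p ^ j) with hH
  have e1 : aeval x H = aeval ((p : K) / x) h * x ^ n := by
    rw [hH, map_sum, aeval_eq_sum_range' (show h.natDegree < n + 1 by omega), Finset.sum_mul]
    apply Finset.sum_congr rfl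
    intro j hj
    have hj' : j ≤ n := by have := Finset.mem_range.1 hj; omega
    rw [aeval_monomial, Algebra.smul_def, map_mul, map_pow, div_pow]
    have : x ^ n = x ^ (n - j) * x ^ j := by rw [← pow_add]; congr 1; omega
    rw [this]
    have hxj : x ^ j ≠ 0 := pow_ne_zero _ hx0
    have hap : algebraMap R K p = (p : K) := rfl
    rw [hap]
    field_simp
  have hnb : b ≤ n := by omega
  have e2 : aeval x (C (p ^ b) * g * X ^ (n - b)) = aeval x (H * X ^ (a + 1)) := by
    rw [map_mul, map_mul, map_mul, e1, ← hg, ← hh, aeval_C, map_pow, map_pow, aeval_X, map_pow, aeval_X]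
    have hap : algebraMap R K p = (p : K) := rfl
    have : x ^ n = x ^ (n - b) * x ^ b := by rw [← pow_add]; congr 1; omega
    rw [this, hap, div_pow]
    have hxb : x ^ b ≠ 0 := pow_ne_zero _ hx0
    field_simp
  have e3 : C (p ^ b) * g * X ^ (n - b) = H * X ^ (a + 1) :=
    (transcendental_iff_injective.1 hx) e2
  have e4 : (C (p ^ b) * g * X ^ (n - b)).coeff (0 + (n - b)) = (H * X ^ (a + 1)).coeff (0 + (n - b)) := by rw [e3]
  rw [coeff_mul_X_pow, coeff_C_mul] at e4
  have e5 : (H * X ^ (a + 1)).coeff (0 + (n - b)) = H.coeff (h.natDegree) := by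
    rw [show 0 + (n - b) = h.natDegree + (a + 1) by omega, coeff_mul_X_pow]
  rw [e5] at e4
  have e6 : H.coeff h.natDegree = h.coeff (b + (a + 1)) * p ^ (b + (a + 1)) := by
    rw [hH, finsetSum_coeff]
    simp only [coeff_monomial]
    rw [Finset.sum_eq_single (b + (a + 1))]
    · rw [if_pos (by omega)]
    · intro j hj hne
      have := Finset.mem_range.1 hj
      rw [if_neg (by omega)]
    · intro hnot
      exact absurd (Finset.mem_range.2 (by omega)) hnot
  rw [e6, pow_add] at e4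
  have hpb : p ^ b ≠ 0 := pow_ne_zero _ hp0
  apply mul_left_cancel₀ hpb
  rw [e4]; ring

open Polynomial in
theorem B03_main {K : Type} [Field K] [Algebra ℂ K] (R : Subalgebra ℂ K) (x : K) (p : R) (hx : Transcendental R x)
    (hp0 : p ≠ 0) (a : ℕ) : ∀ (f : K) (g : R[X]), f * x ^ a = aeval x g →
    f ∈ Algebra.adjoin ℂ ((R : Set K) ∪ {(p : K) / x, ((p : K) / x)⁻¹}) →
    f ∈ Algebra.adjoin ℂ ((R : Set K) ∪ {x, (p : K) / x}) := by
  have hx0 : x ≠ 0 := B03_ne hx
  have hp0' : (p : K) ≠ 0 := by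
    intro h0; exact hp0 (Subtype.ext h0)
  set S := Algebra.adjoin ℂ ((R : Set K) ∪ {x, (p : K) / x}) with hS
  have hRS : R ≤ S := fun y hy => Algebra.subset_adjoin (Or.inl hy)
  have hxS : x ∈ S := Algebra.subset_adjoin (Or.inr (by simp))
  have hpS : (p : K) / x ∈ S := Algebra.subset_adjoin (Or.inr (by simp))
  induction a with
  | zero =>
    intro f g hg _
    rw [pow_zero, mul_one] at hg
    rw [hg]
    exact B03_mem R S hRS x hxS g
  | succ a ih =>
    intro f g hg hf
    obtain ⟨b, h, hh⟩ := B03_repr R ((p : K) / x) (div_ne_zero hp0' hx0) f hf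
    have hc := B03_const R x p hx hp0 f a g hg b h hh
    set c := h.coeff (b + (a + 1)) with hcdef
    have key : (f - (c : K) * ((p : K) / x) ^ (a + 1)) * x ^ a = aeval x g.divX := by
      have e1 : aeval x g = aeval x g.divX * x + ((g.coeff 0 : R) : K) := by
        conv_lhs => rw [← divX_mul_X_add g]
        rw [map_add, map_mul, aeval_X, aeval_C]; rfl
      rw [hc] at e1
      have e2 : (((c * p ^ (a + 1) : R)) : K) = (c : K) * (p : K) ^ (a + 1) := by push_cast; rfl
      rw [e2, ← hg] at e1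
      apply mul_right_cancel₀ hx0
      have e3 : aeval x g.divX * x = f * x ^ (a + 1) - (c : K) * (p : K) ^ (a + 1) := by
        rw [e1]; ring
      rw [e3, sub_mul, sub_mul, div_pow]
      have : x ^ (a + 1) ≠ 0 := pow_ne_zero _ hx0
      field_simp
      ring
    have hmem : f - (c : K) * ((p : K) / x) ^ (a + 1) ∈
        Algebra.adjoin ℂ ((R : Set K) ∪ {(p : K) / x, ((p : K) / x)⁻¹}) := by
      apply Subalgebra.sub_mem _ hf
      apply Subalgebra.mul_mem
      · exact Algebra.subset_adjoin (Or.inl c.2)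
      · apply Subalgebra.pow_mem
        exact Algebra.subset_adjoin (Or.inr (Or.inl rfl))
    have := ih _ _ key hmem
    have h2 : (c : K) * ((p : K) / x) ^ (a + 1) ∈ S := S.mul_mem (hRS c.2) (S.pow_mem hpS _)
    have h3 := S.add_mem this h2
    rwa [sub_add_cancel] at h3

theorem rank_one {K : Type} [Field K] [Algebra ℂ K] (R : Subalgebra ℂ K) (x p : K) (hx : Transcendental R x)
    (hp : p ∈ R) (hp0 : p ≠ 0) (f : K)
    (h1 : f ∈ Algebra.adjoin ℂ ((R : Set K) ∪ {x, x⁻¹}))
    (h2 : f ∈ Algebra.adjoin ℂ ((R : Set K) ∪ {p / x, (p / x)⁻¹})) :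
    f ∈ Algebra.adjoin ℂ ((R : Set K) ∪ {x, p / x}) := by
  obtain ⟨a, g, hg⟩ := B03_repr R x (B03_ne hx) f h1
  exact B03_main R x ⟨p, hp⟩ hx (fun h => hp0 (congrArg Subtype.val h)) a f g hg h2

end Cea
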