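import Pool.Agent.Lib.MP_cea156_al.BDefs
/-! B04: `x_i` is transcendental over every subalgebra of the field generated by the other variables. -/
namespace Cea
theorem trans_of_le {n : ℕ} {K : Type} [Field K] [Algebra ℂ K] {s : Seed n K} (h : s.Ok) (i : Fin n) (R : Subalgebra ℂ K)
    (hR : R ≤ (IntermediateField.adjoin ℂ {z | ∃ j, j ≠ i ∧ z = s.x j}).toSubalgebra) : Transcendental R (s.x i) := by
  have h1 : Transcendental (Algebra.adjoin ℂ (s.x '' {i}ᶜ)) (s.x i) :=
    h.1.transcendental_adjoin (s := {i}ᶜ) (i := i) (by simp)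
  have e : {z | ∃ j, j ≠ i ∧ z = s.x j} = s.x '' {i}ᶜ := by
    ext z
    constructor
    · rintro ⟨j, hj, rfl⟩
      exact ⟨j, hj, rfl⟩
    · rintro ⟨j, hj, rfl⟩
      exact ⟨j, hj, rfl⟩
  rw [e] at hR
  have h2 : Transcendental (IntermediateField.adjoin ℂ (s.x '' {i}ᶜ)) (s.x i) :=
    IntermediateField.transcendental_adjoin_iff.2 h1
  have h3 : Transcendental (IntermediateField.adjoin ℂ (s.x '' {i}ᶜ)).toSubalgebra (s.x i) := h2
  exact h3.of_tower_top_of_subalgebra_le hR
end Cea
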