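import Pool.Agent.Lib.MP_cea156_al.B01
import Pool.Agent.Lib.MP_cea156_al.B03
import Pool.Agent.Lib.MP_cea156_al.B04
/-! B05: isolated seeds. `upA_le_isoA`: induction on `M` (for all `s`). `M = insert i P`, `f ∈ upA M s`. Then `f ∈ upA P s` and
`f ∈ upA P (s.mut i)`, so by induction `f ∈ isoA P s`, which is `R[x_i, 1/x_i]`, and `f ∈ isoA P (s.mut i)`, which is
`R[x_i', 1/x_i']`, `R` generated by `x_k^{±1}` (`k ∉ M`), `x_j, x_j'` (`j ∈ P`): mutation at `i` does not change `exch j` (`b_{ij} = 0`).
`rank_one` with `p = exch i ∈ R` (only frozen variables occur), transcendence by B04. -/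
namespace Cea
open Relation
variable {n : ℕ} {K : Type} [Field K] [Algebra ℂ K]

omit [Algebra ℂ K] in
private theorem B05_reach {M P : Finset (Fin n)} (hP : P ⊆ M) {s t : Seed n K} (h : ReachM P s t) : ReachM M s t := by
  unfold ReachM at *
  induction h with
  | refl => exact ReflTransGen.refl
  | tail _ hk ih =>
    obtain ⟨k, hk, e⟩ := hk
    exact ih.tail ⟨k, hP hk, e⟩

private theorem B05_up {M P : Finset (Fin n)} (hP : P ⊆ M) (s : Seed n K) : upA M s ≤ upA P s := by
  unfold upA
  exact le_iInf₂ (fun s' hs' => iInf₂_le s' (B05_reach hP hs'))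

private theorem B05_up_mut {M P : Finset (Fin n)} (hP : P ⊆ M) {i : Fin n} (hi : i ∈ M) (s : Seed n K) :
    upA M s ≤ upA P (s.mut i) := by
  unfold upA
  refine le_iInf₂ (fun s' hs' => iInf₂_le s' ?_)
  have h1 : ReachM P (s.mut i) s' := hs'
  have h2 : ReachM M (s.mut i) s' := B05_reach hP h1
  show ReachM M s s'
  unfold ReachM at *
  exact ReflTransGen.head ⟨i, hi, rfl⟩ h2

/-- the base algebra -/
private def B05R (P : Finset (Fin n)) (i : Fin n) (s : Seed n K) : Subalgebra ℂ K :=
  Algebra.adjoin ℂ ({z | ∃ k, k ∉ insert i P ∧ (z = s.x k ∨ z = (s.x k)⁻¹)} ∪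
    {z | ∃ j ∈ P, z = s.x j ∨ z = s.exch j / s.x j})

omit [Algebra ℂ K] in
/-- only the exponents outside the isolated set matter -/
private theorem B05_exch_mem (S : Subfield K) (s : Seed n K) (j : Fin n) (h : ∀ k, s.B k j ≠ 0 → s.x k ∈ S) :
    s.exch j ∈ S := by
  unfold Seed.exch
  refine add_mem (prod_mem fun k _ => ?_) (prod_mem fun k _ => ?_)
  · by_cases hk : s.B k j = 0
    · rw [hk]; simp [one_mem]
    · exact pow_mem (h k hk) _
  · by_cases hk : s.B k j = 0
    · rw [hk]; simp [one_mem]
    · exact pow_mem (h k hk) _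

private theorem B05_exch_mem' (S : Subalgebra ℂ K) (s : Seed n K) (j : Fin n) (h : ∀ k, s.B k j ≠ 0 → s.x k ∈ S) :
    s.exch j ∈ S := by
  unfold Seed.exch
  refine add_mem (prod_mem fun k _ => ?_) (prod_mem fun k _ => ?_)
  · by_cases hk : s.B k j = 0
    · rw [hk]; simp [one_mem]
    · exact pow_mem (h k hk) _
  · by_cases hk : s.B k j = 0
    · rw [hk]; simp [one_mem]
    · exact pow_mem (h k hk) _

omit [Algebra ℂ K] in
private theorem B05_exch_mut (s : Seed n K) {i j : Fin n} (hij : s.B i j = 0) (hne : j ≠ i) :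
    (s.mut i).exch j = s.exch j := by
  have hB : ∀ k, (s.mut i).B k j = s.B k j := by
    intro k
    simp only [Seed.mut, mutB]
    by_cases hk : k = i
    · subst hk; simp [hij]
    · simp [hk, hne, hij]
  have hx : ∀ k, k ≠ i → (s.mut i).x k = s.x k := by
    intro k hk
    simp [Seed.mut, Function.update_of_ne hk]
  unfold Seed.exch
  congr 1
  · refine Finset.prod_congr rfl fun k _ => ?_
    rw [hB k]
    by_cases hk : k = i
    · subst hk; rw [hij]; simp
    · rw [hx k hk]
  · refine Finset.prod_congr rfl fun k _ => ?_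
    rw [hB k]
    by_cases hk : k = i
    · subst hk; rw [hij]; simp
    · rw [hx k hk]

theorem upA_le_isoA (M : Finset (Fin n)) (s : Seed n K) (h : s.Ok) (hM : ∀ i ∈ M, ∀ j ∈ M, s.B i j = 0) :
    upA M s ≤ isoA M s := by
  classical
  induction M using Finset.induction_on generalizing s with
  | empty =>
    have h1 : upA ∅ s ≤ laurent s := by
      unfold upA
      exact iInf₂_le s (by show ReachM ∅ s s; exact ReflTransGen.refl)
    refine h1.trans ?_
    unfold laurent isoA
    apply Algebra.adjoin_mono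
    rintro z ⟨i, hi⟩
    exact Or.inl ⟨i, by simp, hi⟩
  | insert i P hiP ih =>
    intro f hf
    have hPM : P ⊆ insert i P := Finset.subset_insert i P
    have hi : i ∈ insert i P := Finset.mem_insert_self i P
    have f1 : f ∈ isoA P s := ih s h (fun a ha b hb => hM a (hPM ha) b (hPM hb)) (B05_up hPM s hf)
    have f2 : f ∈ isoA P (s.mut i) := by
      refine ih (s.mut i) (mut_ok h i) ?_ (B05_up_mut hPM hi s hf)
      intro a ha b hb
      have ha' : a ≠ i := fun e => hiP (e ▸ ha)
      have hb' : b ≠ i := fun e => hiP (e ▸ hb)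
      simp only [Seed.mut, mutB]
      rw [if_neg (by simp [ha', hb']), hM a (hPM ha) b (hPM hb), hM a (hPM ha) i hi, hM i hi b (hPM hb)]
      simp
    have hRx : ∀ k, k ∉ insert i P → s.x k ∈ B05R P i s := fun k hk =>
      Algebra.subset_adjoin (Or.inl ⟨k, hk, Or.inl rfl⟩)
    have hp : s.exch i ∈ B05R P i s := by
      apply B05_exch_mem'
      intro k hk
      apply hRx
      intro hk'
      exact hk (hM k hk' i hi)
    have hR : B05R P i s ≤ (IntermediateField.adjoin ℂ {z | ∃ j, j ≠ i ∧ z = s.x j}).toSubalgebra := by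
      have hx : ∀ j, j ≠ i → s.x j ∈ IntermediateField.adjoin ℂ {z | ∃ j, j ≠ i ∧ z = s.x j} := fun j hj =>
        IntermediateField.subset_adjoin ℂ _ ⟨j, hj, rfl⟩
      unfold B05R
      rw [Algebra.adjoin_le_iff]
      rintro z (⟨k, hk, rfl | rfl⟩ | ⟨j, hj, rfl | rfl⟩)
      · have : k ≠ i := fun e => hk (e ▸ hi)
        exact hx k this
      · have : k ≠ i := fun e => hk (e ▸ hi)
        exact (IntermediateField.adjoin ℂ {z | ∃ j, j ≠ i ∧ z = s.x j}).inv_mem (hx k this)
      · have : j ≠ i := fun e => hiP (e ▸ hj)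
        exact hx j this
      · have hji : j ≠ i := fun e => hiP (e ▸ hj)
        refine (IntermediateField.adjoin ℂ {z | ∃ j, j ≠ i ∧ z = s.x j}).div_mem ?_ (hx j hji)
        have := B05_exch_mem (IntermediateField.adjoin ℂ {z | ∃ j, j ≠ i ∧ z = s.x j}).toSubfield s j (by
          intro k hk
          have hki : k ≠ i := by
            intro e
            rw [e] at hk
            exact hk (hM i hi j (hPM hj))
          exact hx k hki)
        exact this
    have hx := trans_of_le h i (B05R P i s) hR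
    have g1 : f ∈ Algebra.adjoin ℂ ((B05R P i s : Set K) ∪ {s.x i, (s.x i)⁻¹}) := by
      refine (Algebra.adjoin_le ?_ : isoA P s ≤ _) f1
      rintro z (⟨k, hk, hz⟩ | ⟨j, hj, hz⟩)
      · by_cases hki : k = i
        · subst hki
          apply Algebra.subset_adjoin
          right
          simpa using hz
        · apply Algebra.subset_adjoin
          left
          exact Algebra.subset_adjoin (Or.inl ⟨k, by simp [hki, hk], hz⟩)
      · apply Algebra.subset_adjoin
        left
        exact Algebra.subset_adjoin (Or.inr ⟨j, hj, hz⟩)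
    have g2 : f ∈ Algebra.adjoin ℂ ((B05R P i s : Set K) ∪ {s.exch i / s.x i, (s.exch i / s.x i)⁻¹}) := by
      refine (Algebra.adjoin_le ?_ : isoA P (s.mut i) ≤ _) f2
      rintro z (⟨k, hk, hz⟩ | ⟨j, hj, hz⟩)
      · by_cases hki : k = i
        · subst hki
          apply Algebra.subset_adjoin
          right
          simpa [Seed.mut] using hz
        · apply Algebra.subset_adjoin
          left
          refine Algebra.subset_adjoin (Or.inl ⟨k, by simp [hki, hk], ?_⟩)
          simpa [Seed.mut, Function.update_of_ne hki] using hz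
      · have hji : j ≠ i := fun e => hiP (e ▸ hj)
        apply Algebra.subset_adjoin
        left
        refine Algebra.subset_adjoin (Or.inr ⟨j, hj, ?_⟩)
        rw [B05_exch_mut s (hM i hi j (hPM hj)) hji] at hz
        simpa [Seed.mut, Function.update_of_ne hji] using hz
    have g3 := rank_one (B05R P i s) (s.x i) (s.exch i) hx hp (exch_ne h i) f g1 g2
    refine (Algebra.adjoin_le ?_ : Algebra.adjoin ℂ ((B05R P i s : Set K) ∪ {s.x i, s.exch i / s.x i}) ≤ _) g3
    rintro z (hz | hz)
    · refine (Algebra.adjoin_le ?_ : B05R P i s ≤ _) hz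
      rintro z (⟨k, hk, hz⟩ | ⟨j, hj, hz⟩)
      · exact Algebra.subset_adjoin (Or.inl ⟨k, hk, hz⟩)
      · exact Algebra.subset_adjoin (Or.inr ⟨j, hPM hj, hz⟩)
    · exact Algebra.subset_adjoin (Or.inr ⟨i, hi, by simpa using hz⟩)

theorem isoA_le_clA (M : Finset (Fin n)) (s : Seed n K) (h : s.Ok) : isoA M s ≤ clA M s := by
  unfold isoA
  rw [Algebra.adjoin_le_iff]
  have hc : ∀ s' : Seed n K, ReachM M s s' → ∀ i, s'.x i ∈ clA M s := fun s' hs i =>
    Algebra.subset_adjoin (Or.inl ⟨s', hs, i, rfl⟩)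
  rintro z (⟨k, hk, rfl | rfl⟩ | ⟨j, hj, rfl | rfl⟩)
  · exact hc s ReflTransGen.refl k
  · exact Algebra.subset_adjoin (Or.inr ⟨k, hk, rfl⟩)
  · exact hc s ReflTransGen.refl j
  · have := hc (s.mut j) (ReflTransGen.single ⟨j, hj, rfl⟩) j
    simpa [Seed.mut] using this
end Cea
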