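import Pool.Agent.Lib.MP_cea156_al.B01
/-! B06: glueing (Muller). `i ∈ M` is a source in `M`, `b_{ij} > 0`. Exchange relation at `i`: `x_i x_i' = u + x_j v` with `u` a monomial in the
frozen variables (a unit of `clA M s`), `v ∈ clA M s`, so `(x_i, x_j)` is the unit ideal of `clA M s`, and so is `(x_i^a, x_j^b)`. For
`f ∈ upA M s`: `upA M s ≤ upA (M.erase i) s ≤ clA (M.erase i) s` and every element of `clA (M.erase i) s` times a power of `x_i` lies in
`clA M s`; same for `j`. -/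
namespace Cea
variable {n : ℕ} {K : Type} [Field K] [Algebra ℂ K]

private theorem B06_reach {M : Finset (Fin n)} {i : Fin n} {s s' : Seed n K} (h : ReachM (M.erase i) s s') :
    ReachM M s s' := by
  induction h with
  | refl => exact Relation.ReflTransGen.refl
  | tail _ h2 ih =>
    obtain ⟨k, hk, e⟩ := h2
    exact Relation.ReflTransGen.tail ih ⟨k, Finset.mem_of_mem_erase hk, e⟩

private theorem B06_up (M : Finset (Fin n)) (i : Fin n) (s : Seed n K) : upA M s ≤ upA (M.erase i) s := by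
  unfold upA
  refine le_iInf₂ fun s' hs' => ?_
  exact iInf₂_le s' (B06_reach hs')

private theorem B06_var (M : Finset (Fin n)) (s : Seed n K) {s' : Seed n K} (h : ReachM M s s') (k : Fin n) :
    s'.x k ∈ clA M s :=
  Algebra.subset_adjoin (Or.inl ⟨s', h, k, rfl⟩)

private theorem B06_x (M : Finset (Fin n)) (s : Seed n K) (k : Fin n) : s.x k ∈ clA M s :=
  B06_var M s Relation.ReflTransGen.refl k

private theorem B06_inv (M : Finset (Fin n)) (s : Seed n K) {k : Fin n} (hk : k ∉ M) : (s.x k)⁻¹ ∈ clA M s :=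
  Algebra.subset_adjoin (Or.inr ⟨k, hk, rfl⟩)

/-- a power of `x_i` clears the denominators -/
private theorem B06_clear (M : Finset (Fin n)) (s : Seed n K) {i : Fin n} (hx : s.x i ≠ 0) {f : K}
    (hf : f ∈ clA (M.erase i) s) : ∃ a : ℕ, s.x i ^ a * f ∈ clA M s := by
  unfold clA at hf
  induction hf using Algebra.adjoin_induction with
  | mem z hz =>
    rcases hz with ⟨s', hs', k, rfl⟩ | ⟨k, hk, rfl⟩
    · exact ⟨0, by rw [pow_zero, one_mul]; exact B06_var M s (B06_reach hs') k⟩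
    · by_cases hki : k = i
      · subst hki
        refine ⟨1, ?_⟩
        rw [pow_one, mul_inv_cancel₀ hx]
        exact one_mem _
      · refine ⟨0, ?_⟩
        rw [pow_zero, one_mul]
        refine B06_inv M s fun hkM => hk (Finset.mem_erase.mpr ⟨hki, hkM⟩)
  | algebraMap r => exact ⟨0, by rw [pow_zero, one_mul]; exact Subalgebra.algebraMap_mem _ r⟩
  | add x y _ _ hx' hy' =>
    obtain ⟨a, ha⟩ := hx'
    obtain ⟨b, hb⟩ := hy'
    refine ⟨a + b, ?_⟩
    have e : s.x i ^ (a + b) * (x + y) = s.x i ^ b * (s.x i ^ a * x) + s.x i ^ a * (s.x i ^ b * y) := by ring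
    rw [e]
    exact add_mem (mul_mem (pow_mem (B06_x M s i) b) ha) (mul_mem (pow_mem (B06_x M s i) a) hb)
  | mul x y _ _ hx' hy' =>
    obtain ⟨a, ha⟩ := hx'
    obtain ⟨b, hb⟩ := hy'
    refine ⟨a + b, ?_⟩
    have e : s.x i ^ (a + b) * (x * y) = (s.x i ^ a * x) * (s.x i ^ b * y) := by ring
    rw [e]
    exact mul_mem ha hb

theorem glue (M : Finset (Fin n)) (s : Seed n K) (h : s.Ok) {i j : Fin n} (hi : i ∈ M) (hj : j ∈ M) (hij : 0 < s.B i j)
    (hsrc : ∀ k ∈ M, 0 ≤ s.B i k) (h1 : upA (M.erase i) s ≤ clA (M.erase i) s)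
    (h2 : upA (M.erase j) s ≤ clA (M.erase j) s) : upA M s ≤ clA M s := by
  have hxi := Ok_ne h i
  have hxj := Ok_ne h j
  intro f hf
  obtain ⟨a, ha⟩ := B06_clear M s hxi (h1 (B06_up M i s hf))
  obtain ⟨b, hb⟩ := B06_clear M s hxj (h2 (B06_up M j s hf))
  -- the exchange relation
  set u : K := ∏ k, s.x k ^ (s.B k i).toNat with hu
  set w : K := ∏ k, s.x k ^ (-s.B k i).toNat with hw
  have hex : s.exch i = u + w := rfl
  have hx' : s.exch i / s.x i ∈ clA M s := by
    have h3 : ReachM M s (s.mut i) := Relation.ReflTransGen.single ⟨i, hi, rfl⟩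
    have h4 := B06_var M s h3 i
    simpa [Seed.mut] using h4
  have hune : u ≠ 0 := Finset.prod_ne_zero_iff.mpr fun k _ => pow_ne_zero _ (Ok_ne h k)
  have huinv : u⁻¹ ∈ clA M s := by
    rw [hu, ← Finset.prod_inv_distrib]
    refine prod_mem fun k _ => ?_
    by_cases hk : k ∈ M
    · have h5 := hsrc k hk
      have h6 := h.2 i k
      have h7 : (s.B k i).toNat = 0 := by
        rw [Int.toNat_eq_zero]
        omega
      rw [h7, pow_zero, inv_one]
      exact one_mem _
    · rw [← inv_pow]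
      exact pow_mem (B06_inv M s hk) _
  obtain ⟨v, hv, hwv⟩ : ∃ v ∈ clA M s, w = s.x j * v := by
    have h6 := h.2 i j
    obtain ⟨m, hm⟩ : ∃ m, (-s.B j i).toNat = m + 1 := ⟨(-s.B j i).toNat - 1, by omega⟩
    refine ⟨s.x j ^ m * ∏ k ∈ Finset.univ.erase j, s.x k ^ (-s.B k i).toNat, ?_, ?_⟩
    · exact mul_mem (pow_mem (B06_x M s j) _) (prod_mem fun k _ => pow_mem (B06_x M s k) _)
    · rw [hw, ← Finset.mul_prod_erase Finset.univ _ (Finset.mem_univ j), hm, pow_succ]
      ring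
  have hcop : IsCoprime (⟨s.x i, B06_x M s i⟩ : clA M s) ⟨s.x j, B06_x M s j⟩ := by
    refine ⟨⟨u⁻¹ * (s.exch i / s.x i), mul_mem huinv hx'⟩, ⟨-(u⁻¹ * v), neg_mem (mul_mem huinv hv)⟩, ?_⟩
    apply Subtype.ext
    show u⁻¹ * (s.exch i / s.x i) * s.x i + -(u⁻¹ * v) * s.x j = 1
    rw [mul_assoc, div_mul_cancel₀ _ hxi, hex, hwv]
    field_simp
    ring
  obtain ⟨α, β, hαβ⟩ := hcop.pow (m := a) (n := b)
  have h8 : (α : K) * s.x i ^ a + (β : K) * s.x j ^ b = 1 := by
    have := congrArg (Subtype.val) hαβ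
    simpa using this
  have h9 : f = (α : K) * (s.x i ^ a * f) + (β : K) * (s.x j ^ b * f) := by
    linear_combination (-f) * h8
  rw [h9]
  exact add_mem (mul_mem α.2 ha) (mul_mem β.2 hb)
end Cea
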