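import Pool.Agent.Lib.MP_cea156_al.B02
import Pool.Agent.Lib.MP_cea156_al.B05
import Pool.Agent.Lib.MP_cea156_al.B06
/-! B07: acyclic seeds (DONE here, uses B05, B06). -/
namespace Cea
variable {n : ℕ} {K : Type} [Field K] [Algebra ℂ K]

theorem upA_le_clA (s : Seed n K) (h : s.Ok) (r : Fin n → ℕ) (hr : ∀ i j, 0 < s.B i j → r i < r j) :
    ∀ (m : ℕ) (M : Finset (Fin n)), M.card = m → upA M s ≤ clA M s := by
  classical
  intro m
  induction m with
  | zero =>
    intro M hM
    rw [Finset.card_eq_zero] at hM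
    subst hM
    exact (upA_le_isoA _ s h (by simp)).trans (isoA_le_clA _ s h)
  | succ m ih =>
    intro M hM
    by_cases h0 : ∀ i ∈ M, ∀ j ∈ M, s.B i j = 0
    · exact (upA_le_isoA _ s h h0).trans (isoA_le_clA _ s h)
    · let N := M.filter fun i => ∃ j ∈ M, s.B i j ≠ 0
      have hN : N.Nonempty := by
        push Not at h0
        obtain ⟨i, hi, j, hj, hij⟩ := h0
        exact ⟨i, Finset.mem_filter.2 ⟨hi, j, hj, hij⟩⟩
      obtain ⟨i, hiN, hmin⟩ := N.exists_min_image r hN
      obtain ⟨hi, j, hj, hij⟩ := Finset.mem_filter.1 hiN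
      have hsrc : ∀ k ∈ M, 0 ≤ s.B i k := by
        intro k hk
        by_contra hneg
        push Not at hneg
        have h1 : 0 < s.B k i := by
          have := h.2 k i
          omega
        have h2 := hmin k (Finset.mem_filter.2 ⟨hk, i, hi, by omega⟩)
        have h3 := hr k i h1
        omega
      have hpos : 0 < s.B i j := lt_of_le_of_ne (hsrc j hj) (Ne.symm hij)
      exact glue M s h hi hj hpos hsrc (ih _ (by rw [Finset.card_erase_of_mem hi]; omega))
        (ih _ (by rw [Finset.card_erase_of_mem hj]; omega))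

/-- `U ≤ A` for a seed with acyclic matrix -/
theorem upper_le_of_acyc {s : Seed n K} (h : s.Ok) (ha : Acyc s.B) : upperAlg s ≤ clusterAlg s := by
  obtain ⟨r, hr⟩ := ha
  have h1 := upA_le_clA s h r hr _ Finset.univ rfl
  have e : ∀ s', ReachM Finset.univ s s' ↔ Reach s s' := by
    intro s'
    simp [ReachM, Reach]
  have e1 : upperAlg s = upA Finset.univ s := by
    unfold upperAlg upA
    simp only [Set.mem_ofPred_eq, e]
  have e2 : clA Finset.univ s = clusterAlg s := by
    unfold clA clusterAlg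
    simp [e]
  rw [e1, ← e2]
  exact h1

/-- `U ≤ A` for mutation-acyclic matrices -/
theorem upper_le_of_mutAcyc (B : Matrix (Fin n) (Fin n) ℤ) (hB : ∀ i j, B i j = -B j i) (h : MutAcyc B) :
    upperAlg (initSeed B) ≤ clusterAlg (initSeed B) := by
  obtain ⟨B', h1, h2⟩ := h
  obtain ⟨s', h3, rfl⟩ := reach_lift (s := initSeed B) h1
  have hok := initSeed_ok B hB
  rw [upperAlg_eq hok h3, clusterAlg_eq hok h3]
  exact upper_le_of_acyc (reach_ok hok h3) h2

end Cea
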