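import Pool.Agent.Lib.MP_cea156_al.Defs
/-! Definitions for the proof of `A = U` in the acyclic case (freezing, Muller's glueing). -/
namespace Cea
open Relation
variable {n : ℕ} {K : Type} [Field K]

/-- `s'` is obtained from `s` by iterated mutation at vertices in `M` -/
def ReachM (M : Finset (Fin n)) (s s' : Seed n K) : Prop := ReflTransGen (fun a b => ∃ k ∈ M, b = a.mut k) s s'

variable [Algebra ℂ K]

/-- algebraically independent cluster, skew-symmetric matrix -/
def Seed.Ok (s : Seed n K) : Prop := AlgebraicIndependent ℂ s.x ∧ ∀ i j, s.B i j = -s.B j i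

/-- the variables outside `M` are frozen (and inverted) -/
def clA (M : Finset (Fin n)) (s : Seed n K) : Subalgebra ℂ K :=
  Algebra.adjoin ℂ ({z | ∃ s', ReachM M s s' ∧ ∃ i, z = s'.x i} ∪ {z | ∃ i, i ∉ M ∧ z = (s.x i)⁻¹})

/-- upper cluster algebra with frozen variables outside `M` -/
def upA (M : Finset (Fin n)) (s : Seed n K) : Subalgebra ℂ K := ⨅ s' ∈ {s' | ReachM M s s'}, laurent s'

/-- the algebra generated by `x_k, x_k⁻¹` (`k ∉ M`) and `x_i, x_i'` (`i ∈ M`) -/
def isoA (M : Finset (Fin n)) (s : Seed n K) : Subalgebra ℂ K :=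
  Algebra.adjoin ℂ ({z | ∃ i, i ∉ M ∧ (z = s.x i ∨ z = (s.x i)⁻¹)} ∪ {z | ∃ i ∈ M, z = s.x i ∨ z = s.exch i / s.x i})
end Cea
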