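import Pool.Agent.Lib.MP_cea156_al.Defs
/-! C01: coefficients of a substituted potential on words of length 2 and 3. `φ a [] = 0`, so only words `u` with `|u| ≤ |w|`
matter and `wordSub φ [p] w = φ p w`, `wordSub φ [p, q] [x, y] = φ p [x] φ q [y]`, etc. In the cyclic sum the contributions of
`W [p, q]` and `W [q, p]` combine to `cyc W [p, q]`. -/
namespace Cea

private theorem C01_sum {A : Type} [Fintype A] (m : ℕ) (f : List A → ℂ) :
    ∑ u : Fin (m + 1) → A, f (List.ofFn u) = ∑ a, ∑ u : Fin m → A, f (a :: List.ofFn u) := by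
  rw [← Fintype.sum_prod_type']
  refine Fintype.sum_equiv (Fin.consEquiv (fun _ : Fin (m + 1) => A)).symm _ _ (fun u => ?_)
  rw [List.ofFn_succ]
  rfl

private theorem C01_sum0 {A : Type} [Fintype A] (f : List A → ℂ) :
    ∑ u : Fin 0 → A, f (List.ofFn u) = f [] := by
  simp

private theorem C01_sum1 {A : Type} [Fintype A] (f : List A → ℂ) :
    ∑ u : Fin 1 → A, f (List.ofFn u) = ∑ a, f [a] := by
  rw [C01_sum]
  refine Finset.sum_congr rfl (fun a _ => ?_)
  simp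

private theorem C01_sum2 {A : Type} [Fintype A] (f : List A → ℂ) :
    ∑ u : Fin 2 → A, f (List.ofFn u) = ∑ a, ∑ b, f [a, b] := by
  rw [C01_sum]
  refine Finset.sum_congr rfl (fun a _ => ?_)
  exact C01_sum1 (fun l => f (a :: l))

private theorem C01_sum3 {A : Type} [Fintype A] (f : List A → ℂ) :
    ∑ u : Fin 3 → A, f (List.ofFn u) = ∑ a, ∑ b, ∑ c, f [a, b, c] := by
  rw [C01_sum]
  refine Finset.sum_congr rfl (fun a _ => ?_)
  exact C01_sum2 (fun l => f (a :: l))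

variable {A A' : Type} (φ : A → List A' → ℂ)

private theorem C01_nil (p : A) (u : List A) (hφ : ∀ a, φ a [] = 0) : wordSub φ (p :: u) [] = 0 := by
  simp [wordSub, conv, hφ]

private theorem C01_one (_hφ : ∀ a, φ a [] = 0) (p : A) (w : List A') : wordSub φ [p] w = φ p w := by
  simp only [wordSub, conv]
  rw [Finset.sum_eq_single w.length]
  · simp
  · intro k hk hk2
    have h1 : k < w.length := by
      have := Finset.mem_range.mp hk
      omega
    have h2 : (w.drop k).isEmpty = false := by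
      rw [List.isEmpty_eq_false_iff]
      intro h
      have := List.drop_eq_nil_iff.mp h
      omega
    rw [h2]
    simp
  · intro h
    exact absurd (Finset.mem_range.mpr (Nat.lt_succ_self _)) h

private theorem C01_two2 (hφ : ∀ a, φ a [] = 0) (p q : A) (x y : A') :
    wordSub φ [p, q] [x, y] = φ p [x] * φ q [y] := by
  rw [wordSub]
  simp [conv, Finset.sum_range_succ, C01_one φ hφ, hφ]

private theorem C01_two1 (hφ : ∀ a, φ a [] = 0) (p q : A) (x : A') :
    wordSub φ [p, q] [x] = 0 := by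
  rw [wordSub]
  simp [conv, Finset.sum_range_succ, C01_one φ hφ, hφ]

private theorem C01_two3 (hφ : ∀ a, φ a [] = 0) (p q : A) (x y z : A') :
    wordSub φ [p, q] [x, y, z] = φ p [x] * φ q [y, z] + φ p [x, y] * φ q [z] := by
  rw [wordSub]
  simp [conv, Finset.sum_range_succ, C01_one φ hφ, hφ]

private theorem C01_three3 (hφ : ∀ a, φ a [] = 0) (p q r : A) (x y z : A') :
    wordSub φ [p, q, r] [x, y, z] = φ p [x] * (φ q [y] * φ r [z]) := by
  rw [wordSub]
  simp [conv, Finset.sum_range_succ, C01_two2 φ hφ, C01_two1 φ hφ, C01_nil φ q [r] hφ, hφ]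

private theorem C01_subst2 [Fintype A] (hφ : ∀ a, φ a [] = 0) (W : List A → ℂ)
    (h0 : W [] = 0) (h1 : ∀ a, W [a] = 0) (x y : A') :
    subst φ W [x, y] = ∑ p, ∑ q, W [p, q] * (φ p [x] * φ q [y]) := by
  unfold subst
  rw [show [x, y].length + 1 = 3 from rfl, Finset.sum_range_succ, Finset.sum_range_succ, Finset.sum_range_one,
    C01_sum0 (fun u => W u * wordSub φ u [x, y]), C01_sum1 (fun u => W u * wordSub φ u [x, y]),
    C01_sum2 (fun u => W u * wordSub φ u [x, y])]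
  simp only [h0, h1, zero_mul, Finset.sum_const_zero, zero_add, C01_two2 φ hφ]

private theorem C01_subst3 [Fintype A] (hφ : ∀ a, φ a [] = 0) (W : List A → ℂ)
    (h0 : W [] = 0) (h1 : ∀ a, W [a] = 0) (x y z : A') :
    subst φ W [x, y, z] = ∑ p, ∑ q, W [p, q] * (φ p [x] * φ q [y, z] + φ p [x, y] * φ q [z]) +
      ∑ p, ∑ q, ∑ r, W [p, q, r] * (φ p [x] * (φ q [y] * φ r [z])) := by
  unfold subst
  rw [show [x, y, z].length + 1 = 4 from rfl, Finset.sum_range_succ, Finset.sum_range_succ, Finset.sum_range_succ,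
    Finset.sum_range_one,
    C01_sum0 (fun u => W u * wordSub φ u [x, y, z]), C01_sum1 (fun u => W u * wordSub φ u [x, y, z]),
    C01_sum2 (fun u => W u * wordSub φ u [x, y, z]), C01_sum3 (fun u => W u * wordSub φ u [x, y, z])]
  simp only [h0, h1, zero_mul, Finset.sum_const_zero, zero_add, C01_two3 φ hφ, C01_three3 φ hφ]

private theorem C01_cyc2 {A : Type} (W : List A → ℂ) (p q : A) : cyc W [p, q] = W [p, q] + W [q, p] := by
  simp [cyc, Finset.sum_range_succ]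

private theorem C01_cyc3 {A : Type} (W : List A → ℂ) (p q r : A) :
    cyc W [p, q, r] = W [p, q, r] + W [q, r, p] + W [r, p, q] := by
  simp [cyc, Finset.sum_range_succ]

theorem cyc_subst_two {A A' : Type} [Fintype A] (φ : A → List A' → ℂ) (hφ : ∀ a, φ a [] = 0) (W : List A → ℂ)
    (h0 : W [] = 0) (h1 : ∀ a, W [a] = 0) (x y : A') :
    cyc (subst φ W) [x, y] = ∑ p, ∑ q, φ p [x] * φ q [y] * cyc W [p, q] := by
  rw [C01_cyc2, C01_subst2 φ hφ W h0 h1, C01_subst2 φ hφ W h0 h1]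
  have h2 : ∑ p, ∑ q, W [p, q] * (φ p [y] * φ q [x]) = ∑ p, ∑ q, W [q, p] * (φ q [y] * φ p [x]) :=
    Finset.sum_comm
  rw [h2, ← Finset.sum_add_distrib]
  refine Finset.sum_congr rfl (fun p _ => ?_)
  rw [← Finset.sum_add_distrib]
  refine Finset.sum_congr rfl (fun q _ => ?_)
  rw [C01_cyc2]
  ring

theorem cyc_subst_three {A A' : Type} [Fintype A] (φ : A → List A' → ℂ) (hφ : ∀ a, φ a [] = 0) (W : List A → ℂ)
    (h0 : W [] = 0) (h1 : ∀ a, W [a] = 0) (x y z : A') :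
    cyc (subst φ W) [x, y, z] = ∑ p, ∑ q, ∑ r, φ p [x] * φ q [y] * φ r [z] * cyc W [p, q, r] +
      ∑ p, ∑ q, cyc W [p, q] * (φ p [x] * φ q [y, z] + φ p [y] * φ q [z, x] + φ p [z] * φ q [x, y]) := by
  have key2 : ∀ a b c : A', ∑ p, ∑ q, W [p, q] * (φ p [a] * φ q [b, c] + φ p [a, b] * φ q [c]) =
      ∑ p, ∑ q, W [p, q] * (φ p [a] * φ q [b, c]) + ∑ p, ∑ q, W [q, p] * (φ p [c] * φ q [a, b]) := by
    intro a b c
    have h2 : ∑ p, ∑ q, W [q, p] * (φ p [c] * φ q [a, b]) = ∑ p, ∑ q, W [p, q] * (φ q [c] * φ p [a, b]) :=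
      Finset.sum_comm
    rw [h2, ← Finset.sum_add_distrib]
    refine Finset.sum_congr rfl (fun p _ => ?_)
    rw [← Finset.sum_add_distrib]
    refine Finset.sum_congr rfl (fun q _ => ?_)
    ring
  have r1 : ∀ f : A → A → A → ℂ, ∑ p, ∑ q, ∑ r, f p q r = ∑ p, ∑ q, ∑ r, f q r p := by
    intro f
    calc ∑ p, ∑ q, ∑ r, f p q r = ∑ p, ∑ r, ∑ q, f p q r :=
          Finset.sum_congr rfl (fun p _ => Finset.sum_comm)
      _ = ∑ r, ∑ p, ∑ q, f p q r := Finset.sum_comm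
  have e1 : ∑ p, ∑ q, ∑ r, W [p, q, r] * (φ p [y] * (φ q [z] * φ r [x])) =
      ∑ p, ∑ q, ∑ r, W [q, r, p] * (φ q [y] * (φ r [z] * φ p [x])) :=
    r1 (fun p q r => W [p, q, r] * (φ p [y] * (φ q [z] * φ r [x])))
  have e2 : ∑ p, ∑ q, ∑ r, W [p, q, r] * (φ p [z] * (φ q [x] * φ r [y])) =
      ∑ p, ∑ q, ∑ r, W [r, p, q] * (φ r [z] * (φ p [x] * φ q [y])) :=
    (r1 (fun p q r => W [p, q, r] * (φ p [z] * (φ q [x] * φ r [y])))).trans
      (r1 (fun p q r => W [q, r, p] * (φ q [z] * (φ r [x] * φ p [y]))))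
  rw [C01_cyc3, C01_subst3 φ hφ W h0 h1, C01_subst3 φ hφ W h0 h1, C01_subst3 φ hφ W h0 h1, key2 x y z, key2 y z x,
    key2 z x y, e1, e2]
  have t3 : ∑ p, ∑ q, ∑ r, φ p [x] * φ q [y] * φ r [z] * cyc W [p, q, r] =
      ∑ p, ∑ q, ∑ r, W [p, q, r] * (φ p [x] * (φ q [y] * φ r [z])) +
      ∑ p, ∑ q, ∑ r, W [q, r, p] * (φ q [y] * (φ r [z] * φ p [x])) +
      ∑ p, ∑ q, ∑ r, W [r, p, q] * (φ r [z] * (φ p [x] * φ q [y])) := by
    rw [← Finset.sum_add_distrib, ← Finset.sum_add_distrib]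
    refine Finset.sum_congr rfl (fun p _ => ?_)
    rw [← Finset.sum_add_distrib, ← Finset.sum_add_distrib]
    refine Finset.sum_congr rfl (fun q _ => ?_)
    rw [← Finset.sum_add_distrib, ← Finset.sum_add_distrib]
    refine Finset.sum_congr rfl (fun r _ => ?_)
    rw [C01_cyc3]
    ring
  have t2 : ∑ p, ∑ q, cyc W [p, q] * (φ p [x] * φ q [y, z] + φ p [y] * φ q [z, x] + φ p [z] * φ q [x, y]) =
      (∑ p, ∑ q, W [p, q] * (φ p [x] * φ q [y, z]) + ∑ p, ∑ q, W [q, p] * (φ p [z] * φ q [x, y])) +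
      (∑ p, ∑ q, W [p, q] * (φ p [y] * φ q [z, x]) + ∑ p, ∑ q, W [q, p] * (φ p [x] * φ q [y, z])) +
      (∑ p, ∑ q, W [p, q] * (φ p [z] * φ q [x, y]) + ∑ p, ∑ q, W [q, p] * (φ p [y] * φ q [z, x])) := by
    simp only [← Finset.sum_add_distrib]
    refine Finset.sum_congr rfl (fun p _ => ?_)
    refine Finset.sum_congr rfl (fun q _ => ?_)
    rw [C01_cyc2]
    ring
  rw [t3, t2]
  ring
end Cea
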