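import Pool.Agent.Lib.MP_cea156_al.Defs
/-! C02: the linear part of an isomorphism is block diagonal with invertible blocks. -/
namespace Cea
variable {V : Type} [DecidableEq V]
/-- arrows from `i` to `j` -/
abbrev Quiv.Ar (Q : Quiv V) (i j : V) : Type := {x : Q.A // Q.s x = i ∧ Q.t x = j}
/-- block of the linear part -/
def blk (Q Q' : Quiv V) (φ : Q.A → List Q'.A → ℂ) (i j : V) : Matrix (Q.Ar i j) (Q'.Ar i j) ℂ :=
  Matrix.of fun a b => φ a.1 [b.1]

theorem lin_zero {Q Q' : Quiv V} {φ : Q.A → List Q'.A → ℂ} (h : IsIso Q Q' φ) (a : Q.A) (b : Q'.A)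
    (hne : ¬(Q.s a = Q'.s b ∧ Q.t a = Q'.t b)) : φ a [b] = 0 := by
  by_contra h0
  obtain ⟨-, h1, h2⟩ := h.1 a [b] h0
  exact hne ⟨h1.symm, h2.symm⟩

private theorem C02_sum {A : Type} [Fintype A] (P : A → Prop) [DecidablePred P] (f : A → ℂ)
    (hf : ∀ a, ¬P a → f a = 0) : ∑ a : {a : A // P a}, f a.1 = ∑ a, f a := by
  rw [← Finset.sum_subtype (Finset.univ.filter P) (by simp) f]
  refine Finset.sum_subset (Finset.filter_subset _ _) fun a _ ha => hf a fun hP => ha ?_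
  exact Finset.mem_filter.2 ⟨Finset.mem_univ a, hP⟩

theorem blk_inv {Q Q' : Quiv V} {φ : Q.A → List Q'.A → ℂ} (h : IsIso Q Q' φ) (i j : V) :
    ∃ N : Matrix (Q'.Ar i j) (Q.Ar i j) ℂ, blk Q Q' φ i j * N = 1 ∧ N * blk Q Q' φ i j = 1 := by
  obtain ⟨N, h1, h2⟩ := h.2
  refine ⟨Matrix.of fun (b : Q'.Ar i j) (a : Q.Ar i j) => N b.1 a.1, ?_, ?_⟩
  · ext a a'
    have e1 : (blk Q Q' φ i j * Matrix.of fun (b : Q'.Ar i j) (a : Q.Ar i j) => N b.1 a.1) a a' =
        ∑ b : {b : Q'.A // Q'.s b = i ∧ Q'.t b = j}, φ a.1 [b.1] * N b.1 a'.1 := rfl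
    have e2 := C02_sum (fun b : Q'.A => Q'.s b = i ∧ Q'.t b = j) (fun b => φ a.1 [b] * N b a'.1)
      (fun b hb => by
        rw [lin_zero h a.1 b fun hab => hb ⟨hab.1.symm.trans a.2.1, hab.2.symm.trans a.2.2⟩, zero_mul])
    have e3 := congrFun (congrFun h1 a.1) a'.1
    rw [Matrix.mul_apply] at e3
    rw [e1, e2]
    refine e3.trans ?_
    rw [Matrix.one_apply, Matrix.one_apply]
    simp only [Subtype.ext_iff]
  · ext b b'
    have e1 : ((Matrix.of fun (b : Q'.Ar i j) (a : Q.Ar i j) => N b.1 a.1) * blk Q Q' φ i j) b b' =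
        ∑ a : {a : Q.A // Q.s a = i ∧ Q.t a = j}, N b.1 a.1 * φ a.1 [b'.1] := rfl
    have e2 := C02_sum (fun a : Q.A => Q.s a = i ∧ Q.t a = j) (fun a => N b.1 a * φ a [b'.1])
      (fun a ha => by
        rw [lin_zero h a b'.1 fun hab => ha ⟨hab.1.trans b'.2.1, hab.2.trans b'.2.2⟩, mul_zero])
    have e3 := congrFun (congrFun h2 b.1) b'.1
    rw [Matrix.mul_apply] at e3
    rw [e1, e2]
    refine e3.trans ?_
    rw [Matrix.one_apply, Matrix.one_apply]
    simp only [Subtype.ext_iff]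

theorem blk_card {Q Q' : Quiv V} {φ : Q.A → List Q'.A → ℂ} (h : IsIso Q Q' φ) (i j : V) :
    Fintype.card (Q.Ar i j) = Fintype.card (Q'.Ar i j) := by
  obtain ⟨N, h1, h2⟩ := blk_inv h i j
  exact Matrix.square_of_invertible _ _ h1 h2

/-- no column of the linear part is zero -/
theorem lin_col {Q Q' : Quiv V} {φ : Q.A → List Q'.A → ℂ} (h : IsIso Q Q' φ) (b : Q'.A) : ∃ a, φ a [b] ≠ 0 := by
  by_contra hcon
  push Not at hcon
  obtain ⟨N, -, h2⟩ := h.2
  have e3 := congrFun (congrFun h2 b) b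
  rw [Matrix.mul_apply, Matrix.one_apply_eq] at e3
  have e4 : ∑ j, N b j * (Matrix.of fun a b => φ a [b]) j b = 0 := by
    refine Finset.sum_eq_zero fun a _ => ?_
    rw [Matrix.of_apply, hcon a, mul_zero]
  rw [e4] at e3
  exact zero_ne_one e3

end Cea
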