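import Pool.Agent.Lib.MP_cea156_al.TDefs
import Pool.Agent.Lib.MP_cea156_al.C01
import Pool.Agent.Lib.MP_cea156_al.C02
/-! C03: right equivalent potentials on a cyclic triangle have `GLeq` cubic parts. There are no 2-cycles, so `cyc W [p, q] = 0`
and `cyc_subst_three` gives `ten W' i j k = ∑ φ p [x] φ q [y] φ r [z] cyc W [p, q, r]`, `p : u → v` etc. by `lin_zero`. -/
namespace Cea
variable {V : Type} [DecidableEq V]

private theorem C03_sum {A : Type} [Fintype A] {n : ℕ} {P : A → Prop} (e : Fin n ≃ {x : A // P x}) (f : A → ℂ)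
    (hf : ∀ a, ¬P a → f a = 0) : ∑ a, f a = ∑ i, f (e i).1 := by
  classical
  rw [Equiv.sum_comp e fun x : {x : A // P x} => f x.1,
    ← Finset.sum_subtype (Finset.univ.filter P) (by simp) f]
  refine (Finset.sum_subset (Finset.filter_subset _ _) fun a _ ha => hf a fun hP => ha ?_).symm
  exact Finset.mem_filter.2 ⟨Finset.mem_univ a, hP⟩

private theorem C03_det {Q : Quiv V} {φ : Q.A → List Q.A → ℂ} (h : IsIso Q Q φ) (i j : V) {n : ℕ}
    (e : Fin n ≃ {x : Q.A // Q.s x = i ∧ Q.t x = j}) :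
    IsUnit (Matrix.of fun x y : Fin n => φ (e y).1 [(e x).1]).det := by
  obtain ⟨N, h1, -⟩ := blk_inv h i j
  have h2 : (Matrix.of fun x y : Fin n => φ (e y).1 [(e x).1]) =
      ((blk Q Q φ i j).submatrix e e).transpose := by
    ext x y
    rfl
  rw [h2, Matrix.det_transpose, Matrix.det_submatrix_equiv_self]
  exact Matrix.isUnit_det_of_right_inverse h1

theorem ten_REq {Q : Quiv V} {u v w : V} {a b c : ℕ} (τ : Tri Q u v w a b c) {W W' : List Q.A → ℂ} (hW : IsPot Q W)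
    (hW' : IsPot Q W') (h : REq Q Q W W') : GLeq (τ.ten W) (τ.ten W') := by
  obtain ⟨φ, hφ, hc⟩ := h
  have huv := τ.huv
  have hvw := τ.hvw
  have hwu := τ.hwu
  have h0 : ∀ a, φ a [] = 0 := by
    intro a
    by_contra h1
    exact (hφ.1 a [] h1).1 rfl
  have hW0 : W [] = 0 := by
    by_contra h1
    exact (hW [] h1).1 rfl
  have hW1 : ∀ a, W [a] = 0 := by
    intro a
    by_contra h1
    obtain ⟨-, i, h2, h3⟩ := hW [a] h1
    have h4 : Q.t a = i := h3
    rcases τ.all a with h5 | h5 | h5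
    · exact huv (h5.1.symm.trans (h2.trans (h4.symm.trans h5.2)))
    · exact hvw (h5.1.symm.trans (h2.trans (h4.symm.trans h5.2)))
    · exact hwu (h5.1.symm.trans (h2.trans (h4.symm.trans h5.2)))
  have hW2 : ∀ p q, W [p, q] = 0 := by
    intro p q
    by_contra h1
    obtain ⟨-, i, h2, h3, h4⟩ := hW [p, q] h1
    have h4' : Q.t q = i := h4
    have h5 : Q.t q = Q.s p := h4'.trans h2.symm
    rcases τ.all p with h6 | h6 | h6 <;> rcases τ.all q with h7 | h7 | h7
    · exact huv (h7.1.symm.trans (h3.trans h6.2))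
    · exact hwu (h7.2.symm.trans (h5.trans h6.1))
    · exact hvw ((h7.1.symm.trans (h3.trans h6.2)).symm)
    · exact hwu ((h7.1.symm.trans (h3.trans h6.2)).symm)
    · exact hvw (h7.1.symm.trans (h3.trans h6.2))
    · exact huv (h7.2.symm.trans (h5.trans h6.1))
    · exact hvw (h7.2.symm.trans (h5.trans h6.1))
    · exact huv ((h7.1.symm.trans (h3.trans h6.2)).symm)
    · exact hwu (h7.1.symm.trans (h3.trans h6.2))
  have hcyc2 : ∀ p q, cyc W [p, q] = 0 := by
    intro p q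
    unfold cyc
    refine Finset.sum_eq_zero fun k hk => ?_
    have hk2 : k < 2 := Finset.mem_range.1 hk
    interval_cases k
    · exact hW2 p q
    · exact hW2 q p
  refine ⟨Matrix.of fun x y => φ (τ.ea y).1 [(τ.ea x).1], Matrix.of fun x y => φ (τ.eb y).1 [(τ.eb x).1],
    Matrix.of fun x y => φ (τ.ec y).1 [(τ.ec x).1], C03_det hφ u v τ.ea, C03_det hφ v w τ.eb, C03_det hφ w u τ.ec, ?_⟩
  intro i j k
  have key : τ.ten W' i j k = ∑ p, ∑ q, ∑ r, φ p [(τ.ea i).1] * φ q [(τ.eb j).1] * φ r [(τ.ec k).1] *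
      cyc W [p, q, r] := by
    unfold Tri.ten
    rw [← hc, cyc_subst_three φ h0 W hW0 hW1]
    have h8 : ∑ p, ∑ q, cyc W [p, q] * (φ p [(τ.ea i).1] * φ q [(τ.eb j).1, (τ.ec k).1] +
        φ p [(τ.eb j).1] * φ q [(τ.ec k).1, (τ.ea i).1] + φ p [(τ.ec k).1] * φ q [(τ.ea i).1, (τ.eb j).1]) = 0 :=
      Finset.sum_eq_zero fun p _ => Finset.sum_eq_zero fun q _ => by rw [hcyc2, zero_mul]
    rw [h8, add_zero]
  have hz : ∀ (x y : V) (p e : Q.A), ¬(Q.s p = x ∧ Q.t p = y) → (Q.s e = x ∧ Q.t e = y) → φ p [e] = 0 := by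
    intro x y p e hp he
    refine lin_zero hφ p e fun h9 => hp ⟨h9.1.trans he.1, h9.2.trans he.2⟩
  rw [key, C03_sum τ.ea _ (fun p hp => ?_)]
  · refine Finset.sum_congr rfl fun i' _ => ?_
    rw [C03_sum τ.eb _ (fun q hq => ?_)]
    · refine Finset.sum_congr rfl fun j' _ => ?_
      rw [C03_sum τ.ec _ (fun r hr => ?_)]
      · rfl
      · rw [hz w u r _ hr (τ.ec k).2, mul_zero, zero_mul]
    · refine Finset.sum_eq_zero fun r _ => ?_
      rw [hz v w q _ hq (τ.eb j).2, mul_zero, zero_mul, zero_mul]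
  · refine Finset.sum_eq_zero fun q _ => Finset.sum_eq_zero fun r _ => ?_
    rw [hz u v p _ hp (τ.ea i).2, zero_mul, zero_mul, zero_mul]
end Cea
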