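import Pool.Agent.Lib.MP_cea156_al.TDefs
import Pool.Agent.Lib.MP_cea156_al.C01
import Pool.Agent.Lib.MP_cea156_al.C02
/-! C04: the premutation of a cyclic triangle at `v`. Its arrows: composites `[a_i b_j] : u → w`, old arrows `c_k : w → u`, reversed
arrows `b_j* : w → v`, `a_i* : v → u`; and the cyclic sums of its potential in degrees 1, 2, 3. -/
namespace Cea
variable {V : Type} [DecidableEq V] {Q : Quiv V} {u v w : V} {a b c : ℕ}

/-- composite arrow -/
def Tri.comp (τ : Tri Q u v w a b c) (i : Fin a) (j : Fin b) : (Q.pre v).A :=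
  Sum.inr (Sum.inl (⟨(τ.ea i).1, (τ.ea i).2.2⟩, ⟨(τ.eb j).1, (τ.eb j).2.1⟩))
/-- old arrow -/
def Tri.old (τ : Tri Q u v w a b c) (k : Fin c) : (Q.pre v).A :=
  Sum.inl ⟨(τ.ec k).1, by rw [(τ.ec k).2.1]; exact τ.hvw.symm, by rw [(τ.ec k).2.2]; exact τ.huv⟩
/-- reversed arrow `b_j*` -/
def Tri.sb (τ : Tri Q u v w a b c) (j : Fin b) : (Q.pre v).A := Sum.inr (Sum.inr ⟨(τ.eb j).1, Or.inl (τ.eb j).2.1⟩)
/-- reversed arrow `a_i*` -/
def Tri.sa (τ : Tri Q u v w a b c) (i : Fin a) : (Q.pre v).A := Sum.inr (Sum.inr ⟨(τ.ea i).1, Or.inr (τ.ea i).2.2⟩)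

variable (τ : Tri Q u v w a b c)

theorem comp_st (i : Fin a) (j : Fin b) : (Q.pre v).s (τ.comp i j) = u ∧ (Q.pre v).t (τ.comp i j) = w :=
  ⟨(τ.ea i).2.1, (τ.eb j).2.2⟩
theorem old_st (k : Fin c) : (Q.pre v).s (τ.old k) = w ∧ (Q.pre v).t (τ.old k) = u :=
  ⟨(τ.ec k).2.1, (τ.ec k).2.2⟩
theorem sb_st (j : Fin b) : (Q.pre v).s (τ.sb j) = w ∧ (Q.pre v).t (τ.sb j) = v :=
  ⟨(τ.eb j).2.2, (τ.eb j).2.1⟩
theorem sa_st (i : Fin a) : (Q.pre v).s (τ.sa i) = v ∧ (Q.pre v).t (τ.sa i) = u :=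
  ⟨(τ.ea i).2.2, (τ.ea i).2.1⟩
theorem comp_inj {i i' : Fin a} {j j' : Fin b} (h : τ.comp i j = τ.comp i' j') : i = i' ∧ j = j' := by
  unfold Tri.comp at h
  have h1 := Sum.inl.inj (Sum.inr.inj h)
  have h2 := congrArg (fun z => z.1.1) h1
  have h3 := congrArg (fun z => z.2.1) h1
  exact ⟨τ.ea.injective (Subtype.ext h2), τ.eb.injective (Subtype.ext h3)⟩
theorem old_inj {k k' : Fin c} (h : τ.old k = τ.old k') : k = k' := by
  unfold Tri.old at h
  have h1 := Sum.inl.inj h
  have h2 := congrArg (fun z => z.1) h1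
  exact τ.ec.injective (Subtype.ext h2)
theorem sb_inj {j j' : Fin b} (h : τ.sb j = τ.sb j') : j = j' := by
  unfold Tri.sb at h
  have h1 := Sum.inr.inj (Sum.inr.inj h)
  have h2 := congrArg (fun z => z.1) h1
  exact τ.eb.injective (Subtype.ext h2)
theorem sa_inj {i i' : Fin a} (h : τ.sa i = τ.sa i') : i = i' := by
  unfold Tri.sa at h
  have h1 := Sum.inr.inj (Sum.inr.inj h)
  have h2 := congrArg (fun z => z.1) h1
  exact τ.ea.injective (Subtype.ext h2)
theorem pre_cases (x : (Q.pre v).A) : (∃ i j, x = τ.comp i j) ∨ (∃ k, x = τ.old k) ∨ (∃ j, x = τ.sb j) ∨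
    ∃ i, x = τ.sa i := by
  have a1 := τ.huv
  have a2 := τ.hvw
  have a3 := τ.hwu
  rcases x with ⟨x, hx⟩ | ⟨⟨x, hx⟩, ⟨y, hy⟩⟩ | ⟨x, hx⟩
  · right; left
    have h1 : Q.s x = w ∧ Q.t x = u := by
      rcases τ.all x with h | h | h
      · exact absurd h.2 hx.2
      · exact absurd h.1 hx.1
      · exact h
    refine ⟨τ.ec.symm ⟨x, h1⟩, ?_⟩
    unfold Tri.old
    congr 1
    apply Subtype.ext
    simp
  · left
    have h1 : Q.s x = u ∧ Q.t x = v := by
      rcases τ.all x with h | h | h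
      · exact h
      · exact absurd (hx.symm.trans h.2) a2
      · exact absurd (h.2.symm.trans hx) a1
    have h2 : Q.s y = v ∧ Q.t y = w := by
      rcases τ.all y with h | h | h
      · exact absurd (h.1.symm.trans hy) a1
      · exact h
      · exact absurd (hy.symm.trans h.1) a2
    refine ⟨τ.ea.symm ⟨x, h1⟩, τ.eb.symm ⟨y, h2⟩, ?_⟩
    unfold Tri.comp
    congr 2
    apply Prod.ext
    · apply Subtype.ext
      simp
    · apply Subtype.ext
      simp
  · right; right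
    rcases τ.all x with h | h | h
    · right
      refine ⟨τ.ea.symm ⟨x, h⟩, ?_⟩
      unfold Tri.sa
      congr 2
      apply Subtype.ext
      simp
    · left
      refine ⟨τ.eb.symm ⟨x, h⟩, ?_⟩
      unfold Tri.sb
      congr 2
      apply Subtype.ext
      simp
    · exfalso
      rcases hx with hx | hx
      · exact a2 (hx.symm.trans h.1)
      · exact a1 (h.2.symm.trans hx)
/-- the arrows of the premutation -/
private theorem pre_bij : Function.Bijective
    (Sum.elim (fun p : Fin a × Fin b => τ.comp p.1 p.2) (Sum.elim τ.old (Sum.elim τ.sb τ.sa))) := by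
  have a1 := τ.huv
  have a2 := τ.hvw
  have a3 := τ.hwu
  constructor
  · have key : ∀ x y : (Q.pre v).A, x = y → (Q.pre v).s x = (Q.pre v).s y ∧ (Q.pre v).t x = (Q.pre v).t y := by
      rintro x y rfl
      exact ⟨rfl, rfl⟩
    rintro (p | k | j | i) (p' | k' | j' | i') h
    · have := comp_inj τ h
      exact congrArg Sum.inl (Prod.ext this.1 this.2)
    all_goals first
      | (exact congrArg _ (congrArg _ (old_inj τ h)))
      | skip
    all_goals
      simp only [Sum.elim_inl, Sum.elim_inr] at h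
      have hk := key _ _ h
      simp only [(comp_st τ _ _).1, (comp_st τ _ _).2, (old_st τ _).1, (old_st τ _).2, (sb_st τ _).1,
        (sb_st τ _).2, (sa_st τ _).1, (sa_st τ _).2] at hk
      first
        | exact absurd hk.1 a3
        | exact absurd hk.1 a3.symm
        | exact absurd hk.1 a1
        | exact absurd hk.1 a1.symm
        | exact absurd hk.1 a2
        | exact absurd hk.1 a2.symm
        | exact absurd hk.2 a1
        | exact absurd hk.2 a1.symm
        | exact absurd hk.2 a2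
        | exact absurd hk.2 a2.symm
        | exact absurd hk.2 a3
        | exact absurd hk.2 a3.symm
        | rw [sb_inj τ h]
        | rw [sa_inj τ h]
  · intro x
    rcases pre_cases τ x with ⟨i, j, h⟩ | ⟨k, h⟩ | ⟨j, h⟩ | ⟨i, h⟩
    · exact ⟨Sum.inl (i, j), h.symm⟩
    · exact ⟨Sum.inr (Sum.inl k), h.symm⟩
    · exact ⟨Sum.inr (Sum.inr (Sum.inl j)), h.symm⟩
    · exact ⟨Sum.inr (Sum.inr (Sum.inr i)), h.symm⟩
/-- sums over the arrows of the premutation -/
theorem pre_sum (F : (Q.pre v).A → ℂ) : ∑ x, F x =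
    ∑ i, ∑ j, F (τ.comp i j) + ∑ k, F (τ.old k) + ∑ j, F (τ.sb j) + ∑ i, F (τ.sa i) := by
  rw [← (pre_bij τ).sum_comp F, Fintype.sum_sum_type, Fintype.sum_sum_type, Fintype.sum_sum_type,
    Fintype.sum_prod_type]
  simp only [Sum.elim_inl, Sum.elim_inr]
  ring
end Cea
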