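import Pool.Agent.Lib.MP_cea156_al.C04
/-! C05: cyclic sums of the potential of the premutation. `W₁` is supported on closed words which do not start at `v` and has the
same `cyc` as `W`. -/
namespace Cea
variable {V : Type} [DecidableEq V] {Q : Quiv V} {u v w : V} {a b c : ℕ} (τ : Tri Q u v w a b c)
  {W W₁ : List Q.A → ℂ}

private theorem delta_ne {l : List (Q.pre v).A} (h : l.length ≠ 3) : Q.delta v l = 0 := by
  unfold Quiv.delta
  rw [if_neg]
  rintro ⟨a, b, rfl⟩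
  exact h rfl

private theorem delta_star {x : {a : Q.A // Q.s a = v ∨ Q.t a = v}} {l : List (Q.pre v).A} :
    Q.delta v (Sum.inr (Sum.inr x) :: l) = 0 := by
  unfold Quiv.delta
  rw [if_neg]
  rintro ⟨a, b, h⟩
  have := Sum.inr.inj (List.cons.inj h).1
  exact absurd this (by simp)

omit [DecidableEq V] in
private theorem isCycle_two {x y : Q.A} (h : Q.IsCycle [x, y]) : Q.t x = Q.s y ∧ Q.t y = Q.s x := by
  obtain ⟨-, i, h⟩ := h
  simp only [Quiv.IsPath] at h
  exact ⟨h.2.1.symm, h.2.2.trans h.1.symm⟩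

private theorem brk_none {l : List (Q.pre v).A} (h : Q.expand v l = none) : Q.bracket v W₁ l = 0 := by
  unfold Quiv.bracket
  rw [h]

private theorem brk_some {l : List (Q.pre v).A} {l' : List Q.A} (h : Q.expand v l = some l') :
    Q.bracket v W₁ l = W₁ l' := by
  unfold Quiv.bracket
  rw [h]

omit [DecidableEq V] in
private theorem pot_zero (h1 : IsPot Q W₁) {l : List Q.A} (h : ¬ Q.IsCycle l) : W₁ l = 0 := by
  by_contra hc
  exact h (h1 l hc)

theorem pre_nil (h1 : IsPot Q W₁) : Q.bracket v W₁ [] + Q.delta v [] = 0 := by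
  rw [delta_ne (by simp), add_zero, brk_some (l' := []) rfl]
  exact pot_zero h1 fun h => h.1 rfl

private theorem expand_comp (i : Fin a) (j : Fin b) (l : List (Q.pre v).A) :
    Q.expand v (τ.comp i j :: l) = (Q.expand v l).map fun l => (τ.ea i).1 :: (τ.eb j).1 :: l := rfl

private theorem expand_old (k : Fin c) (l : List (Q.pre v).A) :
    Q.expand v (τ.old k :: l) = (Q.expand v l).map fun l => (τ.ec k).1 :: l := rfl

private theorem expand_sb (j : Fin b) (l : List (Q.pre v).A) : Q.expand v (τ.sb j :: l) = none := rfl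

private theorem expand_sa (i : Fin a) (l : List (Q.pre v).A) : Q.expand v (τ.sa i :: l) = none := rfl

include τ in
theorem pre_one (h1 : IsPot Q W₁) (x : (Q.pre v).A) : Q.bracket v W₁ [x] + Q.delta v [x] = 0 := by
  have a1 := τ.huv
  have a2 := τ.hvw
  have a3 := τ.hwu
  rw [delta_ne (by simp), add_zero]
  rcases pre_cases τ x with ⟨i, j, rfl⟩ | ⟨k, rfl⟩ | ⟨j, rfl⟩ | ⟨i, rfl⟩
  · rw [brk_some (expand_comp τ i j [])]
    refine pot_zero h1 fun h => ?_
    have := (isCycle_two h).2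
    rw [(τ.ea i).2.1, (τ.eb j).2.2] at this
    exact a3 this
  · rw [brk_some (expand_old τ k [])]
    refine pot_zero h1 fun h => ?_
    obtain ⟨-, z, h⟩ := h
    simp only [Quiv.IsPath] at h
    rw [(τ.ec k).2.1, (τ.ec k).2.2] at h
    exact a3 (h.1.trans h.2.symm)
  · exact brk_none (expand_sb τ j [])
  · exact brk_none (expand_sa τ i [])

private theorem cyc_two {A : Type} (f : List A → ℂ) (x y : A) : cyc f [x, y] = f [x, y] + f [y, x] := by
  simp [cyc, Finset.sum_range_succ, List.rotate]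

private theorem cyc_three {A : Type} (f : List A → ℂ) (x y z : A) :
    cyc f [x, y, z] = f [x, y, z] + f [y, z, x] + f [z, x, y] := by
  simp [cyc, Finset.sum_range_succ, List.rotate]

private theorem pre_val (h3 : ∀ x l, Q.s x = v → W₁ (x :: l) = 0) (h2 : ∀ l, cyc W₁ l = cyc W l)
    (i : Fin a) (j : Fin b) (k : Fin c) :
    W₁ [(τ.ea i).1, (τ.eb j).1, (τ.ec k).1] + W₁ [(τ.ec k).1, (τ.ea i).1, (τ.eb j).1] = τ.ten W i j k := by
  unfold Tri.ten
  rw [← h2, cyc_three, h3 (τ.eb j).1 _ (τ.eb j).2.1, add_zero]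

theorem pre_co (h1 : IsPot Q W₁) (h2 : ∀ l, cyc W₁ l = cyc W l) (h3 : ∀ x l, Q.s x = v → W₁ (x :: l) = 0)
    (i : Fin a) (j : Fin b) (k : Fin c) :
    cyc (fun l => Q.bracket v W₁ l + Q.delta v l) [τ.comp i j, τ.old k] = τ.ten W i j k := by
  rw [cyc_two, delta_ne (by simp), delta_ne (by simp), add_zero, add_zero, ← pre_val τ h3 h2 i j k]
  congr 1
theorem pre_oc (h1 : IsPot Q W₁) (h2 : ∀ l, cyc W₁ l = cyc W l) (h3 : ∀ x l, Q.s x = v → W₁ (x :: l) = 0)
    (i : Fin a) (j : Fin b) (k : Fin c) :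
    cyc (fun l => Q.bracket v W₁ l + Q.delta v l) [τ.old k, τ.comp i j] = τ.ten W i j k := by
  rw [cyc_two, add_comm, ← cyc_two (fun l => Q.bracket v W₁ l + Q.delta v l)]
  exact pre_co τ h1 h2 h3 i j k
include τ in
/-- all other words of length 2 -/
theorem pre_two (h1 : IsPot Q W₁) (x y : (Q.pre v).A)
    (h : ¬(((Q.pre v).s x = u ∧ (Q.pre v).t x = w ∧ (Q.pre v).s y = w ∧ (Q.pre v).t y = u) ∨
      ((Q.pre v).s x = w ∧ (Q.pre v).t x = u ∧ (Q.pre v).s y = u ∧ (Q.pre v).t y = w))) :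
    cyc (fun l => Q.bracket v W₁ l + Q.delta v l) [x, y] = 0 := by
  have a1 := τ.huv
  have a2 := τ.hvw
  have a3 := τ.hwu
  have key : ∀ x y : (Q.pre v).A, ¬(((Q.pre v).s x = u ∧ (Q.pre v).t x = w ∧ (Q.pre v).s y = w ∧
      (Q.pre v).t y = u) ∨ ((Q.pre v).s x = w ∧ (Q.pre v).t x = u ∧ (Q.pre v).s y = u ∧ (Q.pre v).t y = w)) →
      Q.bracket v W₁ [x, y] = 0 := by
    intro x y h
    rcases pre_cases τ x with ⟨i, j, rfl⟩ | ⟨k, rfl⟩ | ⟨j, rfl⟩ | ⟨i, rfl⟩
    · rcases pre_cases τ y with ⟨i', j', rfl⟩ | ⟨k', rfl⟩ | ⟨j', rfl⟩ | ⟨i', rfl⟩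
      · rw [brk_some (l' := [(τ.ea i).1, (τ.eb j).1, (τ.ea i').1, (τ.eb j').1]) rfl]
        refine pot_zero h1 fun h => ?_
        obtain ⟨-, z, h⟩ := h
        simp only [Quiv.IsPath] at h
        rw [(τ.eb j).2.2, (τ.ea i').2.1] at h
        exact a3 h.2.2.1.symm
      · exact absurd (Or.inl ⟨(comp_st τ i j).1, (comp_st τ i j).2, (old_st τ k').1, (old_st τ k').2⟩) h
      · exact brk_none (by rw [expand_comp, expand_sb]; rfl)
      · exact brk_none (by rw [expand_comp, expand_sa]; rfl)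
    · rcases pre_cases τ y with ⟨i', j', rfl⟩ | ⟨k', rfl⟩ | ⟨j', rfl⟩ | ⟨i', rfl⟩
      · exact absurd (Or.inr ⟨(old_st τ k).1, (old_st τ k).2, (comp_st τ i' j').1, (comp_st τ i' j').2⟩) h
      · rw [brk_some (l' := [(τ.ec k).1, (τ.ec k').1]) rfl]
        refine pot_zero h1 fun h => ?_
        have := (isCycle_two h).1
        rw [(τ.ec k).2.2, (τ.ec k').2.1] at this
        exact a3 this.symm
      · exact brk_none (by rw [expand_old, expand_sb]; rfl)
      · exact brk_none (by rw [expand_old, expand_sa]; rfl)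
    · exact brk_none (expand_sb τ j _)
    · exact brk_none (expand_sa τ i _)
  rw [cyc_two, delta_ne (by simp), delta_ne (by simp), add_zero, add_zero, key x y h, key y x ?_, add_zero]
  rintro (⟨g1, g2, g3, g4⟩ | ⟨g1, g2, g3, g4⟩)
  · exact h (Or.inr ⟨g3, g4, g1, g2⟩)
  · exact h (Or.inl ⟨g3, g4, g1, g2⟩)
theorem pre_three (h1 : IsPot Q W₁) (i i' : Fin a) (j j' : Fin b) :
    cyc (fun l => Q.bracket v W₁ l + Q.delta v l) [τ.comp i j, τ.sb j', τ.sa i'] =
      if i = i' ∧ j = j' then 1 else 0 := by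
  have e1 : Q.bracket v W₁ [τ.comp i j, τ.sb j', τ.sa i'] = 0 :=
    brk_none (by rw [expand_comp, expand_sb]; rfl)
  have e2 : Q.bracket v W₁ [τ.sb j', τ.sa i', τ.comp i j] = 0 := brk_none (expand_sb τ j' _)
  have e3 : Q.bracket v W₁ [τ.sa i', τ.comp i j, τ.sb j'] = 0 := brk_none (expand_sa τ i' _)
  have e4 : Q.delta v [τ.sb j', τ.sa i', τ.comp i j] = 0 := delta_star
  have e5 : Q.delta v [τ.sa i', τ.comp i j, τ.sb j'] = 0 := delta_star
  rw [cyc_three, e1, e2, e3, e4, e5]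
  simp only [zero_add, add_zero]
  unfold Quiv.delta
  by_cases hij : i = i' ∧ j = j'
  · obtain ⟨rfl, rfl⟩ := hij
    rw [if_pos, if_pos ⟨rfl, rfl⟩]
    exact ⟨⟨(τ.ea i).1, (τ.ea i).2.2⟩, ⟨(τ.eb j).1, (τ.eb j).2.1⟩, rfl⟩
  · rw [if_neg, if_neg hij]
    rintro ⟨⟨x, hx⟩, ⟨y, hy⟩, h⟩
    obtain ⟨h4, h5⟩ := List.cons.inj h
    obtain ⟨h6, h7⟩ := List.cons.inj h5
    have h8 := (List.cons.inj h7).1
    have g1 := Sum.inl.inj (Sum.inr.inj h4)
    have g2 := congrArg (fun z => z.1) (Sum.inr.inj (Sum.inr.inj h6))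
    have g3 := congrArg (fun z => z.1) (Sum.inr.inj (Sum.inr.inj h8))
    have g4 := congrArg (fun z => z.1.1) g1
    have g5 := congrArg (fun z => z.2.1) g1
    simp only at g2 g3 g4 g5
    refine hij ⟨τ.ea.injective (Subtype.ext (g4.trans g3.symm)), τ.eb.injective (Subtype.ext (g5.trans g2.symm))⟩
end Cea
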