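import Pool.Agent.Lib.MP_cea156_al.TDefs
import Pool.Agent.Lib.MP_cea156_al.C02
/-! C06: the potential `W' + ∑ x_i y_i` on `Q'.plus p q` in degrees 2 and 3, for `W'` without terms of length `≤ 2`. -/
namespace Cea
variable {V : Type} [DecidableEq V] {Q : Quiv V} {m : ℕ} {p q : Fin m → V} {W : List Q.A → ℂ}

section
variable {A : Type} {n : ℕ}

open Classical in
/-- `Quiv.plusW` on the bare type of arrows -/
private noncomputable def C06_pl (F : List A → ℂ) (w : List (A ⊕ (Fin n ⊕ Fin n))) : ℂ :=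
  (if ∃ l : List A, w = l.map Sum.inl then F (w.filterMap Sum.getLeft?) else 0) +
    if ∃ i : Fin n, w = [Sum.inr (Sum.inl i), Sum.inr (Sum.inr i)] then 1 else 0

private theorem C06_filterMap {β : Type} (l : List A) :
    (l.map (Sum.inl : A → A ⊕ β)).filterMap Sum.getLeft? = l := by
  induction l with
  | nil => rfl
  | cons a l ih => simp [ih]

private theorem C06_inl (F : List A → ℂ) (l : List A) :
    C06_pl (n := n) F (l.map Sum.inl) = F l := by
  unfold C06_pl
  have h1 : ∃ l' : List A, l.map (Sum.inl : A → A ⊕ (Fin n ⊕ Fin n)) = l'.map Sum.inl :=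
    ⟨l, rfl⟩
  have h2 : ¬ ∃ i : Fin n, l.map (Sum.inl : A → A ⊕ (Fin n ⊕ Fin n)) =
      [Sum.inr (Sum.inl i), Sum.inr (Sum.inr i)] := by
    rintro ⟨i, hi⟩
    cases l with
    | nil => simp at hi
    | cons a l => simp at hi
  rw [if_pos h1, if_neg h2, add_zero, C06_filterMap]

private theorem C06_cyc_inl (F : List A → ℂ) (l : List A) :
    cyc (C06_pl (n := n) F) (l.map Sum.inl) = cyc F l := by
  unfold cyc
  rw [List.length_map]
  refine Finset.sum_congr rfl fun k _ => ?_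
  rw [← List.map_rotate]
  exact C06_inl _ _

/-- no word of length two with an arrow of `Q` -/
private theorem C06_two (F : List A → ℂ) (h : ∀ l, F l ≠ 0 → 3 ≤ l.length) (a b : A ⊕ (Fin n ⊕ Fin n))
    (hn : ¬ ∃ i : Fin n, [a, b] = [Sum.inr (Sum.inl i), Sum.inr (Sum.inr i)]) :
    C06_pl F [a, b] = 0 := by
  unfold C06_pl
  rw [if_neg hn, add_zero]
  split_ifs with h1
  · by_contra hne
    obtain ⟨l, hl⟩ := h1
    have h2 := h _ hne
    rw [hl, C06_filterMap] at h2
    have h4 := congrArg List.length hl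
    rw [List.length_map] at h4
    simp only [List.length_cons, List.length_nil] at h4
    omega
  · rfl

private theorem C06_cyc_two (F : List A → ℂ) (a b : A) : cyc F [a, b] = F [a, b] + F [b, a] := by
  unfold cyc
  show ∑ k ∈ Finset.range 2, _ = _
  rw [Finset.sum_range_succ, Finset.sum_range_succ, Finset.sum_range_zero, zero_add]
  rfl

private theorem C06_left (F : List A → ℂ) (h : ∀ l, F l ≠ 0 → 3 ≤ l.length) (x : A)
    (y : A ⊕ (Fin n ⊕ Fin n)) : cyc (C06_pl F) [Sum.inl x, y] = 0 := by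
  rw [C06_cyc_two, C06_two F h, C06_two F h, add_zero]
  · rintro ⟨i, hi⟩
    simp at hi
  · rintro ⟨i, hi⟩
    simp at hi

private theorem C06_pair (F : List A → ℂ) (h : ∀ l, F l ≠ 0 → 3 ≤ l.length) (i : Fin n) :
    cyc (C06_pl F) [Sum.inr (Sum.inl i), Sum.inr (Sum.inr i)] = 1 := by
  rw [C06_cyc_two]
  have h1 : C06_pl F [Sum.inr (Sum.inr i), Sum.inr (Sum.inl i)] = 0 := by
    refine C06_two F h _ _ ?_
    rintro ⟨j, hj⟩
    simp at hj
  have h2 : C06_pl F [Sum.inr (Sum.inl i), Sum.inr (Sum.inr i)] = 1 := by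
    unfold C06_pl
    have h3 : ¬ ∃ l : List A, [(Sum.inr (Sum.inl i) : A ⊕ (Fin n ⊕ Fin n)), Sum.inr (Sum.inr i)] =
        l.map Sum.inl := by
      rintro ⟨l, hl⟩
      cases l with
      | nil => simp at hl
      | cons a l => simp at hl
    have h4 : ∃ j : Fin n, [(Sum.inr (Sum.inl i) : A ⊕ (Fin n ⊕ Fin n)), Sum.inr (Sum.inr i)] =
        [Sum.inr (Sum.inl j), Sum.inr (Sum.inr j)] := ⟨i, rfl⟩
    rw [if_neg h3, if_pos h4, zero_add]
  rw [h1, h2, add_zero]

end

private theorem C06_eq : Q.plusW p q W = C06_pl (n := m) W := by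
  funext w
  unfold Quiv.plusW C06_pl
  congr

theorem plusW_inl (l : List Q.A) : Q.plusW p q W (l.map Sum.inl) = W l := by
  rw [C06_eq]
  exact C06_inl W l

theorem cyc_plusW_inl (l : List Q.A) : cyc (Q.plusW p q W) (l.map Sum.inl) = cyc W l := by
  rw [C06_eq]
  exact C06_cyc_inl W l

theorem cyc_plusW_two_left (h : ∀ l, W l ≠ 0 → 3 ≤ l.length) (x : Q.A) (y : (Q.plus p q).A) :
    cyc (Q.plusW p q W) [Sum.inl x, y] = 0 := by
  rw [C06_eq]
  exact C06_left W h x y

theorem cyc_plusW_pair (h : ∀ l, W l ≠ 0 → 3 ≤ l.length) (i : Fin m) :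
    cyc (Q.plusW p q W) [Sum.inr (Sum.inl i), Sum.inr (Sum.inr i)] = 1 := by
  rw [C06_eq]
  exact C06_pair W h i
end Cea
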