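import Pool.Agent.Lib.MP_cea156_al.C05
import Pool.Agent.Lib.MP_cea156_al.C06
/-! C07: the castling lemma. `f` = potential of the premutation, `g = plusW`, `M p x = φ p [x]`.

* `cyc_subst_two` + C05: for all arrows `x`, `y` of `P'.Q.plus`: `∑ T i j k (M (comp i j) x M (old k) y + M (old k) x M (comp i j) y) = cyc g [x, y]`.
* (K1) `x` an arrow of `P'.Q` (`Sum.inl x`): `cyc g [x, y] = 0` for all `y`; as `M` is invertible, the functional `y ↦ ∑_{ij} .. M (old k) y + ..`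
  vanishes identically, so `∑_{ij} T i j k M (comp i j) x = 0` for all `k` and `∑_k T i j k M (old k) x = 0` for all `i, j`; `Inj T` gives
  `M (old k) x = 0`.
* (K2) so `P'.Q` has no arrow `w → u` (its column would be zero, `lin_col`, `lin_zero`), and each arrow of `P'.Q` is of type `u → w`, `w → v` or
  `v → u` (otherwise zero column, `pre_cases`).
* (K3) `x_i`, `y_i` are of type `u → w`, `w → u`: `cyc g [x_i, y_i] = 1 ≠ 0`. So the number of arrows `w → v` (`v → u`) of `P'.Q` is `b` (`a`), the number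
  of arrows `w → u` of the plus quiver is `m = c`, the number of arrows `u → w` of `P'.Q` is `d = ab - c`.
* (K4) `S l j i := M (comp i j) x_l` (`x_l` the arrows `u → w` of `P'.Q`): independent (columns of an invertible matrix), annihilates `T` by (K1): `Cas T S`.
* (K5) degree 3: for `x, y, z` arrows `u → w`, `w → v`, `v → u` of `P'.Q`: `cyc P'.W [x, y, z] = ∑_{ij} M (comp i j) x M (sb j) y M (sa i) z`; the terms of
  `cyc_subst_three` with `cyc f [p, q]` vanish: only `φ p [x]` with `p = comp i j`, `q = old k` has nonzero factors, and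
  `∑_{ij} T i j k M (comp i j) x = 0`. So `GLeq S (ten P'.W)` with `P = 1` and the blocks `M (sb j) y`, `M (sa i) z` (invertible by `blk_inv`). -/
namespace Cea
variable {V : Type} [DecidableEq V]

section C07
variable {P P' : QP V} {u v w : V} {a b c : ℕ} (τ : Tri P.Q u v w a b c)
  {W₁ : List P.Q.A → ℂ} {m : ℕ} {p q : Fin m → V} {φ : (P.Q.pre v).A → List (P'.Q.plus p q).A → ℂ}

theorem C07_f2_cases (h1 : IsPot P.Q W₁) (h2 : ∀ l, cyc W₁ l = cyc P.W l)
    (h3 : ∀ x l, P.Q.s x = v → W₁ (x :: l) = 0) (G : (P.Q.pre v).A → (P.Q.pre v).A → ℂ) :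
    ∑ x, ∑ y, G x y * cyc (fun l => P.Q.bracket v W₁ l + P.Q.delta v l) [x, y] =
      ∑ i, ∑ j, ∑ k, (G (τ.comp i j) (τ.old k) + G (τ.old k) (τ.comp i j)) * τ.ten P.W i j k := by
  have huv := τ.huv
  have hvw := τ.hvw
  have hwu := τ.hwu
  rw [pre_sum τ]
  have e1 : ∀ i j, ∑ y, G (τ.comp i j) y *
      cyc (fun l => P.Q.bracket v W₁ l + P.Q.delta v l) [τ.comp i j, y] =
      ∑ k, G (τ.comp i j) (τ.old k) * τ.ten P.W i j k := by
    intro i j
    rw [pre_sum τ]
    have z1 : ∀ i' j', cyc (fun l => P.Q.bracket v W₁ l + P.Q.delta v l) [τ.comp i j, τ.comp i' j'] = 0 := by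
      intro i' j'
      apply pre_two τ h1
      rw [(comp_st τ i j).1, (comp_st τ i j).2, (comp_st τ i' j').1, (comp_st τ i' j').2]
      rintro (⟨_, _, h, _⟩ | ⟨h, _⟩)
      · exact hwu h.symm
      · exact hwu h.symm
    have z2 : ∀ j', cyc (fun l => P.Q.bracket v W₁ l + P.Q.delta v l) [τ.comp i j, τ.sb j'] = 0 := by
      intro j'
      apply pre_two τ h1
      rw [(comp_st τ i j).1, (comp_st τ i j).2, (sb_st τ j').1, (sb_st τ j').2]
      rintro (⟨_, _, _, h⟩ | ⟨h, _⟩)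
      · exact huv h.symm
      · exact hwu h.symm
    have z3 : ∀ i', cyc (fun l => P.Q.bracket v W₁ l + P.Q.delta v l) [τ.comp i j, τ.sa i'] = 0 := by
      intro i'
      apply pre_two τ h1
      rw [(comp_st τ i j).1, (comp_st τ i j).2, (sa_st τ i').1, (sa_st τ i').2]
      rintro (⟨_, _, h, _⟩ | ⟨h, _⟩)
      · exact hvw h
      · exact hwu h.symm
    simp only [z1, z2, z3, mul_zero, Finset.sum_const_zero, zero_add, add_zero]
    refine Finset.sum_congr rfl fun k _ => ?_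
    rw [pre_co τ h1 h2 h3]
  have e2 : ∀ k, ∑ y, G (τ.old k) y *
      cyc (fun l => P.Q.bracket v W₁ l + P.Q.delta v l) [τ.old k, y] =
      ∑ i, ∑ j, G (τ.old k) (τ.comp i j) * τ.ten P.W i j k := by
    intro k
    rw [pre_sum τ]
    have z1 : ∀ k', cyc (fun l => P.Q.bracket v W₁ l + P.Q.delta v l) [τ.old k, τ.old k'] = 0 := by
      intro k'
      apply pre_two τ h1
      rw [(old_st τ k).1, (old_st τ k).2, (old_st τ k').1, (old_st τ k').2]
      rintro (⟨h, _⟩ | ⟨_, _, h, _⟩)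
      · exact hwu h
      · exact hwu h
    have z2 : ∀ j', cyc (fun l => P.Q.bracket v W₁ l + P.Q.delta v l) [τ.old k, τ.sb j'] = 0 := by
      intro j'
      apply pre_two τ h1
      rw [(old_st τ k).1, (old_st τ k).2, (sb_st τ j').1, (sb_st τ j').2]
      rintro (⟨h, _⟩ | ⟨_, _, h, _⟩)
      · exact hwu h
      · exact hwu h
    have z3 : ∀ i', cyc (fun l => P.Q.bracket v W₁ l + P.Q.delta v l) [τ.old k, τ.sa i'] = 0 := by
      intro i'
      apply pre_two τ h1
      rw [(old_st τ k).1, (old_st τ k).2, (sa_st τ i').1, (sa_st τ i').2]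
      rintro (⟨h, _⟩ | ⟨_, _, h, _⟩)
      · exact hwu h
      · exact huv h.symm
    simp only [z1, z2, z3, mul_zero, Finset.sum_const_zero, add_zero]
    refine Finset.sum_congr rfl fun i _ => Finset.sum_congr rfl fun j _ => ?_
    rw [pre_oc τ h1 h2 h3]
  have e3 : ∀ j, ∑ y, G (τ.sb j) y *
      cyc (fun l => P.Q.bracket v W₁ l + P.Q.delta v l) [τ.sb j, y] = 0 := by
    intro j
    refine Finset.sum_eq_zero fun y _ => ?_
    rw [pre_two τ h1, mul_zero]
    rw [(sb_st τ j).1, (sb_st τ j).2]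
    rintro (⟨h, _⟩ | ⟨_, h, _⟩)
    · exact hwu h
    · exact huv h.symm
  have e4 : ∀ i, ∑ y, G (τ.sa i) y *
      cyc (fun l => P.Q.bracket v W₁ l + P.Q.delta v l) [τ.sa i, y] = 0 := by
    intro i
    refine Finset.sum_eq_zero fun y _ => ?_
    rw [pre_two τ h1, mul_zero]
    rw [(sa_st τ i).1, (sa_st τ i).2]
    rintro (⟨h, _⟩ | ⟨h, _⟩)
    · exact huv h.symm
    · exact hvw h
  simp only [e1, e2, e3, e4, Finset.sum_const_zero, add_zero]
  have e5 : ∑ k, ∑ i, ∑ j, G (τ.old k) (τ.comp i j) * τ.ten P.W i j k =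
      ∑ i, ∑ j, ∑ k, G (τ.old k) (τ.comp i j) * τ.ten P.W i j k := by
    rw [Finset.sum_comm]
    refine Finset.sum_congr rfl fun i _ => ?_
    rw [Finset.sum_comm]
  rw [e5]
  simp only [← Finset.sum_add_distrib]
  refine Finset.sum_congr rfl fun i _ => Finset.sum_congr rfl fun j _ => Finset.sum_congr rfl fun k _ => ?_
  ring

/-- the equation in degree two -/
theorem C07_two (h1 : IsPot P.Q W₁) (h2 : ∀ l, cyc W₁ l = cyc P.W l)
    (h3 : ∀ x l, P.Q.s x = v → W₁ (x :: l) = 0)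
    (hφ : IsIso (P.Q.pre v) (P'.Q.plus p q) φ)
    (hre : ∀ l, cyc (subst φ (fun l => P.Q.bracket v W₁ l + P.Q.delta v l)) l =
      cyc (P'.Q.plusW p q P'.W) l) (x y : (P'.Q.plus p q).A) :
    cyc (P'.Q.plusW p q P'.W) [x, y] = ∑ i, ∑ j, ∑ k,
      (φ (τ.comp i j) [x] * φ (τ.old k) [y] + φ (τ.old k) [x] * φ (τ.comp i j) [y]) *
        τ.ten P.W i j k := by
  have hnil : ∀ x, φ x [] = 0 := by
    intro x
    by_contra hne
    exact (hφ.1 x [] hne).1 rfl
  rw [← hre, cyc_subst_two φ hnil _ (pre_nil h1) (pre_one τ h1)]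
  exact C07_f2_cases τ h1 h2 h3 (fun p' q' => φ p' [x] * φ q' [y])

theorem C07_co_ne (i : Fin a) (j : Fin b) (k : Fin c) : τ.comp i j ≠ τ.old k := by
  intro h
  have h1 := (comp_st τ i j).1
  rw [h, (old_st τ k).1] at h1
  exact τ.hwu h1

/-- (K1) -/
theorem C07_K1 (h1 : IsPot P.Q W₁) (h2 : ∀ l, cyc W₁ l = cyc P.W l)
    (h3 : ∀ x l, P.Q.s x = v → W₁ (x :: l) = 0)
    (hφ : IsIso (P.Q.pre v) (P'.Q.plus p q) φ)
    (hre : ∀ l, cyc (subst φ (fun l => P.Q.bracket v W₁ l + P.Q.delta v l)) l =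
      cyc (P'.Q.plusW p q P'.W) l) (hlen : ∀ l, P'.W l ≠ 0 → 3 ≤ l.length)
    (hT : Inj (τ.ten P.W)) (x : P'.Q.A) :
    (∀ k, ∑ i, ∑ j, φ (τ.comp i j) [Sum.inl x] * τ.ten P.W i j k = 0) ∧
      ∀ k, φ (τ.old k) [Sum.inl x] = 0 := by
  classical
  obtain ⟨N, hN1, hN2⟩ := hφ.2
  have hMN : ∀ p' p0, ∑ y, φ p' [y] * N y p0 = if p' = p0 then 1 else 0 := by
    intro p' p0
    have := congrFun (congrFun hN1 p') p0
    rw [Matrix.mul_apply, Matrix.one_apply] at this
    exact this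
  have hE : ∀ y, ∑ i, ∑ j, ∑ k,
      (φ (τ.comp i j) [Sum.inl x] * φ (τ.old k) [y] + φ (τ.old k) [Sum.inl x] * φ (τ.comp i j) [y]) *
        τ.ten P.W i j k = 0 := by
    intro y
    exact (C07_two τ h1 h2 h3 hφ hre (Sum.inl x) y).symm.trans (cyc_plusW_two_left hlen x y)
  have hF : ∀ p0, ∑ i, ∑ j, ∑ k,
      (φ (τ.comp i j) [Sum.inl x] * (if τ.old k = p0 then 1 else 0) +
        φ (τ.old k) [Sum.inl x] * (if τ.comp i j = p0 then 1 else 0)) * τ.ten P.W i j k = 0 := by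
    intro p0
    have e : ∑ y, (∑ i, ∑ j, ∑ k,
      (φ (τ.comp i j) [Sum.inl x] * φ (τ.old k) [y] + φ (τ.old k) [Sum.inl x] * φ (τ.comp i j) [y]) *
        τ.ten P.W i j k) * N y p0 = 0 := Finset.sum_eq_zero fun y _ => by rw [hE y, zero_mul]
    refine Eq.trans ?_ e
    symm
    simp only [Finset.sum_mul]
    rw [Finset.sum_comm]
    refine Finset.sum_congr rfl fun i _ => ?_
    rw [Finset.sum_comm]
    refine Finset.sum_congr rfl fun j _ => ?_
    rw [Finset.sum_comm]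
    refine Finset.sum_congr rfl fun k _ => ?_
    symm
    rw [← hMN (τ.old k) p0, ← hMN (τ.comp i j) p0, Finset.mul_sum, Finset.mul_sum,
      ← Finset.sum_add_distrib, Finset.sum_mul]
    refine Finset.sum_congr rfl fun y _ => ?_
    ring
  have hA : ∀ k, ∑ i, ∑ j, φ (τ.comp i j) [Sum.inl x] * τ.ten P.W i j k = 0 := by
    intro k0
    rw [← hF (τ.old k0)]
    refine Finset.sum_congr rfl fun i _ => Finset.sum_congr rfl fun j _ => ?_
    rw [Finset.sum_eq_single k0]
    · rw [if_pos rfl, if_neg (C07_co_ne τ i j k0)]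
      ring
    · intro k _ hk
      rw [if_neg (fun h => hk (old_inj τ h)), if_neg (C07_co_ne τ i j k0)]
      ring
    · intro h
      exact absurd (Finset.mem_univ _) h
  have hB : ∀ i j, ∑ k, φ (τ.old k) [Sum.inl x] * τ.ten P.W i j k = 0 := by
    intro i0 j0
    rw [← hF (τ.comp i0 j0)]
    rw [Finset.sum_eq_single i0, Finset.sum_eq_single j0]
    · refine Finset.sum_congr rfl fun k _ => ?_
      rw [if_neg (fun h => C07_co_ne τ i0 j0 k h.symm), if_pos rfl]
      ring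
    · intro j _ hj
      refine Finset.sum_eq_zero fun k _ => ?_
      rw [if_neg (fun h => C07_co_ne τ i0 j0 k h.symm), if_neg (fun h => hj (comp_inj τ h).2)]
      ring
    · intro h
      exact absurd (Finset.mem_univ _) h
    · intro i _ hi
      refine Finset.sum_eq_zero fun j _ => Finset.sum_eq_zero fun k _ => ?_
      rw [if_neg (fun h => C07_co_ne τ i0 j0 k h.symm), if_neg (fun h => hi (comp_inj τ h).1)]
      ring
    · intro h
      exact absurd (Finset.mem_univ _) h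
  refine ⟨hA, ?_⟩
  have h5 := Fintype.linearIndependent_iff.1 hT (fun k => φ (τ.old k) [Sum.inl x]) (by
    funext pr
    rw [Finset.sum_apply]
    exact hB pr.1 pr.2)
  exact h5

theorem C07_type (hφ : IsIso (P.Q.pre v) (P'.Q.plus p q) φ) {x : (P.Q.pre v).A} {y : (P'.Q.plus p q).A}
    (h : φ x [y] ≠ 0) : (P.Q.pre v).s x = (P'.Q.plus p q).s y ∧ (P.Q.pre v).t x = (P'.Q.plus p q).t y := by
  by_contra hne
  exact h (lin_zero hφ x y hne)

/-- (K2) -/
theorem C07_K2 (hφ : IsIso (P.Q.pre v) (P'.Q.plus p q) φ)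
    (hold : ∀ (x : P'.Q.A) k, φ (τ.old k) [Sum.inl x] = 0) (x : P'.Q.A) :
    (P'.Q.s x = u ∧ P'.Q.t x = w) ∨ (P'.Q.s x = w ∧ P'.Q.t x = v) ∨ (P'.Q.s x = v ∧ P'.Q.t x = u) := by
  obtain ⟨a', ha⟩ := lin_col hφ (Sum.inl x)
  have ht := C07_type hφ ha
  change (P.Q.pre v).s a' = P'.Q.s x ∧ (P.Q.pre v).t a' = P'.Q.t x at ht
  rw [← ht.1, ← ht.2]
  rcases pre_cases τ a' with ⟨i, j, rfl⟩ | ⟨k, rfl⟩ | ⟨j, rfl⟩ | ⟨i, rfl⟩
  · exact Or.inl (comp_st τ i j)
  · exact absurd (hold x k) ha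
  · exact Or.inr (Or.inl (sb_st τ j))
  · exact Or.inr (Or.inr (sa_st τ i))

include τ in
/-- (K3) -/
theorem C07_K3 (h1 : IsPot P.Q W₁) (h2 : ∀ l, cyc W₁ l = cyc P.W l)
    (h3 : ∀ x l, P.Q.s x = v → W₁ (x :: l) = 0)
    (hφ : IsIso (P.Q.pre v) (P'.Q.plus p q) φ)
    (hre : ∀ l, cyc (subst φ (fun l => P.Q.bracket v W₁ l + P.Q.delta v l)) l =
      cyc (P'.Q.plusW p q P'.W) l) (hlen : ∀ l, P'.W l ≠ 0 → 3 ≤ l.length) (i : Fin m) :
    (p i = u ∧ q i = w) ∨ (p i = w ∧ q i = u) := by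
  have h4 := C07_two τ h1 h2 h3 hφ hre (Sum.inr (Sum.inl i)) (Sum.inr (Sum.inr i))
  rw [cyc_plusW_pair hlen] at h4
  by_contra hne
  have h5 : ∑ i', ∑ j, ∑ k,
      (φ (τ.comp i' j) [Sum.inr (Sum.inl i)] * φ (τ.old k) [Sum.inr (Sum.inr i)] +
        φ (τ.old k) [Sum.inr (Sum.inl i)] * φ (τ.comp i' j) [Sum.inr (Sum.inr i)]) *
        τ.ten P.W i' j k = 0 := by
    refine Finset.sum_eq_zero fun i' _ => Finset.sum_eq_zero fun j _ => Finset.sum_eq_zero fun k _ => ?_
    have e1 : φ (τ.comp i' j) [Sum.inr (Sum.inl i)] = 0 := by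
      by_contra hc
      have := C07_type hφ hc
      rw [(comp_st τ i' j).1, (comp_st τ i' j).2] at this
      exact hne (Or.inl ⟨this.1.symm, this.2.symm⟩)
    have e2 : φ (τ.old k) [Sum.inr (Sum.inl i)] = 0 := by
      by_contra hc
      have := C07_type hφ hc
      rw [(old_st τ k).1, (old_st τ k).2] at this
      exact hne (Or.inr ⟨this.1.symm, this.2.symm⟩)
    rw [e1, e2]
    ring
  rw [h5] at h4
  exact one_ne_zero h4

include τ in
theorem C07_card_sb : Fintype.card ((P.Q.pre v).Ar w v) = b := by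
  have hvw := τ.hvw
  have hwu := τ.hwu
  have huv := τ.huv
  refine (Fintype.card_congr (Equiv.ofBijective
    (fun j : Fin b => (⟨τ.sb j, sb_st τ j⟩ : (P.Q.pre v).Ar w v)) ⟨?_, ?_⟩)).symm.trans (Fintype.card_fin b)
  · intro j j' h
    exact sb_inj τ (congrArg Subtype.val h)
  · rintro ⟨y, hy1, hy2⟩
    rcases pre_cases τ y with ⟨i, j, rfl⟩ | ⟨k, rfl⟩ | ⟨j, rfl⟩ | ⟨i, rfl⟩
    · rw [(comp_st τ i j).1] at hy1
      exact absurd hy1.symm hwu
    · rw [(old_st τ k).2] at hy2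
      exact absurd hy2 huv
    · exact ⟨j, rfl⟩
    · rw [(sa_st τ i).1] at hy1
      exact absurd hy1 hvw

include τ in
theorem C07_card_sa : Fintype.card ((P.Q.pre v).Ar v u) = a := by
  have hvw := τ.hvw
  have hwu := τ.hwu
  have huv := τ.huv
  refine (Fintype.card_congr (Equiv.ofBijective
    (fun i : Fin a => (⟨τ.sa i, sa_st τ i⟩ : (P.Q.pre v).Ar v u)) ⟨?_, ?_⟩)).symm.trans (Fintype.card_fin a)
  · intro j j' h
    exact sa_inj τ (congrArg Subtype.val h)
  · rintro ⟨y, hy1, hy2⟩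
    rcases pre_cases τ y with ⟨i, j, rfl⟩ | ⟨k, rfl⟩ | ⟨j, rfl⟩ | ⟨i, rfl⟩
    · rw [(comp_st τ i j).1] at hy1
      exact absurd hy1 huv
    · rw [(old_st τ k).1] at hy1
      exact absurd hy1.symm hvw
    · rw [(sb_st τ j).1] at hy1
      exact absurd hy1.symm hvw
    · exact ⟨i, rfl⟩

include τ in
theorem C07_card_old : Fintype.card ((P.Q.pre v).Ar w u) = c := by
  have hvw := τ.hvw
  have hwu := τ.hwu
  have huv := τ.huv
  refine (Fintype.card_congr (Equiv.ofBijective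
    (fun i : Fin c => (⟨τ.old i, old_st τ i⟩ : (P.Q.pre v).Ar w u)) ⟨?_, ?_⟩)).symm.trans (Fintype.card_fin c)
  · intro j j' h
    exact old_inj τ (congrArg Subtype.val h)
  · rintro ⟨y, hy1, hy2⟩
    rcases pre_cases τ y with ⟨i, j, rfl⟩ | ⟨k, rfl⟩ | ⟨j, rfl⟩ | ⟨i, rfl⟩
    · rw [(comp_st τ i j).1] at hy1
      exact absurd hy1.symm hwu
    · exact ⟨k, rfl⟩
    · rw [(sb_st τ j).2] at hy2
      exact absurd hy2.symm huv
    · rw [(sa_st τ i).1] at hy1
      exact absurd hy1 hvw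

include τ in
theorem C07_card_comp : Fintype.card ((P.Q.pre v).Ar u w) = a * b := by
  have hvw := τ.hvw
  have hwu := τ.hwu
  have huv := τ.huv
  refine (Fintype.card_congr (Equiv.ofBijective
    (fun i : Fin a × Fin b => (⟨τ.comp i.1 i.2, comp_st τ i.1 i.2⟩ : (P.Q.pre v).Ar u w)) ⟨?_, ?_⟩)).symm.trans
      (by simp)
  · intro j j' h
    have := comp_inj τ (congrArg Subtype.val h)
    exact Prod.ext this.1 this.2
  · rintro ⟨y, hy1, hy2⟩
    rcases pre_cases τ y with ⟨i, j, rfl⟩ | ⟨k, rfl⟩ | ⟨j, rfl⟩ | ⟨i, rfl⟩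
    · exact ⟨(i, j), rfl⟩
    · rw [(old_st τ k).1] at hy1
      exact absurd hy1 hwu
    · rw [(sb_st τ j).1] at hy1
      exact absurd hy1 hwu
    · rw [(sa_st τ i).1] at hy1
      exact absurd hy1.symm huv

omit [DecidableEq V] in
theorem C07_plus_same {Q : Quiv V} (r s' : V) [DecidableEq V]
    (hne : ∀ i : Fin m, ¬((p i = r ∧ q i = s') ∨ (p i = s' ∧ q i = r))) :
    Fintype.card ((Q.plus p q).Ar r s') = Fintype.card (Q.Ar r s') := by
  refine (Fintype.card_congr (Equiv.ofBijective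
    (fun x : Q.Ar r s' => (⟨Sum.inl x.1, x.2⟩ : (Q.plus p q).Ar r s')) ⟨?_, ?_⟩)).symm
  · intro x y h
    exact Subtype.ext (Sum.inl_injective (congrArg Subtype.val h))
  · rintro ⟨x | i | i, hy⟩
    · exact ⟨⟨x, hy⟩, rfl⟩
    · exact absurd (Or.inl hy) (hne i)
    · exact absurd (Or.inr ⟨hy.2, hy.1⟩) (hne i)

theorem C07_plus_back {Q : Quiv V} (hwu : w ≠ u) (hK3 : ∀ i : Fin m, (p i = u ∧ q i = w) ∨ (p i = w ∧ q i = u))
    (hno : ∀ x : Q.A, ¬(Q.s x = w ∧ Q.t x = u)) :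
    Fintype.card ((Q.plus p q).Ar w u) = m := by
  refine (Fintype.card_congr (Equiv.ofBijective
    (fun i : Fin m => if h : p i = w then
      (⟨Sum.inr (Sum.inl i), ⟨h, by
        rcases hK3 i with h' | h'
        · exact absurd (h.symm.trans h'.1) hwu
        · exact h'.2⟩⟩ : (Q.plus p q).Ar w u)
      else ⟨Sum.inr (Sum.inr i), by
        rcases hK3 i with h' | h'
        · exact ⟨h'.2, h'.1⟩
        · exact absurd h'.1 h⟩) ⟨?_, ?_⟩)).symm.trans (Fintype.card_fin m)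
  · intro i i' h
    simp only at h
    split_ifs at h
    · exact Sum.inl_injective (Sum.inr_injective (congrArg Subtype.val h))
    · exact absurd (Sum.inr_injective (congrArg Subtype.val h)) (by simp)
    · exact absurd (Sum.inr_injective (congrArg Subtype.val h)) (by simp)
    · exact Sum.inr_injective (Sum.inr_injective (congrArg Subtype.val h))
  · rintro ⟨x | i | i, hy⟩
    · exact absurd hy (hno x)
    · refine ⟨i, ?_⟩
      have h : p i = w := hy.1
      simp only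
      rw [dif_pos h]
    · refine ⟨i, ?_⟩
      have h : ¬ p i = w := fun h => hwu (h.symm.trans hy.2)
      simp only
      rw [dif_neg h]

theorem C07_plus_forth {Q : Quiv V} (hwu : w ≠ u) (hK3 : ∀ i : Fin m, (p i = u ∧ q i = w) ∨ (p i = w ∧ q i = u)) :
    Fintype.card ((Q.plus p q).Ar u w) = Fintype.card (Q.Ar u w) + m := by
  refine (Fintype.card_congr (Equiv.ofBijective
    (Sum.elim (fun x : Q.Ar u w => (⟨Sum.inl x.1, x.2⟩ : (Q.plus p q).Ar u w))
      (fun i : Fin m => if h : p i = u then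
      (⟨Sum.inr (Sum.inl i), ⟨h, by
        rcases hK3 i with h' | h'
        · exact h'.2
        · exact absurd (h'.1.symm.trans h) hwu⟩⟩ : (Q.plus p q).Ar u w)
      else ⟨Sum.inr (Sum.inr i), by
        rcases hK3 i with h' | h'
        · exact absurd h'.1 h
        · exact ⟨h'.2, h'.1⟩⟩)) ⟨?_, ?_⟩)).symm.trans (by simp)
  · rintro (x | i) (x' | i') h
    · simp only [Sum.elim_inl] at h
      exact congrArg Sum.inl (Subtype.ext (Sum.inl_injective (congrArg Subtype.val h)))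
    · simp only [Sum.elim_inl, Sum.elim_inr] at h
      split_ifs at h
      · exact absurd (congrArg Subtype.val h) (by simp)
      · exact absurd (congrArg Subtype.val h) (by simp)
    · simp only [Sum.elim_inl, Sum.elim_inr] at h
      split_ifs at h
      · exact absurd (congrArg Subtype.val h) (by simp)
      · exact absurd (congrArg Subtype.val h) (by simp)
    · simp only [Sum.elim_inr] at h
      split_ifs at h
      · exact congrArg Sum.inr (Sum.inl_injective (Sum.inr_injective (congrArg Subtype.val h)))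
      · exact absurd (Sum.inr_injective (congrArg Subtype.val h)) (by simp)
      · exact absurd (Sum.inr_injective (congrArg Subtype.val h)) (by simp)
      · exact congrArg Sum.inr (Sum.inr_injective (Sum.inr_injective (congrArg Subtype.val h)))
  · rintro ⟨x | i | i, hy⟩
    · exact ⟨Sum.inl ⟨x, hy⟩, rfl⟩
    · refine ⟨Sum.inr i, ?_⟩
      have h : p i = u := hy.1
      simp only [Sum.elim_inr]
      rw [dif_pos h]
    · refine ⟨Sum.inr i, ?_⟩
      have h : ¬ p i = u := fun h => hwu (hy.2.symm.trans h)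
      simp only [Sum.elim_inr]
      rw [dif_neg h]

/-- sums against a column of type `u → w` -/
theorem C07_col_uw (hφ : IsIso (P.Q.pre v) (P'.Q.plus p q) φ) (x : P'.Q.A)
    (hx : P'.Q.s x = u ∧ P'.Q.t x = w) (H : (P.Q.pre v).A → ℂ) :
    ∑ p', φ p' [Sum.inl x] * H p' = ∑ i, ∑ j, φ (τ.comp i j) [Sum.inl x] * H (τ.comp i j) := by
  have hz : ∀ p', ¬((P.Q.pre v).s p' = u ∧ (P.Q.pre v).t p' = w) → φ p' [Sum.inl x] = 0 := by
    intro p' hp
    by_contra hc
    have := C07_type hφ hc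
    exact hp ⟨this.1.trans hx.1, this.2.trans hx.2⟩
  rw [pre_sum τ]
  have z1 : ∀ k, φ (τ.old k) [Sum.inl x] = 0 := fun k => hz _ (by
    rw [(old_st τ k).1]
    exact fun h => τ.hwu h.1)
  have z2 : ∀ j, φ (τ.sb j) [Sum.inl x] = 0 := fun j => hz _ (by
    rw [(sb_st τ j).1]
    exact fun h => τ.hwu h.1)
  have z3 : ∀ i, φ (τ.sa i) [Sum.inl x] = 0 := fun i => hz _ (by
    rw [(sa_st τ i).1]
    exact fun h => τ.huv h.1.symm)
  simp only [z1, z2, z3, zero_mul, Finset.sum_const_zero, add_zero]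

theorem C07_col_wv (hφ : IsIso (P.Q.pre v) (P'.Q.plus p q) φ) (x : P'.Q.A)
    (hx : P'.Q.s x = w ∧ P'.Q.t x = v) (H : (P.Q.pre v).A → ℂ) :
    ∑ p', φ p' [Sum.inl x] * H p' = ∑ j, φ (τ.sb j) [Sum.inl x] * H (τ.sb j) := by
  have hz : ∀ p', ¬((P.Q.pre v).s p' = w ∧ (P.Q.pre v).t p' = v) → φ p' [Sum.inl x] = 0 := by
    intro p' hp
    by_contra hc
    have := C07_type hφ hc
    exact hp ⟨this.1.trans hx.1, this.2.trans hx.2⟩
  rw [pre_sum τ]
  have z1 : ∀ k, φ (τ.old k) [Sum.inl x] = 0 := fun k => hz _ (by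
    rw [(old_st τ k).2]
    exact fun h => τ.huv h.2)
  have z2 : ∀ i j, φ (τ.comp i j) [Sum.inl x] = 0 := fun i j => hz _ (by
    rw [(comp_st τ i j).1]
    exact fun h => τ.hwu h.1.symm)
  have z3 : ∀ i, φ (τ.sa i) [Sum.inl x] = 0 := fun i => hz _ (by
    rw [(sa_st τ i).1]
    exact fun h => τ.hvw h.1)
  simp only [z1, z2, z3, zero_mul, Finset.sum_const_zero, add_zero, zero_add]

theorem C07_col_vu (hφ : IsIso (P.Q.pre v) (P'.Q.plus p q) φ) (x : P'.Q.A)
    (hx : P'.Q.s x = v ∧ P'.Q.t x = u) (H : (P.Q.pre v).A → ℂ) :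
    ∑ p', φ p' [Sum.inl x] * H p' = ∑ i, φ (τ.sa i) [Sum.inl x] * H (τ.sa i) := by
  have hz : ∀ p', ¬((P.Q.pre v).s p' = v ∧ (P.Q.pre v).t p' = u) → φ p' [Sum.inl x] = 0 := by
    intro p' hp
    by_contra hc
    have := C07_type hφ hc
    exact hp ⟨this.1.trans hx.1, this.2.trans hx.2⟩
  rw [pre_sum τ]
  have z1 : ∀ k, φ (τ.old k) [Sum.inl x] = 0 := fun k => hz _ (by
    rw [(old_st τ k).1]
    exact fun h => τ.hvw h.1.symm)
  have z2 : ∀ i j, φ (τ.comp i j) [Sum.inl x] = 0 := fun i j => hz _ (by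
    rw [(comp_st τ i j).1]
    exact fun h => τ.huv h.1)
  have z3 : ∀ j, φ (τ.sb j) [Sum.inl x] = 0 := fun j => hz _ (by
    rw [(sb_st τ j).1]
    exact fun h => τ.hvw h.1.symm)
  simp only [z1, z2, z3, zero_mul, Finset.sum_const_zero, zero_add]

/-- (K5) -/
theorem C07_three (h1 : IsPot P.Q W₁) (h2 : ∀ l, cyc W₁ l = cyc P.W l)
    (h3 : ∀ x l, P.Q.s x = v → W₁ (x :: l) = 0)
    (hφ : IsIso (P.Q.pre v) (P'.Q.plus p q) φ)
    (hre : ∀ l, cyc (subst φ (fun l => P.Q.bracket v W₁ l + P.Q.delta v l)) l =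
      cyc (P'.Q.plusW p q P'.W) l)
    (hK1 : ∀ (x : P'.Q.A) k, ∑ i, ∑ j, φ (τ.comp i j) [Sum.inl x] * τ.ten P.W i j k = 0)
    (x y z : P'.Q.A) (hx : P'.Q.s x = u ∧ P'.Q.t x = w) (hy : P'.Q.s y = w ∧ P'.Q.t y = v)
    (hz : P'.Q.s z = v ∧ P'.Q.t z = u) :
    cyc P'.W [x, y, z] = ∑ i, ∑ j, φ (τ.comp i j) [Sum.inl x] *
      (φ (τ.sb j) [Sum.inl y] * φ (τ.sa i) [Sum.inl z]) := by
  have hnil : ∀ x, φ x [] = 0 := by
    intro x
    by_contra hne
    exact (hφ.1 x [] hne).1 rfl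
  have hty : ∀ (p' : (P.Q.pre v).A) (r : P'.Q.A), ¬((P.Q.pre v).s p' = P'.Q.s r) → φ p' [Sum.inl r] = 0 := by
    intro p' r hp
    by_contra hc
    exact hp (C07_type hφ hc).1
  have e0 : cyc P'.W [x, y, z] = cyc (P'.Q.plusW p q P'.W) [Sum.inl x, Sum.inl y, Sum.inl z] :=
    (cyc_plusW_inl [x, y, z]).symm
  have e00 : cyc P'.W [x, y, z] =
      cyc (subst φ (fun l => P.Q.bracket v W₁ l + P.Q.delta v l)) [Sum.inl x, Sum.inl y, Sum.inl z] :=
    e0.trans (hre _).symm
  refine e00.trans ((cyc_subst_three φ hnil _ (pre_nil h1) (pre_one τ h1) (Sum.inl x) (Sum.inl y) (Sum.inl z)).trans ?_)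
  have e1 : ∑ p', ∑ q', ∑ r', φ p' [Sum.inl x] * φ q' [Sum.inl y] * φ r' [Sum.inl z] *
      cyc (fun l => P.Q.bracket v W₁ l + P.Q.delta v l) [p', q', r'] =
      ∑ i, ∑ j, φ (τ.comp i j) [Sum.inl x] * (φ (τ.sb j) [Sum.inl y] * φ (τ.sa i) [Sum.inl z]) := by
    have e2 : ∀ p', ∑ q', ∑ r', φ p' [Sum.inl x] * φ q' [Sum.inl y] * φ r' [Sum.inl z] *
        cyc (fun l => P.Q.bracket v W₁ l + P.Q.delta v l) [p', q', r'] =
        φ p' [Sum.inl x] * ∑ q', φ q' [Sum.inl y] * ∑ r', φ r' [Sum.inl z] *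
          cyc (fun l => P.Q.bracket v W₁ l + P.Q.delta v l) [p', q', r'] := by
      intro p'
      rw [Finset.mul_sum]
      refine Finset.sum_congr rfl fun q' _ => ?_
      rw [Finset.mul_sum, Finset.mul_sum]
      refine Finset.sum_congr rfl fun r' _ => ?_
      ring
    simp only [e2]
    rw [C07_col_uw τ hφ x hx]
    refine Finset.sum_congr rfl fun i _ => Finset.sum_congr rfl fun j _ => ?_
    congr 1
    rw [C07_col_wv τ hφ y hy]
    have e3 : ∀ j', ∑ r', φ r' [Sum.inl z] *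
        cyc (fun l => P.Q.bracket v W₁ l + P.Q.delta v l) [τ.comp i j, τ.sb j', r'] =
        if j = j' then φ (τ.sa i) [Sum.inl z] else 0 := by
      intro j'
      rw [C07_col_vu τ hφ z hz]
      simp only [pre_three τ h1]
      by_cases hj : j = j'
      · simp [hj]
      · simp [hj]
    simp only [e3]
    simp
  have e4 : ∑ p', ∑ q', cyc (fun l => P.Q.bracket v W₁ l + P.Q.delta v l) [p', q'] *
      (φ p' [Sum.inl x] * φ q' [Sum.inl y, Sum.inl z] + φ p' [Sum.inl y] * φ q' [Sum.inl z, Sum.inl x] +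
        φ p' [Sum.inl z] * φ q' [Sum.inl x, Sum.inl y]) = 0 := by
    have e5 := C07_f2_cases τ h1 h2 h3 (fun p' q' => φ p' [Sum.inl x] * φ q' [Sum.inl y, Sum.inl z] +
      φ p' [Sum.inl y] * φ q' [Sum.inl z, Sum.inl x] + φ p' [Sum.inl z] * φ q' [Sum.inl x, Sum.inl y])
    have e6 : ∑ p', ∑ q', cyc (fun l => P.Q.bracket v W₁ l + P.Q.delta v l) [p', q'] *
      (φ p' [Sum.inl x] * φ q' [Sum.inl y, Sum.inl z] + φ p' [Sum.inl y] * φ q' [Sum.inl z, Sum.inl x] +
        φ p' [Sum.inl z] * φ q' [Sum.inl x, Sum.inl y]) =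
      ∑ p', ∑ q', (φ p' [Sum.inl x] * φ q' [Sum.inl y, Sum.inl z] + φ p' [Sum.inl y] * φ q' [Sum.inl z, Sum.inl x] +
        φ p' [Sum.inl z] * φ q' [Sum.inl x, Sum.inl y]) *
        cyc (fun l => P.Q.bracket v W₁ l + P.Q.delta v l) [p', q'] :=
      Finset.sum_congr rfl fun p' _ => Finset.sum_congr rfl fun q' _ => mul_comm _ _
    rw [e6]
    refine Eq.trans e5 ?_
    have z1 : ∀ k, φ (τ.old k) [Sum.inl x] = 0 := fun k => hty _ _ (by
      rw [(old_st τ k).1, hx.1]
      exact τ.hwu)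
    have z2 : ∀ i j, φ (τ.comp i j) [Sum.inl y] = 0 := fun i j => hty _ _ (by
      rw [(comp_st τ i j).1, hy.1]
      exact τ.hwu.symm)
    have z3 : ∀ k, φ (τ.old k) [Sum.inl y] = 0 := by
      intro k
      by_contra hc
      have := (C07_type hφ hc).2
      rw [(old_st τ k).2] at this
      exact τ.huv (this.trans hy.2)
    have z4 : ∀ i j, φ (τ.comp i j) [Sum.inl z] = 0 := fun i j => hty _ _ (by
      rw [(comp_st τ i j).1, hz.1]
      exact τ.huv)
    have z5 : ∀ k, φ (τ.old k) [Sum.inl z] = 0 := fun k => hty _ _ (by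
      rw [(old_st τ k).1, hz.1]
      exact τ.hvw.symm)
    simp only [z1, z2, z3, z4, z5, zero_mul, add_zero]
    have e7 : ∀ k, φ (τ.old k) [Sum.inl y, Sum.inl z] *
        ∑ i, ∑ j, φ (τ.comp i j) [Sum.inl x] * τ.ten P.W i j k = 0 := fun k => by rw [hK1 x k, mul_zero]
    have e8 : ∑ k, φ (τ.old k) [Sum.inl y, Sum.inl z] *
        ∑ i, ∑ j, φ (τ.comp i j) [Sum.inl x] * τ.ten P.W i j k = 0 := Finset.sum_eq_zero fun k _ => e7 k
    refine Eq.trans ?_ e8
    symm
    simp only [Finset.mul_sum]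
    rw [Finset.sum_comm]
    refine Finset.sum_congr rfl fun i _ => ?_
    rw [Finset.sum_comm]
    refine Finset.sum_congr rfl fun j _ => Finset.sum_congr rfl fun k _ => ?_
    ring
  exact (congrArg₂ (· + ·) e1 e4).trans (add_zero _)

end C07

theorem mut_cas {P P' : QP V} {u v w : V} {a b c : ℕ} (τ : Tri P.Q u v w a b c) (hT : Inj (τ.ten P.W))
    (h : QP.Mut v P P') : ∃ (d : ℕ) (τ' : Tri P'.Q u w v d b a) (S : Ten d b a), Cas (τ.ten P.W) S ∧
      GLeq S (τ'.ten P'.W) := by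
  classical
  obtain ⟨hlen, W₁, h1, h2, h3, m, p, q, φ, hφ, hre⟩ := h
  have hK1a := fun x : P'.Q.A => (C07_K1 τ h1 h2 h3 hφ hre hlen hT x).1
  have hK1b := fun x : P'.Q.A => (C07_K1 τ h1 h2 h3 hφ hre hlen hT x).2
  have hK2 := C07_K2 τ hφ hK1b
  have hK3 := C07_K3 τ h1 h2 h3 hφ hre hlen
  have hvw := τ.hvw
  have hwu := τ.hwu
  have huv := τ.huv
  have cb : Fintype.card (P'.Q.Ar w v) = b := by
    have e1 := blk_card hφ w v
    rw [C07_card_sb τ, C07_plus_same] at e1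
    · exact e1.symm
    · intro i
      rcases hK3 i with ⟨h5, h6⟩ | ⟨h5, h6⟩
      · rw [h5, h6]
        rintro (⟨h, _⟩ | ⟨h, _⟩)
        · exact hwu h.symm
        · exact huv h
      · rw [h5, h6]
        rintro (⟨_, h⟩ | ⟨h, _⟩)
        · exact huv h
        · exact hvw h.symm
  have ca : Fintype.card (P'.Q.Ar v u) = a := by
    have e1 := blk_card hφ v u
    rw [C07_card_sa τ, C07_plus_same] at e1
    · exact e1.symm
    · intro i
      rcases hK3 i with ⟨h5, h6⟩ | ⟨h5, h6⟩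
      · rw [h5, h6]
        rintro (⟨h, _⟩ | ⟨_, h⟩)
        · exact huv h
        · exact hvw h.symm
      · rw [h5, h6]
        rintro (⟨h, _⟩ | ⟨h, _⟩)
        · exact hvw h.symm
        · exact hwu h
  have cm : m = c := by
    have e1 := blk_card hφ w u
    rw [C07_card_old τ, C07_plus_back hwu hK3] at e1
    · exact e1.symm
    · intro x hx
      rcases hK2 x with h5 | h5 | h5
      · exact hwu (hx.1.symm.trans h5.1)
      · exact huv (hx.2.symm.trans h5.2)
      · exact hvw (h5.1.symm.trans hx.1)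
  have cd : c + Fintype.card (P'.Q.Ar u w) = a * b := by
    have e1 := blk_card hφ u w
    rw [C07_card_comp τ, C07_plus_forth hwu hK3, cm] at e1
    omega
  obtain ⟨N, hN1, hN2⟩ := hφ.2
  have hNM : ∀ y y0, ∑ p', φ p' [y0] * N y p' = if y = y0 then 1 else 0 := by
    intro y y0
    have h5 := congrFun (congrFun hN2 y) y0
    rw [Matrix.mul_apply, Matrix.one_apply] at h5
    rw [← h5]
    exact Finset.sum_congr rfl fun p' _ => mul_comm _ _
  have hNMi : ∀ x x0 : P'.Q.A, ∑ p', φ p' [Sum.inl x0] * N (Sum.inl x) p' = if x = x0 then 1 else 0 := by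
    intro x x0
    refine (hNM (Sum.inl x) (Sum.inl x0)).trans ?_
    by_cases h5 : x = x0
    · rw [if_pos h5, if_pos (by rw [h5])]
    · rw [if_neg h5]
      exact if_neg (fun h6 => h5 (Sum.inl_injective h6))
  let τ' : Tri P'.Q u w v (Fintype.card (P'.Q.Ar u w)) b a :=
    { huv := hwu.symm
      hvw := hvw.symm
      hwu := huv.symm
      cover := fun z => by
        rcases τ.cover z with h5 | h5 | h5
        · exact Or.inl h5
        · exact Or.inr (Or.inr h5)
        · exact Or.inr (Or.inl h5)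
      ea := (Fintype.equivFin _).symm
      eb := (Fintype.equivFinOfCardEq cb).symm
      ec := (Fintype.equivFinOfCardEq ca).symm
      all := hK2 }
  refine ⟨_, τ', fun l j i => φ (τ.comp i j) [Sum.inl (τ'.ea l).1], ⟨cd, hT, ?_, ?_⟩, ?_⟩
  · rw [Fintype.linearIndependent_iff]
    intro g hg l0
    have hcomp : ∀ i j, ∑ l, g l * φ (τ.comp i j) [Sum.inl (τ'.ea l).1] = 0 := by
      intro i j
      have h5 := congrFun hg (i, j)
      rw [Finset.sum_apply] at h5
      exact h5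
    have h6 : ∑ l, g l * ∑ p', φ p' [Sum.inl (τ'.ea l).1] * N (Sum.inl (τ'.ea l0).1) p' = 0 := by
      have h7 : ∀ l, ∑ p', φ p' [Sum.inl (τ'.ea l).1] * N (Sum.inl (τ'.ea l0).1) p' =
          ∑ i, ∑ j, φ (τ.comp i j) [Sum.inl (τ'.ea l).1] * N (Sum.inl (τ'.ea l0).1) (τ.comp i j) :=
        fun l => C07_col_uw τ hφ _ (τ'.ea l).2 _
      simp only [h7, Finset.mul_sum]
      rw [Finset.sum_comm]
      refine Finset.sum_eq_zero fun i _ => ?_
      rw [Finset.sum_comm]
      refine Finset.sum_eq_zero fun j _ => ?_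
      have h8 := hcomp i j
      have h9 : ∑ l, g l * (φ (τ.comp i j) [Sum.inl (τ'.ea l).1] * N (Sum.inl (τ'.ea l0).1) (τ.comp i j)) =
          (∑ l, g l * φ (τ.comp i j) [Sum.inl (τ'.ea l).1]) * N (Sum.inl (τ'.ea l0).1) (τ.comp i j) := by
        rw [Finset.sum_mul]
        exact Finset.sum_congr rfl fun l _ => by ring
      rw [h9, h8, zero_mul]
    simp only [hNMi] at h6
    rw [Finset.sum_eq_single l0] at h6
    · simpa using h6
    · intro l _ hl
      rw [if_neg, mul_zero]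
      intro h7
      exact hl (τ'.ea.injective (Subtype.ext h7)).symm
    · intro h7
      exact absurd (Finset.mem_univ _) h7
  · intro l k
    exact hK1a (τ'.ea l).1 k
  · refine ⟨1, Matrix.of fun j j' => φ (τ.sb j') [Sum.inl (τ'.eb j).1],
      Matrix.of fun i i' => φ (τ.sa i') [Sum.inl (τ'.ec i).1], ?_, ?_, ?_, ?_⟩
    · simp
    · refine Matrix.isUnit_det_of_right_inverse
        (B := Matrix.of fun j' j => N (Sum.inl (τ'.eb j).1) (τ.sb j')) ?_
      ext j j2
      rw [Matrix.mul_apply, Matrix.one_apply]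
      simp only [Matrix.of_apply]
      refine (C07_col_wv τ hφ (τ'.eb j).1 (τ'.eb j).2 (fun p' => N (Sum.inl (τ'.eb j2).1) p')).symm.trans
        ((hNMi (τ'.eb j2).1 (τ'.eb j).1).trans ?_)
      by_cases h5 : j = j2
      · rw [if_pos (by rw [h5]), if_pos h5]
      · rw [if_neg, if_neg h5]
        intro h7
        exact h5 (τ'.eb.injective (Subtype.ext h7)).symm
    · refine Matrix.isUnit_det_of_right_inverse
        (B := Matrix.of fun j' j => N (Sum.inl (τ'.ec j).1) (τ.sa j')) ?_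
      ext j j2
      rw [Matrix.mul_apply, Matrix.one_apply]
      simp only [Matrix.of_apply]
      refine (C07_col_vu τ hφ (τ'.ec j).1 (τ'.ec j).2 (fun p' => N (Sum.inl (τ'.ec j2).1) p')).symm.trans
        ((hNMi (τ'.ec j2).1 (τ'.ec j).1).trans ?_)
      by_cases h5 : j = j2
      · rw [if_pos (by rw [h5]), if_pos h5]
      · rw [if_neg, if_neg h5]
        intro h7
        exact h5 (τ'.ec.injective (Subtype.ext h7)).symm
    · intro l j i
      have h5 := C07_three τ h1 h2 h3 hφ hre hK1a (τ'.ea l).1 (τ'.eb j).1 (τ'.ec i).1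
        (τ'.ea l).2 (τ'.eb j).2 (τ'.ec i).2
      refine Eq.trans h5 ?_
      rw [Finset.sum_eq_single l]
      · rw [Finset.sum_comm]
        refine Finset.sum_congr rfl fun j' _ => Finset.sum_congr rfl fun i' _ => ?_
        simp only [Matrix.one_apply_eq, Matrix.of_apply]
        ring
      · intro l' _ hl'
        refine Finset.sum_eq_zero fun j' _ => Finset.sum_eq_zero fun i' _ => ?_
        rw [Matrix.one_apply_ne hl'.symm]
        ring
      · intro h7
        exact absurd (Finset.mem_univ _) h7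
end Cea
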