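import Pool.Agent.Lib.MP_cea156_al.TDefs
/-! C09: rotation of the labels of a triangle; every tensor is the cubic part of a potential. -/
namespace Cea
variable {V : Type} [DecidableEq V] {Q : Quiv V} {u v w : V} {a b c : ℕ}
/-- rotated labels -/
def Tri.rotate (τ : Tri Q u v w a b c) : Tri Q v w u b c a where
  huv := τ.hvw
  hvw := τ.hwu
  hwu := τ.huv
  cover := fun z => by rcases τ.cover z with h | h | h <;> simp [h]
  ea := τ.eb
  eb := τ.ec
  ec := τ.ea
  all := fun x => by rcases τ.all x with h | h | h <;> simp [h]

private theorem C09_cyc3 {A : Type} (W : List A → ℂ) (x y z : A) :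
    cyc W [x, y, z] = W [x, y, z] + W [y, z, x] + W [z, x, y] := by
  unfold cyc
  simp [Finset.sum_range_succ, List.rotate]

theorem ten_rotate (τ : Tri Q u v w a b c) (W : List Q.A → ℂ) : τ.rotate.ten W = rot (τ.ten W) := by
  funext j k i
  simp only [Tri.ten, rot, Tri.rotate, C09_cyc3]
  ring

theorem exists_pot (τ : Tri Q u v w a b c) (T : Ten a b c) : ∃ W, IsPot Q W ∧ τ.ten W = T := by
  classical
  refine ⟨fun l => ∑ i, ∑ j, ∑ k, if l = [(τ.ea i).1, (τ.eb j).1, (τ.ec k).1] then T i j k else 0,
    ?_, ?_⟩
  · intro l hl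
    by_contra hc
    apply hl
    apply Finset.sum_eq_zero; intro i _
    apply Finset.sum_eq_zero; intro j _
    apply Finset.sum_eq_zero; intro k _
    rw [if_neg]
    rintro rfl
    apply hc
    have h1 := (τ.ea i).2
    have h2 := (τ.eb j).2
    have h3 := (τ.ec k).2
    refine ⟨by simp, u, ?_⟩
    simp only [Quiv.IsPath]
    exact ⟨h1.1, by rw [h1.2, h2.1], by rw [h2.2, h3.1], h3.2⟩
  · funext i j k
    simp only [Tri.ten, C09_cyc3]
    have e1 : (∑ i', ∑ j', ∑ k', if [(τ.ea i).1, (τ.eb j).1, (τ.ec k).1] =
        [(τ.ea i').1, (τ.eb j').1, (τ.ec k').1] then T i' j' k' else 0) = T i j k := by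
      rw [Finset.sum_eq_single i, Finset.sum_eq_single j, Finset.sum_eq_single k]
      · simp
      · intro k' _ hk
        rw [if_neg]
        intro h
        simp only [List.cons.injEq, and_true] at h
        exact hk (τ.ec.injective (Subtype.ext h.2.2)).symm
      · simp
      · intro j' _ hj
        apply Finset.sum_eq_zero; intro k' _
        rw [if_neg]
        intro h
        simp only [List.cons.injEq, and_true] at h
        exact hj (τ.eb.injective (Subtype.ext h.2.1)).symm
      · simp
      · intro i' _ hi
        apply Finset.sum_eq_zero; intro j' _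
        apply Finset.sum_eq_zero; intro k' _
        rw [if_neg]
        intro h
        simp only [List.cons.injEq, and_true] at h
        exact hi (τ.ea.injective (Subtype.ext h.1)).symm
      · simp
    have e2 : (∑ i', ∑ j', ∑ k', if [(τ.eb j).1, (τ.ec k).1, (τ.ea i).1] =
        [(τ.ea i').1, (τ.eb j').1, (τ.ec k').1] then T i' j' k' else 0) = 0 := by
      apply Finset.sum_eq_zero; intro i' _
      apply Finset.sum_eq_zero; intro j' _
      apply Finset.sum_eq_zero; intro k' _
      rw [if_neg]
      intro h
      simp only [List.cons.injEq, and_true] at h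
      have h1 := (τ.eb j).2.1
      have h2 := (τ.ea i').2.1
      rw [h.1] at h1
      exact τ.huv (h2.symm.trans h1)
    have e3 : (∑ i', ∑ j', ∑ k', if [(τ.ec k).1, (τ.ea i).1, (τ.eb j).1] =
        [(τ.ea i').1, (τ.eb j').1, (τ.ec k').1] then T i' j' k' else 0) = 0 := by
      apply Finset.sum_eq_zero; intro i' _
      apply Finset.sum_eq_zero; intro j' _
      apply Finset.sum_eq_zero; intro k' _
      rw [if_neg]
      intro h
      simp only [List.cons.injEq, and_true] at h
      have h1 := (τ.ec k).2.1
      have h2 := (τ.ea i').2.1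
      rw [h.1] at h1
      exact τ.hwu (h1.symm.trans h2)
    rw [e1, e2, e3]
    ring
end Cea
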