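import Pool.Agent.Lib.MP_cea156_al.T05
import Pool.Agent.Lib.MP_cea156_al.C03
import Pool.Agent.Lib.MP_cea156_al.C07
import Pool.Agent.Lib.MP_cea156_al.C09
/-! C08: potentials with castling-non-degenerate cubic part are non-degenerate; no uniqueness (DONE here). -/
namespace Cea
open Relation
variable {V : Type} [DecidableEq V]

theorem Tri.twoAcyclic {Q : Quiv V} {u v w : V} {a b c : ℕ} (τ : Tri Q u v w a b c) : Q.TwoAcyclic := by
  rintro x y ⟨h1, h2⟩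
  have a1 := τ.huv
  have a2 := τ.hvw
  have a3 := τ.hwu
  rcases τ.all x with ⟨h3, h4⟩ | ⟨h3, h4⟩ | ⟨h3, h4⟩ <;> rcases τ.all y with ⟨h5, h6⟩ | ⟨h5, h6⟩ | ⟨h5, h6⟩ <;>
    rw [h3, h6] at h2 <;> rw [h4, h5] at h1 <;> simp_all

/-- cyclic triangle with castling-non-degenerate cubic part -/
def Good (P : QP V) : Prop := ∃ (u v w : V) (a b c : ℕ) (τ : Tri P.Q u v w a b c), Nd (τ.ten P.W)

theorem Good_mut_mid {P P' : QP V} {u v w : V} {a b c : ℕ} (τ : Tri P.Q u v w a b c) (h : Nd (τ.ten P.W))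
    (hm : QP.Mut v P P') : Good P' := by
  obtain ⟨d, τ', S, h1, h2⟩ := mut_cas τ (Nd_inj h) hm
  exact ⟨u, w, v, d, b, a, τ', Nd_GLeq h2 (Nd_cas h h1)⟩

theorem Good_mut {P P' : QP V} (h : Good P) {k : V} (hm : QP.Mut k P P') : Good P' := by
  obtain ⟨u, v, w, a, b, c, τ, h⟩ := h
  have r1 : Nd (τ.rotate.ten P.W) := by
    rw [ten_rotate]
    exact Nd_rot h
  have r2 : Nd (τ.rotate.rotate.ten P.W) := by
    rw [ten_rotate]
    exact Nd_rot r1
  rcases τ.cover k with rfl | rfl | rfl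
  · exact Good_mut_mid τ.rotate.rotate r2 hm
  · exact Good_mut_mid τ h hm
  · exact Good_mut_mid τ.rotate r1 hm

theorem nondeg_of_Nd {P : QP V} {u v w : V} {a b c : ℕ} (τ : Tri P.Q u v w a b c) (h : Nd (τ.ten P.W)) :
    Nondeg P := by
  intro P' hP'
  have : Good P' := by
    induction hP' with
    | refl => exact ⟨u, v, w, a, b, c, τ, h⟩
    | tail _ hk ih =>
      obtain ⟨k, hk⟩ := hk
      exact Good_mut ih hk
  obtain ⟨u, v, w, a, b, c, τ, -⟩ := this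
  exact τ.twoAcyclic

theorem not_unique {Q : Quiv V} {u v w : V} {a b c : ℕ} (τ : Tri Q u v w a b c) (h : Two a b c) :
    ¬ UniquePot Q := by
  rintro ⟨W₀, hW₀, -, hu⟩
  obtain ⟨T₁, T₂, n1, n2, hne⟩ := h
  obtain ⟨W₁, p1, e1⟩ := exists_pot τ T₁
  obtain ⟨W₂, p2, e2⟩ := exists_pot τ T₂
  have g1 := ten_REq τ p1 hW₀ (hu W₁ p1 (nondeg_of_Nd (P := ⟨Q, W₁, p1⟩) τ (by rw [e1]; exact n1)))
  have g2 := ten_REq τ p2 hW₀ (hu W₂ p2 (nondeg_of_Nd (P := ⟨Q, W₂, p2⟩) τ (by rw [e2]; exact n2)))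
  rw [e1] at g1
  rw [e2] at g2
  exact hne (GLeq_trans g1 (GLeq_symm g2))

end Cea
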