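import Mathlib

/-!
# Quivers with potential, cluster algebras and upper cluster algebras: definitions

Everything is over the complex numbers.

* `Seed`, `Seed.mut`, `clusterAlg`, `upperAlg`: Fomin-Zelevinsky seeds, mutation, cluster algebra, upper cluster algebra.
* `Quiv`, `IsPot`, `REq`: finite quivers, potentials (elements of the complete path algebra supported on cycles),
  right equivalence.
* `QP.Mut`, `Nondeg`: mutation of quivers with potential (Derksen-Weyman-Zelevinsky) and non-degenerate potentials.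
-/

namespace Cea

open Relation

/-! ## Cluster algebras -/

/-- a labelled seed of rank `n` in the field `K`: a cluster and an exchange matrix -/
@[ext] structure Seed (n : ℕ) (K : Type) where
  x : Fin n → K
  B : Matrix (Fin n) (Fin n) ℤ

/-- Fomin-Zelevinsky matrix mutation at `k` -/
def mutB {n : ℕ} (k : Fin n) (B : Matrix (Fin n) (Fin n) ℤ) : Matrix (Fin n) (Fin n) ℤ :=
  fun i j => if i = k ∨ j = k then -B i j
    else B i j + (max (B i k) 0 * max (B k j) 0 - max (-B i k) 0 * max (-B k j) 0)

variable {n : ℕ} {K : Type} [Field K]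

/-- the right-hand side of the exchange relation at `k`:
`∏ x_i ^ [b_{ik}]_+ + ∏ x_i ^ [-b_{ik}]_+` -/
def Seed.exch (s : Seed n K) (k : Fin n) : K :=
  ∏ i, s.x i ^ (s.B i k).toNat + ∏ i, s.x i ^ (-s.B i k).toNat

/-- mutation of seeds at `k` -/
def Seed.mut (s : Seed n K) (k : Fin n) : Seed n K where
  x := Function.update s.x k (s.exch k / s.x k)
  B := mutB k s.B

/-- `s'` is obtained from `s` by iterated mutation -/
def Reach (s s' : Seed n K) : Prop := ReflTransGen (fun a b => ∃ k, b = a.mut k) s s'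

variable [Algebra ℂ K]

/-- the cluster algebra of a seed: generated by all cluster variables of all seeds obtained by iterated mutation -/
def clusterAlg (s : Seed n K) : Subalgebra ℂ K :=
  Algebra.adjoin ℂ {z | ∃ s', Reach s s' ∧ ∃ i, z = s'.x i}

/-- Laurent polynomials in the cluster of `s` -/
def laurent (s : Seed n K) : Subalgebra ℂ K :=
  Algebra.adjoin ℂ {z | ∃ i, z = s.x i ∨ z = (s.x i)⁻¹}

/-- the upper cluster algebra: intersection of the Laurent rings of all seeds obtained by iterated mutation -/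
def upperAlg (s : Seed n K) : Subalgebra ℂ K :=
  ⨅ s' ∈ {s' | Reach s s'}, laurent s'

/-- the initial seed of a matrix, in the field of rational functions in `n` variables -/
noncomputable def initSeed (B : Matrix (Fin n) (Fin n) ℤ) :
    Seed n (FractionRing (MvPolynomial (Fin n) ℂ)) where
  x := fun i => algebraMap (MvPolynomial (Fin n) ℂ) (FractionRing (MvPolynomial (Fin n) ℂ)) (MvPolynomial.X i)
  B := B

/-- acyclic exchange matrix: the quiver with an arrow `i → j` iff `b_{ij} > 0` has no oriented cycle -/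
def Acyc (B : Matrix (Fin n) (Fin n) ℤ) : Prop := ∃ r : Fin n → ℕ, ∀ i j, 0 < B i j → r i < r j

/-- mutation-acyclic exchange matrix -/
def MutAcyc (B : Matrix (Fin n) (Fin n) ℤ) : Prop :=
  ∃ B', ReflTransGen (fun a b => ∃ k, b = mutB k a) B B' ∧ Acyc B'

/-! ## Quivers and potentials -/

/-- a finite quiver with vertex set `V` -/
structure Quiv (V : Type) where
  A : Type
  fin : Fintype A
  dec : DecidableEq A
  s : A → V
  t : A → V

attribute [instance] Quiv.fin Quiv.dec

variable {V : Type} [DecidableEq V]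

/-- no loops and no oriented 2-cycles -/
def Quiv.TwoAcyclic (Q : Quiv V) : Prop := ∀ a b, ¬(Q.t a = Q.s b ∧ Q.t b = Q.s a)

/-- the skew-symmetric matrix of a quiver: arrows `i → j` minus arrows `j → i` -/
def Quiv.B (Q : Quiv (Fin n)) : Matrix (Fin n) (Fin n) ℤ := fun i j =>
  ((Finset.univ.filter fun a => Q.s a = i ∧ Q.t a = j).card : ℤ) -
    ((Finset.univ.filter fun a => Q.s a = j ∧ Q.t a = i).card : ℤ)

/-- `w` is a path from `i` to `j` (arrows listed in the order in which they are travelled) -/
def Quiv.IsPath (Q : Quiv V) : V → List Q.A → V → Prop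
  | i, [], j => i = j
  | i, a :: w, j => Q.s a = i ∧ Q.IsPath (Q.t a) w j

/-- `w` is an oriented cycle of positive length -/
def Quiv.IsCycle (Q : Quiv V) (w : List Q.A) : Prop := w ≠ [] ∧ ∃ i, Q.IsPath i w i

/-- a potential: a (possibly infinite) linear combination of oriented cycles -/
def IsPot (Q : Quiv V) (W : List Q.A → ℂ) : Prop := ∀ w, W w ≠ 0 → Q.IsCycle w

/-- sum of the coefficients of all rotations of the word `w`; two potentials are cyclically equivalent iff they have
the same `cyc` -/
def cyc {A : Type} (W : List A → ℂ) (w : List A) : ℂ :=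
  ∑ k ∈ Finset.range w.length, W (w.rotate k)

/-- product of two elements of the complete path algebra, as functions on words -/
def conv {A : Type} (f g : List A → ℂ) (w : List A) : ℂ :=
  ∑ k ∈ Finset.range (w.length + 1), f (w.take k) * g (w.drop k)

/-- image of a word under the substitution `a ↦ φ a` -/
def wordSub {A A' : Type} (φ : A → List A' → ℂ) : List A → List A' → ℂ
  | [], w => if w.isEmpty then 1 else 0
  | a :: u, w => conv (φ a) (wordSub φ u) w

/-- image of `W` under the substitution `a ↦ φ a` (here `φ a` has no constant term, so only words `u` with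
`|u| ≤ |w|` contribute to the coefficient of `w`) -/
def subst {A A' : Type} [Fintype A] (φ : A → List A' → ℂ) (W : List A → ℂ) (w : List A') : ℂ :=
  ∑ m ∈ Finset.range (w.length + 1), ∑ u : Fin m → A, W (List.ofFn u) * wordSub φ (List.ofFn u) w

/-- A continuous isomorphism of complete path algebras which fixes the vertex idempotents: every arrow `a` goes to a
series `φ a` of paths of positive length from `s a` to `t a`, and the linear part is invertible
(Derksen-Weyman-Zelevinsky 2008, Proposition 2.4). -/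
def IsIso (Q Q' : Quiv V) (φ : Q.A → List Q'.A → ℂ) : Prop :=
  (∀ a w, φ a w ≠ 0 → w ≠ [] ∧ Q'.IsPath (Q.s a) w (Q.t a)) ∧
    ∃ N : Matrix Q'.A Q.A ℂ, (Matrix.of fun a b => φ a [b]) * N = 1 ∧ N * (Matrix.of fun a b => φ a [b]) = 1

/-- right equivalence: some isomorphism fixing the vertex idempotents sends `W` to a potential cyclically equivalent
to `W'` -/
def REq (Q Q' : Quiv V) (W : List Q.A → ℂ) (W' : List Q'.A → ℂ) : Prop :=
  ∃ φ, IsIso Q Q' φ ∧ ∀ w, cyc (subst φ W) w = cyc W' w

/-! ## Mutation of quivers with potential -/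

/-- quiver with potential -/
structure QP (V : Type) where
  Q : Quiv V
  W : List Q.A → ℂ
  pot : IsPot Q W

/-- arrows not touching `k` -/
abbrev Quiv.Old (Q : Quiv V) (k : V) : Type := {a : Q.A // Q.s a ≠ k ∧ Q.t a ≠ k}

/-- arrows ending at `k` -/
abbrev Quiv.In (Q : Quiv V) (k : V) : Type := {a : Q.A // Q.t a = k}

/-- arrows starting at `k` -/
abbrev Quiv.Out (Q : Quiv V) (k : V) : Type := {a : Q.A // Q.s a = k}

/-- arrows touching `k` -/
abbrev Quiv.Tch (Q : Quiv V) (k : V) : Type := {a : Q.A // Q.s a = k ∨ Q.t a = k}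

/-- the arrows of the premutation at `k`: old arrows not touching `k`, composites `[ab]` for `a : i → k`, `b : k → j`,
and reversed arrows `a*` for all `a` touching `k` -/
abbrev Quiv.PreA (Q : Quiv V) (k : V) : Type := Q.Old k ⊕ (Q.In k × Q.Out k) ⊕ Q.Tch k

@[reducible] def Quiv.preFin (Q : Quiv V) (k : V) : Fintype (Q.PreA k) := inferInstance

@[reducible] def Quiv.preDec (Q : Quiv V) (k : V) : DecidableEq (Q.PreA k) := inferInstance

/-- the quiver of the premutation at `k` -/
def Quiv.pre (Q : Quiv V) (k : V) : Quiv V where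
  A := Q.PreA k
  fin := Q.preFin k
  dec := Q.preDec k
  s := Sum.elim (fun a => Q.s a.1) (Sum.elim (fun ab => Q.s ab.1.1) fun a => Q.t a.1)
  t := Sum.elim (fun a => Q.t a.1) (Sum.elim (fun ab => Q.t ab.2.1) fun a => Q.s a.1)

/-- the composite arrow `[ab]` -/
abbrev Quiv.cmp (Q : Quiv V) {k : V} (a : Q.In k) (b : Q.Out k) : (Q.pre k).A := Sum.inr (Sum.inl (a, b))

/-- the reversed arrow `b*`, `b` starting at `k` -/
abbrev Quiv.revOut (Q : Quiv V) {k : V} (b : Q.Out k) : (Q.pre k).A := Sum.inr (Sum.inr ⟨b.1, Or.inl b.2⟩)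

/-- the reversed arrow `a*`, `a` ending at `k` -/
abbrev Quiv.revIn (Q : Quiv V) {k : V} (a : Q.In k) : (Q.pre k).A := Sum.inr (Sum.inr ⟨a.1, Or.inr a.2⟩)

/-- replace every composite `[ab]` in a word by `ab`; `none` if a reversed arrow occurs -/
def Quiv.expand (Q : Quiv V) (k : V) : List (Q.pre k).A → Option (List Q.A)
  | [] => some []
  | Sum.inl a :: w => (Q.expand k w).map fun l => a.1 :: l
  | Sum.inr (Sum.inl ab) :: w => (Q.expand k w).map fun l => ab.1.1 :: ab.2.1 :: l
  | Sum.inr (Sum.inr _) :: _ => none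

/-- `[W]`, for a potential `W` no cycle of which starts at `k` -/
def Quiv.bracket (Q : Quiv V) (k : V) (W : List Q.A → ℂ) (w : List (Q.pre k).A) : ℂ :=
  match Q.expand k w with
  | some l => W l
  | none => 0

open Classical in
/-- `Δ = ∑ [ab] b* a*` -/
noncomputable def Quiv.delta (Q : Quiv V) (k : V) (w : List (Q.pre k).A) : ℂ :=
  if ∃ (a : Q.In k) (b : Q.Out k), w = [Q.cmp a b, Q.revOut b, Q.revIn a] then 1 else 0

/-- the quiver `Q` with `m` more pairs of arrows `x_i : p_i → q_i`, `y_i : q_i → p_i` -/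
def Quiv.plus (Q : Quiv V) {m : ℕ} (p q : Fin m → V) : Quiv V where
  A := Q.A ⊕ (Fin m ⊕ Fin m)
  fin := inferInstance
  dec := inferInstance
  s := Sum.elim Q.s (Sum.elim p q)
  t := Sum.elim Q.t (Sum.elim q p)

open Classical in
/-- the potential `W + ∑ x_i y_i` on `Q.plus p q` -/
noncomputable def Quiv.plusW (Q : Quiv V) {m : ℕ} (p q : Fin m → V) (W : List Q.A → ℂ)
    (w : List (Q.plus p q).A) : ℂ :=
  (if ∃ l : List Q.A, w = l.map Sum.inl then W (w.filterMap Sum.getLeft?) else 0) +
    if ∃ i : Fin m, w = [Sum.inr (Sum.inl i), Sum.inr (Sum.inr i)] then 1 else 0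

/-- `P'` is a mutation of `P` at `k`: the premutation `[W₁] + Δ` (where `W₁` is cyclically equivalent to `W` and no cycle
of `W₁` starts at `k`) is right equivalent to the direct sum of the reduced quiver with potential `P'` and a trivial one.
(`P'` exists and is unique up to right equivalence: Derksen-Weyman-Zelevinsky, Theorem 4.6.) -/
def QP.Mut (k : V) (P P' : QP V) : Prop :=
  (∀ w, P'.W w ≠ 0 → 3 ≤ w.length) ∧
  ∃ W₁ : List P.Q.A → ℂ, IsPot P.Q W₁ ∧ (∀ w, cyc W₁ w = cyc P.W w) ∧ (∀ a w, P.Q.s a = k → W₁ (a :: w) = 0) ∧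
    ∃ (m : ℕ) (p q : Fin m → V), REq (P.Q.pre k) (P'.Q.plus p q)
      (fun w => P.Q.bracket k W₁ w + P.Q.delta k w) (P'.Q.plusW p q P'.W)

/-- non-degenerate: every quiver which occurs in iterated mutations is 2-acyclic -/
def Nondeg (P : QP V) : Prop :=
  ∀ P', ReflTransGen (fun P P' => ∃ k, QP.Mut k P P') P P' → P'.Q.TwoAcyclic

/-- up to right equivalence, `Q` has exactly one non-degenerate potential -/
def UniquePot (Q : Quiv V) : Prop :=
  ∃ (W : List Q.A → ℂ) (hW : IsPot Q W), Nondeg ⟨Q, W, hW⟩ ∧
    ∀ (W' : List Q.A → ℂ) (hW' : IsPot Q W'), Nondeg ⟨Q, W', hW'⟩ → REq Q Q W' W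

end Cea
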