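import Pool.Agent.Lib.MP_cea156_al.TDefs
/-! E01: a 2-acyclic quiver with at most 3 vertices has an acyclic matrix or is a cyclic triangle; entries of the matrix of a
triangle. -/
namespace Cea
theorem B_skew {n : ℕ} (Q : Quiv (Fin n)) (i j : Fin n) : Q.B i j = -Q.B j i := by
  unfold Quiv.B
  ring

private theorem E01_ex {n : ℕ} (Q : Quiv (Fin n)) (i j : Fin n) (h : 0 < Q.B i j) :
    ∃ x, Q.s x = i ∧ Q.t x = j := by
  unfold Quiv.B at h
  have h1 : 0 < (Finset.univ.filter fun a => Q.s a = i ∧ Q.t a = j).card := by omega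
  obtain ⟨x, hx⟩ := Finset.card_pos.mp h1
  exact ⟨x, (Finset.mem_filter.mp hx).2⟩

private theorem E01_no {n : ℕ} (Q : Quiv (Fin n)) (hQ : Q.TwoAcyclic) (i j : Fin n)
    (h : ∃ x, Q.s x = i ∧ Q.t x = j) (y : Q.A) : ¬(Q.s y = j ∧ Q.t y = i) := by
  obtain ⟨x, h1, h2⟩ := h
  rintro ⟨h3, h4⟩
  exact hQ x y ⟨h2.trans h3.symm, h4.trans h1.symm⟩

private theorem E01_card {n : ℕ} (Q : Quiv (Fin n)) (hQ : Q.TwoAcyclic) (i j : Fin n) (h : 0 < Q.B i j) :
    Q.B i j = (Fintype.card {x : Q.A // Q.s x = i ∧ Q.t x = j} : ℕ) := by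
  have h1 := E01_no Q hQ i j (E01_ex Q i j h)
  have h2 : (Finset.univ.filter fun a => Q.s a = j ∧ Q.t a = i) = ∅ := by
    rw [Finset.filter_eq_empty_iff]
    intro y _
    exact h1 y
  unfold Quiv.B
  rw [h2, Finset.card_empty, Fintype.card_subtype]
  simp

private theorem E01_three {n : ℕ} (hn : n ≤ 3) {a b c : Fin n} (h1 : a ≠ b) (h2 : b ≠ c) (h3 : c ≠ a) (z : Fin n) :
    z = a ∨ z = b ∨ z = c := by
  have ha := a.2
  have hb := b.2
  have hc := c.2
  have hz := z.2
  rw [Ne, Fin.ext_iff] at h1 h2 h3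
  simp only [Fin.ext_iff]
  omega

/-- with no 2-cycles the entry `b_{ij} > 0` is the number of arrows `i → j`, and then there is no arrow `j → i` -/
theorem acyc_or_tri {n : ℕ} (hn : n ≤ 3) (Q : Quiv (Fin n)) (hQ : Q.TwoAcyclic) :
    Acyc Q.B ∨ ∃ (u v w : Fin n) (a b c : ℕ) (_ : Tri Q u v w a b c),
      Q.B u v = a ∧ Q.B v w = b ∧ Q.B w u = c := by
  classical
  have hself : ∀ i, Q.B i i = 0 := by
    intro i
    have := B_skew Q i i
    omega
  have hne : ∀ i j, 0 < Q.B i j → i ≠ j := by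
    rintro i j h rfl
    rw [hself] at h
    omega
  have hanti : ∀ i j, 0 < Q.B i j → ¬ 0 < Q.B j i := by
    intro i j h h'
    have := B_skew Q i j
    omega
  by_cases h : ∃ u v w : Fin n, 0 < Q.B u v ∧ 0 < Q.B v w ∧ 0 < Q.B w u
  · right
    obtain ⟨u, v, w, h1, h2, h3⟩ := h
    have huv := hne u v h1
    have hvw := hne v w h2
    have hwu := hne w u h3
    have cover := E01_three hn huv hvw hwu
    have n1 := E01_no Q hQ u v (E01_ex Q u v h1)
    have n2 := E01_no Q hQ v w (E01_ex Q v w h2)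
    have n3 := E01_no Q hQ w u (E01_ex Q w u h3)
    have nl : ∀ x, Q.s x ≠ Q.t x := fun x hx => hQ x x ⟨hx.symm, hx.symm⟩
    refine ⟨u, v, w, Fintype.card {x : Q.A // Q.s x = u ∧ Q.t x = v},
      Fintype.card {x : Q.A // Q.s x = v ∧ Q.t x = w}, Fintype.card {x : Q.A // Q.s x = w ∧ Q.t x = u},
      ⟨huv, hvw, hwu, cover, (Fintype.equivFin _).symm, (Fintype.equivFin _).symm, (Fintype.equivFin _).symm, ?_⟩,
      E01_card Q hQ u v h1, E01_card Q hQ v w h2, E01_card Q hQ w u h3⟩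
    intro x
    have m1 := n1 x
    have m2 := n2 x
    have m3 := n3 x
    have m4 := nl x
    rcases cover (Q.s x) with hs | hs | hs <;> rcases cover (Q.t x) with ht | ht | ht
    · exact absurd (hs.trans ht.symm) m4
    · exact Or.inl ⟨hs, ht⟩
    · exact absurd ⟨hs, ht⟩ m3
    · exact absurd ⟨hs, ht⟩ m1
    · exact absurd (hs.trans ht.symm) m4
    · exact Or.inr (Or.inl ⟨hs, ht⟩)
    · exact Or.inr (Or.inr ⟨hs, ht⟩)
    · exact absurd ⟨hs, ht⟩ m2
    · exact absurd (hs.trans ht.symm) m4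
  · left
    obtain ⟨R, hR⟩ : ∃ R : Fin n → Fin n → ℕ, R = fun i j => if 0 < Q.B i j then 1 else 0 := ⟨_, rfl⟩
    refine ⟨fun i => ∑ a, R a i + ∑ a, ∑ b, R b a * R a i, ?_⟩
    intro i j hij
    show ∑ a, R a i + ∑ a, ∑ b, R b a * R a i < ∑ a, R a j + ∑ a, ∑ b, R b a * R a j
    have hz : ∑ a, ∑ b, R b a * R a i = 0 := by
      refine Finset.sum_eq_zero (fun a _ => Finset.sum_eq_zero (fun b _ => ?_))
      by_contra hcon
      have ha : 0 < Q.B a i := by
        by_contra hc
        apply hcon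
        rw [hR]
        simp only [if_neg hc, mul_zero]
      have hb : 0 < Q.B b a := by
        by_contra hc
        apply hcon
        rw [hR]
        simp only [if_neg hc, zero_mul]
      have h1 : a ≠ i := hne a i ha
      have h2 : i ≠ j := hne i j hij
      have h3 : j ≠ a := by
        rintro rfl
        exact hanti i j hij ha
      rcases E01_three hn h1 h2 h3 b with rfl | rfl | rfl
      · exact hne _ _ hb rfl
      · exact hanti _ _ ha hb
      · exact h ⟨b, a, i, hb, ha, hij⟩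
    have hRij : R i j = 1 := by rw [hR]; simp only [if_pos hij]
    have h1 : 1 ≤ ∑ a, R a j := by
      rw [← hRij]
      exact Finset.single_le_sum (f := fun a => R a j) (fun _ _ => Nat.zero_le _) (Finset.mem_univ i)
    have h2 : ∑ a, R a i ≤ ∑ a, ∑ b, R b a * R a j := by
      calc ∑ a, R a i = ∑ b, R b i * R i j := by rw [hRij]; simp
        _ ≤ ∑ a, ∑ b, R b a * R a j :=
          Finset.single_le_sum (f := fun a => ∑ b, R b a * R a j) (fun _ _ => Nat.zero_le _) (Finset.mem_univ i)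
    omega
end Cea
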