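import Pool.Agent.Lib.MP_cea156_al.TDefs
/-! E02: a cyclic triangle with multiplicities not mutation-cyclic is mutation-acyclic. For all matrices: induction on `m` with
`¬ MCN m a b c`. (0) some multiplicity is `≤ 1`, say `c ≤ 1` (rotate): if `c = 0` the matrix is acyclic; if `c = 1` and `a ≥ b` mutate at the vertex
which replaces `a` by `bc - a ≤ 0`, if `a < b` replace `b` by `ac - b ≤ 0`: acyclic. (rot) same matrix, labels `(v, w, u)`. (rev) the matrix
`-B`, labels `(w, v, u)`... (`mutB k (-B) = - mutB k B`, `Acyc (-B) ↔ Acyc B`). (cas) `mutB v B` has labels `(u, w, v)` and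
entries `ab - c, b, a`; if `ab ≤ c` it is acyclic. -/
namespace Cea
theorem mutB_neg {n : ℕ} (k : Fin n) (B : Matrix (Fin n) (Fin n) ℤ) : mutB k (-B) = -mutB k B := by
  funext i j
  simp only [mutB, Matrix.neg_apply, neg_neg]
  split_ifs
  · rw [neg_neg]
  · ring

theorem E02_skew {n : ℕ} {B : Matrix (Fin n) (Fin n) ℤ} (hB : ∀ i j, B i j = -B j i) (k : Fin n) :
    ∀ i j, mutB k B i j = -mutB k B j i := by
  intro i j
  by_cases h : i = k ∨ j = k
  · have h' : j = k ∨ i = k := h.symm
    simp only [mutB, if_pos h, if_pos h']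
    rw [hB i j]
  · have h' : ¬(j = k ∨ i = k) := fun h2 => h h2.symm
    simp only [mutB, if_neg h, if_neg h']
    rw [hB j k, hB k i, neg_neg, neg_neg, hB i j]
    ring

theorem E02_skew_chain {n : ℕ} {B B' : Matrix (Fin n) (Fin n) ℤ} (hB : ∀ i j, B i j = -B j i)
    (h : Relation.ReflTransGen (fun a b => ∃ k, b = mutB k a) B B') : ∀ i j, B' i j = -B' j i := by
  induction h with
  | refl => exact hB
  | tail _ h2 ih =>
    obtain ⟨k, rfl⟩ := h2
    exact E02_skew ih k

theorem E02_neg_chain {n : ℕ} {B B' : Matrix (Fin n) (Fin n) ℤ}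
    (h : Relation.ReflTransGen (fun a b => ∃ k, b = mutB k a) B B') :
    Relation.ReflTransGen (fun a b => ∃ k, b = mutB k a) (-B) (-B') := by
  induction h with
  | refl => exact Relation.ReflTransGen.refl
  | tail _ h2 ih =>
    obtain ⟨k, rfl⟩ := h2
    exact ih.tail ⟨k, (mutB_neg k _).symm⟩

theorem mutAcyc_neg {n : ℕ} {B : Matrix (Fin n) (Fin n) ℤ} (hB : ∀ i j, B i j = -B j i) (h : MutAcyc B) :
    MutAcyc (-B) := by
  obtain ⟨B', h1, r, hr⟩ := h
  have hs := E02_skew_chain hB h1
  refine ⟨-B', E02_neg_chain h1, fun i => Finset.univ.sup r - r i, fun i j hij => ?_⟩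
  rw [Matrix.neg_apply, ← hs j i] at hij
  have h2 := hr j i hij
  have h3 : r i ≤ Finset.univ.sup r := Finset.le_sup (Finset.mem_univ i)
  show Finset.univ.sup r - r i < Finset.univ.sup r - r j
  omega

theorem E02_of_acyc {n : ℕ} {B : Matrix (Fin n) (Fin n) ℤ} (h : Acyc B) : MutAcyc B :=
  ⟨B, Relation.ReflTransGen.refl, h⟩

theorem E02_of_mut {n : ℕ} {B : Matrix (Fin n) (Fin n) ℤ} (k : Fin n) (h : MutAcyc (mutB k B)) : MutAcyc B := by
  obtain ⟨B', h1, h2⟩ := h
  exact ⟨B', Relation.ReflTransGen.head ⟨k, rfl⟩ h1, h2⟩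

/-- three labels `x < y < z` with no arrow backwards -/
theorem E02_acyc {n : ℕ} {B : Matrix (Fin n) (Fin n) ℤ} (hB : ∀ i j, B i j = -B j i) {x y z : Fin n}
    (hxy : x ≠ y) (hyz : y ≠ z) (hzx : z ≠ x) (hc : ∀ t : Fin n, t = x ∨ t = y ∨ t = z)
    (h1 : 0 ≤ B x y) (h2 : 0 ≤ B y z) (h3 : 0 ≤ B x z) : Acyc B := by
  have hd : ∀ i, B i i = 0 := fun i => by have := hB i i; omega
  refine ⟨fun i => if i = x then 0 else if i = y then 1 else 2, fun i j hij => ?_⟩
  have e1 : (if x = x then 0 else if x = y then 1 else 2) = 0 := if_pos rfl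
  have e2 : (if y = x then 0 else if y = y then 1 else 2) = 1 := by rw [if_neg hxy.symm, if_pos rfl]
  have e3 : (if z = x then 0 else if z = y then 1 else 2) = 2 := by rw [if_neg hzx, if_neg hyz.symm]
  rcases hc i with rfl | rfl | rfl <;> rcases hc j with rfl | rfl | rfl
  · rw [hd] at hij; omega
  · show (if i = i then 0 else if i = j then 1 else 2) < (if j = i then 0 else if j = j then 1 else 2)
    rw [e1, e2]; norm_num
  · show (if i = i then 0 else if i = _ then 1 else 2) < (if j = i then 0 else if j = _ then 1 else 2)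
    rw [e1, e3]; norm_num
  · rw [hB] at hij; omega
  · rw [hd] at hij; omega
  · show (if i = _ then 0 else if i = i then 1 else 2) < (if j = _ then 0 else if j = i then 1 else 2)
    rw [e2, e3]; norm_num
  · rw [hB] at hij; omega
  · rw [hB] at hij; omega
  · rw [hd] at hij; omega

theorem E02_mut_self {n : ℕ} (B : Matrix (Fin n) (Fin n) ℤ) {k i j : Fin n} (h : i = k ∨ j = k) :
    mutB k B i j = -B i j := by
  simp only [mutB, if_pos h]

theorem E02_mut_other {n : ℕ} (B : Matrix (Fin n) (Fin n) ℤ) {k i j : Fin n} (hi : i ≠ k) (hj : j ≠ k)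
    (h1 : 0 ≤ B i k) (h2 : 0 ≤ B k j) : mutB k B i j = B i j + B i k * B k j := by
  have h : ¬(i = k ∨ j = k) := fun h => h.elim hi hj
  simp only [mutB, if_neg h]
  rw [max_eq_left h1, max_eq_left h2, max_eq_right (by omega : -B i k ≤ 0)]
  ring

/-- case `c ≤ 1` -/
theorem E02_base {n : ℕ} {u v w : Fin n} (huv : u ≠ v) (hvw : v ≠ w) (hwu : w ≠ u)
    (hc : ∀ z : Fin n, z = u ∨ z = v ∨ z = w) (a b c : ℕ) (B : Matrix (Fin n) (Fin n) ℤ)
    (hB : ∀ i j, B i j = -B j i) (h1 : B u v = a) (h2 : B v w = b) (h3 : B w u = c) (h : c ≤ 1) :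
    MutAcyc B := by
  have h1' : B v u = -a := by rw [hB, h1]
  have h2' : B w v = -b := by rw [hB, h2]
  have h3' : B u w = -c := by rw [hB, h3]
  rcases Nat.le_one_iff_eq_zero_or_eq_one.mp h with rfl | rfl
  · exact E02_of_acyc (E02_acyc hB huv hvw hwu hc (by omega) (by omega) (by rw [h3']; simp))
  · rcases le_or_gt b a with hab | hab
    · -- mutate at w
      refine E02_of_mut w (E02_of_acyc (E02_acyc (E02_skew hB w) (x := u) (y := w) (z := v)
        hwu.symm hvw.symm huv.symm (fun t => by rcases hc t with h | h | h <;> simp [h]) ?_ ?_ ?_))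
      · rw [E02_mut_self B (Or.inr rfl), h3']; simp
      · rw [E02_mut_self B (Or.inl rfl), h2']; omega
      · rw [E02_skew hB w, E02_mut_other B hvw hwu.symm (by omega) (by omega), h1', h2, h3]
        push_cast
        omega
    · -- mutate at u
      refine E02_of_mut u (E02_of_acyc (E02_acyc (E02_skew hB u) (x := v) (y := u) (z := w)
        huv.symm hwu.symm hvw.symm (fun t => by rcases hc t with h | h | h <;> simp [h]) ?_ ?_ ?_))
      · rw [E02_mut_self B (Or.inr rfl), h1']; omega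
      · rw [E02_mut_self B (Or.inl rfl), h3']; simp
      · rw [E02_skew hB u, E02_mut_other B hwu huv.symm (by omega) (by omega), h2', h3, h1]
        push_cast
        omega

theorem mutAcyc_of_not_MCN {n : ℕ} {u v w : Fin n} (huv : u ≠ v) (hvw : v ≠ w) (hwu : w ≠ u)
    (hc : ∀ z : Fin n, z = u ∨ z = v ∨ z = w) (m a b c : ℕ) (B : Matrix (Fin n) (Fin n) ℤ)
    (hB : ∀ i j, B i j = -B j i) (h1 : B u v = a) (h2 : B v w = b) (h3 : B w u = c) (h : ¬ MCN m a b c) :
    MutAcyc B := by
  have base : ∀ {u v w : Fin n} (huv : u ≠ v) (hvw : v ≠ w) (hwu : w ≠ u)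
      (hc : ∀ z : Fin n, z = u ∨ z = v ∨ z = w) (a b c : ℕ) (B : Matrix (Fin n) (Fin n) ℤ)
      (hB : ∀ i j, B i j = -B j i) (h1 : B u v = a) (h2 : B v w = b) (h3 : B w u = c)
      (h : ¬(2 ≤ a ∧ 2 ≤ b ∧ 2 ≤ c)), MutAcyc B := by
    intro u v w huv hvw hwu hc a b c B hB h1 h2 h3 h
    have hc1 : ∀ z : Fin n, z = v ∨ z = w ∨ z = u := fun z => by
      rcases hc z with h | h | h <;> simp [h]
    have hc2 : ∀ z : Fin n, z = w ∨ z = u ∨ z = v := fun z => by
      rcases hc z with h | h | h <;> simp [h]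
    by_cases hcc : c ≤ 1
    · exact E02_base huv hvw hwu hc a b c B hB h1 h2 h3 hcc
    · by_cases ha : a ≤ 1
      · exact E02_base hvw hwu huv hc1 b c a B hB h2 h3 h1 ha
      · have hb : b ≤ 1 := by omega
        exact E02_base hwu huv hvw hc2 c a b B hB h3 h1 h2 hb
  induction m generalizing u v w a b c B with
  | zero => exact base huv hvw hwu hc a b c B hB h1 h2 h3 h
  | succ m ih =>
    by_cases h0 : 2 ≤ a ∧ 2 ≤ b ∧ 2 ≤ c
    swap
    · exact base huv hvw hwu hc a b c B hB h1 h2 h3 h0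
    have hc1 : ∀ z : Fin n, z = v ∨ z = w ∨ z = u := fun z => by
      rcases hc z with h | h | h <;> simp [h]
    have hc2 : ∀ z : Fin n, z = u ∨ z = w ∨ z = v := fun z => by
      rcases hc z with h | h | h <;> simp [h]
    have h1' : B v u = -a := by rw [hB, h1]
    have h2' : B w v = -b := by rw [hB, h2]
    have h3' : B u w = -c := by rw [hB, h3]
    by_cases k1 : MCN m b c a
    swap
    · exact ih hvw hwu huv hc1 b c a B hB h2 h3 h1 k1
    by_cases k2 : MCN m c b a
    swap
    · have hBn : ∀ i j, (-B) i j = -(-B) j i := fun i j => by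
        rw [Matrix.neg_apply, Matrix.neg_apply, hB i j]
      have := ih hwu.symm hvw.symm huv.symm hc2 c b a (-B) hBn (by rw [Matrix.neg_apply, h3', neg_neg])
        (by rw [Matrix.neg_apply, h2', neg_neg]) (by rw [Matrix.neg_apply, h1', neg_neg]) k2
      have := mutAcyc_neg hBn this
      rwa [neg_neg] at this
    have k3 : ¬ MCN m (a * b - c) b a := fun k3 => h ⟨h0, k1, k2, k3⟩
    refine E02_of_mut v ?_
    have hs := E02_skew hB v
    have m1 : mutB v B u w = -(c : ℤ) + a * b := by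
      rw [E02_mut_other B huv hvw.symm (by omega) (by omega), h3', h1, h2]
    have m2 : mutB v B w v = b := by rw [E02_mut_self B (Or.inr rfl), h2', neg_neg]
    have m3 : mutB v B v u = a := by rw [E02_mut_self B (Or.inl rfl), h1', neg_neg]
    rcases le_or_gt c (a * b) with hle | hlt
    · refine ih hwu.symm hvw.symm huv.symm hc2 (a * b - c) b a (mutB v B) hs ?_ m2 m3 k3
      rw [m1, Nat.cast_sub hle]
      push_cast
      ring
    · refine E02_of_acyc (E02_acyc hs (x := w) (y := v) (z := u) hvw.symm huv.symm hwu.symm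
        (fun t => by rcases hc t with h | h | h <;> simp [h]) ?_ ?_ ?_)
      · rw [m2]; omega
      · rw [m3]; omega
      · rw [hs, m1]
        have : ((a * b : ℕ) : ℤ) < (c : ℤ) := by exact_mod_cast hlt
        push_cast at this
        linarith
end Cea
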