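import Mathlib
/-! T13: a point of `ℂ^σ` avoiding countably many hypersurfaces (Baire: `{F m ≠ 0}` is open and dense, dense because on the line from
any point to a point with `F m ≠ 0` the polynomial has finitely many zeros); the image of a polynomial map from a space of
smaller dimension lies in a hypersurface (transcendence degree: `AlgebraicIndependent` families in `MvPolynomial σ ℂ` have at most
`card σ` elements). -/
namespace Cea
open MvPolynomial

private theorem T13_dense {σ : Type} [Fintype σ] (F : MvPolynomial σ ℂ) (hF : F ≠ 0) :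
    Dense {x : σ → ℂ | eval x F ≠ 0} := by
  obtain ⟨y, hy⟩ : ∃ y : σ → ℂ, eval y F ≠ 0 := by
    by_contra hcon
    push Not at hcon
    apply hF
    apply MvPolynomial.funext
    intro x
    rw [hcon x, map_zero]
  intro x
  -- the restriction to the line
  let g : Polynomial ℂ := aeval (fun i => Polynomial.C (x i) + Polynomial.X * Polynomial.C (y i - x i)) F
  have hg : ∀ t : ℂ, g.eval t = eval (fun i => x i + t * (y i - x i)) F := by
    intro t
    have h1 : g.eval t = (Polynomial.evalRingHom t) (aeval (fun i => Polynomial.C (x i) +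
      Polynomial.X * Polynomial.C (y i - x i)) F) := rfl
    rw [h1, aeval_def, MvPolynomial.hom_eval₂]
    have h2 : (Polynomial.evalRingHom t).comp (algebraMap ℂ (Polynomial ℂ)) = RingHom.id ℂ := by
      ext z
      simp
    rw [h2]
    change eval₂ (RingHom.id ℂ) _ F = eval₂ (RingHom.id ℂ) _ F
    congr 1
    funext i
    simp
  have hg0 : g ≠ 0 := by
    intro h
    have h1 := hg 1
    rw [h, Polynomial.eval_zero] at h1
    apply hy
    rw [h1]
    congr 2
    funext i
    ring
  have hfin : {t : ℂ | g.eval t = 0}.Finite := by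
    refine (g.roots.toFinset.finite_toSet).subset fun t ht => ?_
    rw [Finset.mem_coe, Multiset.mem_toFinset, Polynomial.mem_roots hg0]
    exact ht
  have hd : Dense ({t : ℂ | g.eval t = 0}ᶜ) := hfin.countable.dense_compl ℂ
  have hcont : Continuous fun t : ℂ => (fun i => x i + t * (y i - x i) : σ → ℂ) := by fun_prop
  have h0 : (0 : ℂ) ∈ closure ({t : ℂ | g.eval t = 0}ᶜ) := hd 0
  have h1 := mem_closure_image hcont.continuousAt h0
  have h2 : (fun i => x i + 0 * (y i - x i) : σ → ℂ) = x := by
    funext i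
    ring
  rw [h2] at h1
  refine closure_mono ?_ h1
  rintro _ ⟨t, ht, rfl⟩
  change eval (fun i => x i + t * (y i - x i)) F ≠ 0
  rw [← hg]
  exact ht

theorem exists_avoid {σ : Type} [Fintype σ] (F : ℕ → MvPolynomial σ ℂ) (hF : ∀ m, F m ≠ 0) :
    ∃ x : σ → ℂ, ∀ m, eval x (F m) ≠ 0 := by
  have hd : Dense (⋂ m, {x : σ → ℂ | eval x (F m) ≠ 0}) := by
    refine dense_iInter_of_isOpen_nat (fun m => ?_) fun m => T13_dense (F m) (hF m)
    exact isOpen_ne_fun (MvPolynomial.continuous_eval _) continuous_const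
  obtain ⟨x, hx⟩ := hd.nonempty
  exact ⟨x, fun m => Set.mem_iInter.1 hx m⟩

theorem image_thin {σ τ : Type} [Fintype σ] [Fintype τ] (h : Fintype.card σ < Fintype.card τ)
    (Φ : τ → MvPolynomial σ ℂ) :
    ∃ P : MvPolynomial τ ℂ, P ≠ 0 ∧ ∀ x : σ → ℂ, eval (fun t => eval x (Φ t)) P = 0 := by
  have h1 : ¬ AlgebraicIndependent ℂ Φ := by
    intro hcon
    have h2 := hcon.cardinalMk_le_trdeg
    rw [MvPolynomial.trdeg_of_isDomain, Cardinal.lift_id, Cardinal.mk_fintype, Cardinal.mk_fintype,
      Nat.cast_le] at h2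
    omega
  have h2 : ¬ Function.Injective (aeval Φ : MvPolynomial τ ℂ →ₐ[ℂ] MvPolynomial σ ℂ) := h1
  rw [injective_iff_map_eq_zero] at h2
  push Not at h2
  obtain ⟨P, hP, hP0⟩ := h2
  refine ⟨P, hP0, fun x => ?_⟩
  have h3 : eval x (aeval Φ P) = 0 := by rw [hP, map_zero]
  rw [← h3, aeval_def, MvPolynomial.hom_eval₂]
  have h4 : (eval x).comp (algebraMap ℂ (MvPolynomial σ ℂ)) = RingHom.id ℂ := by
    ext z
    simp
  rw [h4]
  rfl
end Cea
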