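import Pool.Agent.Lib.MP_cea156_al.TDefs
import Pool.Agent.Lib.MP_cea156_al.T13
/-! T14: orbits are thin if `a² + b² + c² ≤ abc`. For `(P, Q, R)` invertible choose `P i₀ j₀ ≠ 0`, `Q k₀ l₀ ≠ 0` and rescale
(`P / P i₀ j₀`, `Q / Q k₀ l₀`, `R` times the product): the orbit is the union over `(i₀, j₀, k₀, l₀)` of images of polynomial maps
from a space of dimension `a² + b² + c² - 2 < abc`; `image_thin`; take the product of the polynomials. -/
namespace Cea
variable {a b c : ℕ}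

open MvPolynomial in
private theorem T14_piece (ha : 0 < a) (h : a ^ 2 + b ^ 2 + c ^ 2 ≤ a * b * c) (T₀ : Ten a b c)
    (z : Fin a × Fin a) :
    ∃ F : MvPolynomial (Fin a × Fin b × Fin c) ℂ, F ≠ 0 ∧
      ∀ (P : Matrix (Fin a) (Fin a) ℂ) (Q : Matrix (Fin b) (Fin b) ℂ) (R : Matrix (Fin c) (Fin c) ℂ),
        P z.1 z.2 = 1 →
        eval (fun p : Fin a × Fin b × Fin c =>
          ∑ i', ∑ j', ∑ k', P p.1 i' * Q p.2.1 j' * R p.2.2 k' * T₀ i' j' k') F = 0 := by
  have hcard : Fintype.card ({p : Fin a × Fin a // p ≠ z} ⊕ (Fin b × Fin b) ⊕ (Fin c × Fin c)) <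
      Fintype.card (Fin a × Fin b × Fin c) := by
    have h1 : Fintype.card {p : Fin a × Fin a // p ≠ z} = a * a - 1 := by
      have := Fintype.card_subtype_compl (fun p : Fin a × Fin a => p = z)
      simpa using this
    simp only [Fintype.card_sum, Fintype.card_prod, Fintype.card_fin, h1]
    have h2 : 0 < a * a := Nat.mul_pos ha ha
    have h3 : a * (b * c) = a * b * c := by ring
    rw [h3]
    have h4 : a ^ 2 = a * a := by ring
    have h5 : b ^ 2 = b * b := by ring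
    have h6 : c ^ 2 = c * c := by ring
    omega
  obtain ⟨F, hF, hF'⟩ := image_thin hcard (fun p : Fin a × Fin b × Fin c =>
    ∑ i', ∑ j', ∑ k', (if hh : (p.1, i') ≠ z then X (Sum.inl ⟨(p.1, i'), hh⟩) else 1) *
      X (Sum.inr (Sum.inl (p.2.1, j'))) * X (Sum.inr (Sum.inr (p.2.2, k'))) * C (T₀ i' j' k'))
  refine ⟨F, hF, fun P Q R hP => ?_⟩
  have key := hF' (Sum.elim (fun p => P p.1.1 p.1.2) (Sum.elim (fun p => Q p.1 p.2) (fun p => R p.1 p.2)))
  rw [← key]
  congr 1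
  congr 1
  funext p
  simp only [map_sum, map_mul, eval_X, eval_C, Sum.elim_inr, Sum.elim_inl]
  refine Finset.sum_congr rfl (fun i' _ => Finset.sum_congr rfl (fun j' _ =>
    Finset.sum_congr rfl (fun k' _ => ?_)))
  congr 3
  split_ifs with hh
  · simp
  · have hz : (p.1, i') = z := by
      by_contra hc
      exact hh hc
    rw [map_one, ← hP, ← hz]

theorem orbit_thin (ha : 0 < a) (hb : 0 < b) (hc : 0 < c) (h : a ^ 2 + b ^ 2 + c ^ 2 ≤ a * b * c) (T₀ : Ten a b c) :
    ∃ P : MvPolynomial (Fin a × Fin b × Fin c) ℂ, P ≠ 0 ∧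
      ∀ T : Ten a b c, GLeq T₀ T → MvPolynomial.eval (fun p => T p.1 p.2.1 p.2.2) P = 0 := by
  choose F hF hF' using T14_piece (b := b) (c := c) ha h T₀
  refine ⟨∏ z, F z, Finset.prod_ne_zero_iff.mpr (fun z _ => hF z), ?_⟩
  rintro T ⟨P, Q, R, hP, -, -, hT⟩
  have hex : ∃ z : Fin a × Fin a, P z.1 z.2 ≠ 0 := by
    by_contra hne
    push Not at hne
    have hP0 : P = 0 := by
      ext i j
      exact hne (i, j)
    haveI : Nonempty (Fin a) := ⟨⟨0, ha⟩⟩
    rw [hP0, Matrix.det_zero] at hP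
    · exact not_isUnit_zero hP
  obtain ⟨z, hz⟩ := hex
  rw [map_prod]
  refine Finset.prod_eq_zero (Finset.mem_univ z) ?_
  have key := hF' z ((P z.1 z.2)⁻¹ • P) Q ((P z.1 z.2) • R) (by simp [hz])
  rw [← key]
  congr 1
  congr 1
  funext p
  rw [hT]
  refine Finset.sum_congr rfl (fun i' _ => Finset.sum_congr rfl (fun j' _ =>
    Finset.sum_congr rfl (fun k' _ => ?_)))
  simp only [Matrix.smul_apply, smul_eq_mul]
  field_simp

end Cea
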