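import Pool.Agent.Lib.MP_cea156_al.T15
/-! T16: orbits in `(2, b, b)`, `b ≥ 4`, are thin; see the sketch in T15. -/
namespace Cea
variable {b : ℕ}

/-- homogeneity of the determinant of the pencil -/
private theorem T16_pen_smul (T : Ten 2 b b) (s x y : ℂ) : pen T (s * x) (s * y) = s ^ b * pen T x y := by
  have h : (Matrix.of fun j k => (s * x) * T 0 j k + (s * y) * T 1 j k) =
      s • (Matrix.of fun j k => x * T 0 j k + y * T 1 j k) := by
    ext j k
    simp only [Matrix.of_apply, Matrix.smul_apply, smul_eq_mul]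
    ring
  rw [pen, h, Matrix.det_smul, Fintype.card_fin, pen]

/-- every polynomial of degree at most `n + 1` is a product of `n + 1` linear factors, constants allowed -/
private theorem T16_factor : ∀ (n : ℕ) (q : Polynomial ℂ), q.natDegree ≤ n + 1 →
    ∃ u v : Fin (n + 1) → ℂ, ∀ y, q.eval y = ∏ j, (u j + y * v j)
  | 0, q, hq => by
      refine ⟨fun _ => q.coeff 0, fun _ => q.coeff 1, fun y => ?_⟩
      have h1 := congrArg (Polynomial.eval y) (Polynomial.eq_X_add_C_of_natDegree_le_one (p := q) (by simpa using hq))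
      simp only [Polynomial.eval_add, Polynomial.eval_mul, Polynomial.eval_C, Polynomial.eval_X] at h1
      rw [h1]
      simp
      ring
  | n + 1, q, hq => by
      by_cases h : q.natDegree ≤ n + 1
      · obtain ⟨u, v, huv⟩ := T16_factor n q h
        refine ⟨Fin.cons 1 u, Fin.cons 0 v, fun y => ?_⟩
        rw [Fin.prod_univ_succ]
        simp [huv y]
      · have hd : q.degree ≠ 0 := by
          intro h0
          have h1 : q.natDegree = 0 := Polynomial.natDegree_eq_of_degree_eq_some h0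
          omega
        obtain ⟨α, hα⟩ := IsAlgClosed.exists_root q hd
        obtain ⟨q', hq'⟩ := Polynomial.dvd_iff_isRoot.mpr hα
        have hq0 : q' ≠ 0 := by
          rintro rfl
          rw [mul_zero] at hq'
          rw [hq'] at h
          simp at h
        have hdeg : q'.natDegree ≤ n + 1 := by
          have h1 : q.natDegree = 1 + q'.natDegree := by
            rw [hq', Polynomial.natDegree_mul (Polynomial.X_sub_C_ne_zero α) hq0, Polynomial.natDegree_X_sub_C]
          omega
        obtain ⟨u, v, huv⟩ := T16_factor n q' hdeg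
        refine ⟨Fin.cons (-α) u, Fin.cons 1 v, fun y => ?_⟩
        rw [Fin.prod_univ_succ, hq', Polynomial.eval_mul, huv y, Polynomial.eval_sub, Polynomial.eval_X,
          Polynomial.eval_C, Fin.cons_zero, Fin.cons_zero]
        have e : y - α = -α + y * 1 := by ring
        rw [e]
        simp only [Fin.cons_succ]

/-- the determinant of the pencil takes arbitrary values at the points `(1, i)`, `i ≤ b` -/
private theorem T16_surj (hb : 1 ≤ b) (w : Fin (b + 1) → ℂ) :
    ∃ T : Ten 2 b b, ∀ i : Fin (b + 1), pen T 1 (i.val : ℂ) = w i := by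
  obtain ⟨n, rfl⟩ : ∃ n, b = n + 1 := ⟨b - 1, by omega⟩
  have hinj : Set.InjOn (fun i : Fin (n + 1 + 1) => (i.val : ℂ)) (Finset.univ : Finset (Fin (n + 1 + 1))) := by
    intro i _ j _ hij
    have h1 : (i.val : ℂ) = (j.val : ℂ) := hij
    exact Fin.ext (Nat.cast_injective h1)
  set q : Polynomial ℂ := Lagrange.interpolate Finset.univ (fun i : Fin (n + 1 + 1) => (i.val : ℂ)) w with hq
  have hdeg : q.natDegree ≤ n + 1 := by
    have h1 : q.degree < ((n + 1 + 1 : ℕ) : WithBot ℕ) := by
      have h0 := Lagrange.degree_interpolate_lt w hinj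
      rw [Finset.card_univ, Fintype.card_fin] at h0
      exact h0
    have h2 : q.natDegree < n + 1 + 1 := by
      by_cases h0 : q = 0
      · rw [h0]
        simp
      · exact (Polynomial.natDegree_lt_iff_degree_lt h0).mpr h1
    omega
  obtain ⟨u, v, huv⟩ := T16_factor n q hdeg
  refine ⟨fun i j k => if j = k then (if i = 0 then u j else v j) else 0, fun i => ?_⟩
  have h1 : (Matrix.of fun j k : Fin (n + 1) => (1 : ℂ) * (if j = k then (if (0 : Fin 2) = 0 then u j else v j) else 0)
      + (i.val : ℂ) * (if j = k then (if (1 : Fin 2) = 0 then u j else v j) else 0)) =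
      Matrix.diagonal (fun j => u j + (i.val : ℂ) * v j) := by
    ext j k
    by_cases hjk : j = k
    · subst hjk
      simp
    · simp [hjk]
  rw [pen, h1, Matrix.det_diagonal, ← huv]
  exact Lagrange.eval_interpolate_at_node w hinj (Finset.mem_univ i)

theorem orbit_thin_pencil (hb : 4 ≤ b) (T₀ : Ten 2 b b) :
    ∃ P : MvPolynomial (Fin 2 × Fin b × Fin b) ℂ, P ≠ 0 ∧
      ∀ T : Ten 2 b b, GLeq T₀ T → MvPolynomial.eval (fun p => T p.1 p.2.1 p.2.2) P = 0 := by
  classical
  let Φ : Fin (b + 1) → MvPolynomial (Fin 2 × Fin 2) ℂ := fun i =>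
    (Matrix.of fun j k : Fin b =>
      (MvPolynomial.X (0, 0) + MvPolynomial.C (i.val : ℂ) * MvPolynomial.X (1, 0)) * MvPolynomial.C (T₀ 0 j k) +
      (MvPolynomial.X (0, 1) + MvPolynomial.C (i.val : ℂ) * MvPolynomial.X (1, 1)) * MvPolynomial.C (T₀ 1 j k)).det
  have hΦ : ∀ (x : Fin 2 × Fin 2 → ℂ) (i : Fin (b + 1)), MvPolynomial.eval x (Φ i) =
      pen T₀ (x (0, 0) + (i.val : ℂ) * x (1, 0)) (x (0, 1) + (i.val : ℂ) * x (1, 1)) := by
    intro x i
    simp only [Φ, pen]
    rw [RingHom.map_det]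
    congr 1
    ext j k
    simp [Matrix.map_apply]
  let κ : Fin (b + 1) → MvPolynomial (Fin 2 × Fin b × Fin b) ℂ := fun i =>
    (Matrix.of fun j k : Fin b =>
      MvPolynomial.X (0, j, k) + MvPolynomial.C (i.val : ℂ) * MvPolynomial.X (1, j, k)).det
  have hκ : ∀ (T : Ten 2 b b) (i : Fin (b + 1)),
      MvPolynomial.eval (fun p : Fin 2 × Fin b × Fin b => T p.1 p.2.1 p.2.2) (κ i) = pen T 1 (i.val : ℂ) := by
    intro T i
    simp only [κ, pen]
    rw [RingHom.map_det]
    congr 1
    ext j k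
    simp [Matrix.map_apply]
  obtain ⟨P₁, hP₁, hz⟩ := image_thin (σ := Fin 2 × Fin 2) (τ := Fin (b + 1)) (by simp; omega) Φ
  have hev : ∀ T : Ten 2 b b, MvPolynomial.eval (fun p : Fin 2 × Fin b × Fin b => T p.1 p.2.1 p.2.2)
      (MvPolynomial.bind₁ κ P₁) = MvPolynomial.eval (fun i : Fin (b + 1) => pen T 1 (i.val : ℂ)) P₁ := by
    intro T
    have h1 := MvPolynomial.eval₂Hom_bind₁ (RingHom.id ℂ) (fun p : Fin 2 × Fin b × Fin b => T p.1 p.2.1 p.2.2) κ P₁
    have h2 : ∀ (σ : Type) (x : σ → ℂ) (p : MvPolynomial σ ℂ),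
        MvPolynomial.eval₂Hom (RingHom.id ℂ) x p = MvPolynomial.eval x p := fun _ _ _ => rfl
    rw [h2, h2] at h1
    rw [h1]
    congr 1
    congr 1
    funext i
    rw [h2]
    exact hκ T i
  refine ⟨MvPolynomial.bind₁ κ P₁, fun h0 => hP₁ ?_, fun T hT => ?_⟩
  · apply MvPolynomial.funext
    intro w
    obtain ⟨T, hT⟩ := T16_surj (b := b) (by omega) w
    have h1 := hev T
    rw [h0, map_zero] at h1
    rw [map_zero, h1]
    congr 2
    funext i
    exact (hT i).symm
  · obtain ⟨P, r, -, -, hpen⟩ := pen_GLeq hT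
    obtain ⟨s, hs⟩ := IsAlgClosed.exists_pow_nat_eq r (show 0 < b by omega)
    rw [hev T]
    have h1 : (fun i : Fin (b + 1) => pen T 1 (i.val : ℂ)) =
        fun i => MvPolynomial.eval (fun p : Fin 2 × Fin 2 => s * P p.1 p.2) (Φ i) := by
      funext i
      rw [hΦ, hpen, ← hs]
      have e1 : s * P 0 0 + (i.val : ℂ) * (s * P 1 0) = s * (1 * P 0 0 + (i.val : ℂ) * P 1 0) := by ring
      have e2 : s * P 0 1 + (i.val : ℂ) * (s * P 1 1) = s * (1 * P 0 1 + (i.val : ℂ) * P 1 1) := by ring
      rw [e1, e2, T16_pen_smul]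
    rw [h1]
    exact hz _
end Cea
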