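import Pool.Agent.Lib.MP_cea156_al.T05
/-! T08: arithmetic of mutation-cyclic triples. -/
namespace Cea
variable {a b c : ℕ}
theorem MC_two (h : MC a b c) : 2 ≤ a ∧ 2 ≤ b ∧ 2 ≤ c := h 0
theorem MC_rot (h : MC a b c) : MC b c a := fun m => (h (m + 1)).2.1
theorem MC_rev (h : MC a b c) : MC c b a := fun m => (h (m + 1)).2.2.1
theorem MC_cas (h : MC a b c) : MC (a * b - c) b a := fun m => (h (m + 1)).2.2.2

private theorem T08_aux (ha : 2 ≤ a) (hb : 2 ≤ b) (hc : 2 ≤ c)
    (h : a ^ 2 + b ^ 2 + c ^ 2 ≤ a * b * c + 4) :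
    2 ≤ a * b - c ∧ (a * b - c) ^ 2 + b ^ 2 + a ^ 2 ≤ (a * b - c) * b * a + 4 := by
  have hz : (a : ℤ) ^ 2 + (b : ℤ) ^ 2 + (c : ℤ) ^ 2 ≤ a * b * c + 4 := by exact_mod_cast h
  have ha' : (2 : ℤ) ≤ a := by exact_mod_cast ha
  have hb' : (2 : ℤ) ≤ b := by exact_mod_cast hb
  have hc' : (2 : ℤ) ≤ c := by exact_mod_cast hc
  have key : (2 : ℤ) ≤ (a : ℤ) * b - c := by
    by_contra hcon
    push Not at hcon
    have h1 : (a : ℤ) * b - c ≤ 1 := by linarith [Int.lt_iff_add_one_le.1 hcon]
    have h2 : (c : ℤ) * (a * b - c) ≥ a ^ 2 + b ^ 2 - 4 := by nlinarith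
    rcases lt_or_ge ((a : ℤ) * b - c) 1 with h3 | h3
    · have h4 : (a : ℤ) * b - c ≤ 0 := by linarith [Int.lt_iff_add_one_le.1 h3]
      nlinarith
    · have h5 : (a : ℤ) * b - c = 1 := le_antisymm h1 h3
      rw [h5] at h2
      have h6 : (c : ℤ) = a * b - 1 := by linarith
      nlinarith [sq_nonneg ((a : ℤ) - b)]
  have hle : c ≤ a * b := by
    have : (c : ℤ) ≤ a * b := by linarith
    exact_mod_cast this
  obtain ⟨d, hd⟩ : ∃ d, a * b = c + d := ⟨a * b - c, by omega⟩
  have hd1 : a * b - c = d := by omega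
  have hdz : (a : ℤ) * b = c + d := by exact_mod_cast hd
  rw [hd1]
  have hd2 : (2 : ℤ) ≤ d := by linarith
  refine ⟨by exact_mod_cast hd2, ?_⟩
  have hfin : (d : ℤ) ^ 2 + (b : ℤ) ^ 2 + (a : ℤ) ^ 2 ≤ d * b * a + 4 := by
    have h7 : (d : ℤ) * b * a = d * (c + d) := by rw [← hdz]; ring
    have h8 : (a : ℤ) * b * c = (c + d) * c := by rw [← hdz]
    rw [h7]
    rw [h8] at hz
    nlinarith
  exact_mod_cast hfin

/-- `t² - abt + a² + b² - C` has the roots `c`, `ab - c`; `C ≤ 4` and `a, b, c ≥ 2` give `ab - c ≥ 2`; `C` is invariant -/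
theorem MC_of_markov (ha : 2 ≤ a) (hb : 2 ≤ b) (hc : 2 ≤ c) (h : a ^ 2 + b ^ 2 + c ^ 2 ≤ a * b * c + 4) : MC a b c := by
  have key : ∀ (m a b c : ℕ), 2 ≤ a → 2 ≤ b → 2 ≤ c → a ^ 2 + b ^ 2 + c ^ 2 ≤ a * b * c + 4 →
      MCN m a b c := by
    intro m
    induction m with
    | zero => exact fun a b c h1 h2 h3 _ => ⟨h1, h2, h3⟩
    | succ m ih =>
      intro a b c h1 h2 h3 h4
      refine ⟨⟨h1, h2, h3⟩, ih b c a h2 h3 h1 ?_, ih c b a h3 h2 h1 ?_, ?_⟩
      · have e1 : b * c * a = a * b * c := by ring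
        rw [e1]
        omega
      · have e1 : c * b * a = a * b * c := by ring
        rw [e1]
        omega
      · obtain ⟨h5, h6⟩ := T08_aux h1 h2 h3 h4
        exact ih _ _ _ h5 h2 h1 h6
  exact fun m => key m a b c ha hb hc h

/-- `C` is convex in `c`; check `c = b` and `c = ab/2` -/
theorem min_arith (ha : 3 ≤ a) (hab : a ≤ b) (hbc : b ≤ c) (hc : 2 * c ≤ a * b) :
    a ^ 2 + b ^ 2 + c ^ 2 ≤ a * b * c := by
  have ha' : (3 : ℤ) ≤ a := by exact_mod_cast ha
  have hab' : (a : ℤ) ≤ b := by exact_mod_cast hab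
  have hbc' : (b : ℤ) ≤ c := by exact_mod_cast hbc
  have hc' : 2 * (c : ℤ) ≤ a * b := by exact_mod_cast hc
  have h1 : ((c : ℤ) - b) * (a * b - c - b) ≥ 0 := mul_nonneg (by linarith) (by linarith)
  have h2 : (b : ℤ) ^ 2 * (a - 3) ≥ 0 := mul_nonneg (by positivity) (by linarith)
  have h3 : (a : ℤ) ^ 2 ≤ b ^ 2 := by nlinarith
  have hfin : (a : ℤ) ^ 2 + (b : ℤ) ^ 2 + (c : ℤ) ^ 2 ≤ a * b * c := by nlinarith
  exact_mod_cast hfin

/-- descent: strong induction on `a + b + c`. If `ab < 2c` use `Two_cas` with `d = ab - c < c`; the other two directions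
by `Two_rot`; otherwise sort with `Two_rot`, `Two_rev` -/
theorem Two_of_min (hmin : ∀ a b c, MC a b c → a ≤ b → b ≤ c → 2 * c ≤ a * b → Two a b c) :
    ∀ a b c, MC a b c → Two a b c := by
  have key : ∀ (N a b c : ℕ), a + b + c ≤ N → MC a b c → Two a b c := by
    intro N
    induction N with
    | zero =>
      intro a b c h1 h2
      have := MC_two h2
      omega
    | succ N ih =>
      have step : ∀ a b c, a + b + c ≤ N + 1 → MC a b c → a * b < 2 * c → Two a b c := by
        intro a b c h1 h2 h3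
        have h4 := MC_cas h2
        have h5 := MC_two h4
        refine Two_cas (d := a * b - c) (by omega) (ih _ _ _ ?_ h4)
        omega
      intro a b c h1 h2
      by_cases h3 : a * b < 2 * c
      · exact step a b c h1 h2 h3
      by_cases h4 : b * c < 2 * a
      · exact Two_rot (step b c a (by omega) (MC_rot h2) h4)
      by_cases h5 : c * a < 2 * b
      · exact Two_rot (Two_rot (step c a b (by omega) (MC_rot (MC_rot h2)) h5))
      have e1 : b * a = a * b := mul_comm _ _
      have e2 : c * b = b * c := mul_comm _ _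
      have e3 : a * c = c * a := mul_comm _ _
      rcases le_total a b with hab | hab
      · rcases le_total b c with hbc | hbc
        · exact hmin a b c h2 hab hbc (by omega)
        · rcases le_total a c with hac | hac
          · -- a ≤ c ≤ b
            refine Two_rev (Two_rot (Two_rot ?_))
            exact hmin a c b (MC_rot (MC_rot (MC_rev h2))) hac hbc (by omega)
          · -- c ≤ a ≤ b
            refine Two_rot (Two_rot ?_)
            exact hmin c a b (MC_rot (MC_rot h2)) hac hab (by omega)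
      · rcases le_total a c with hac | hac
        · -- b ≤ a ≤ c
          refine Two_rev (Two_rot ?_)
          exact hmin b a c (MC_rot (MC_rev h2)) hab hac (by omega)
        · rcases le_total b c with hbc | hbc
          · -- b ≤ c ≤ a
            refine Two_rot ?_
            exact hmin b c a (MC_rot h2) hbc hac (by omega)
          · -- c ≤ b ≤ a
            refine Two_rev ?_
            exact hmin c b a (MC_rev h2) hbc hab (by omega)
  exact fun a b c h => key _ a b c le_rfl h
end Cea
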