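import Pool.Agent.Lib.MP_cea156_al.TDefs
/-! T17: the dimension of the Lie stabiliser. `stab_cas`: both stabilisers are isomorphic to the space of pairs `(X, Y)` such that
`X ⊗ 1 + 1 ⊗ Y` preserves the span of the slices of `T` (resp. `-Xᵀ, -Yᵀ` preserves its annihilator); `Z` is determined by `(X, Y)` as
the slices are independent. -/
namespace Cea
variable {a b c d : ℕ}

private theorem T17_ker {E₁ E₂ F₁ F₂ : Type} [AddCommGroup E₁] [Module ℂ E₁] [AddCommGroup E₂] [Module ℂ E₂]
    [AddCommGroup F₁] [Module ℂ F₁] [AddCommGroup F₂] [Module ℂ F₂] (e : E₁ ≃ₗ[ℂ] E₂) (f : E₁ →ₗ[ℂ] F₁)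
    (g : E₂ →ₗ[ℂ] F₂) (h : ∀ x, f x = 0 ↔ g (e x) = 0) :
    Module.finrank ℂ (LinearMap.ker f) = Module.finrank ℂ (LinearMap.ker g) := by
  have h1 : (LinearMap.ker f).map (e : E₁ →ₗ[ℂ] E₂) = LinearMap.ker g := by
    ext y
    rw [Submodule.mem_map]
    constructor
    · rintro ⟨x, hx, rfl⟩
      exact (h x).1 hx
    · intro hy
      refine ⟨e.symm y, ?_, ?_⟩
      · rw [LinearMap.mem_ker, h]
        simpa using hy
      · simp
  rw [← h1]
  exact (LinearEquiv.finrank_map_eq e _).symm

private def T17_rot (A B C : Type) [AddCommGroup A] [Module ℂ A] [AddCommGroup B] [Module ℂ B]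
    [AddCommGroup C] [Module ℂ C] : (B × C × A) ≃ₗ[ℂ] (A × B × C) where
  toFun g := (g.2.2, g.1, g.2.1)
  invFun g := (g.2.1, g.2.2, g.1)
  map_add' _ _ := rfl
  map_smul' _ _ := rfl
  left_inv _ := rfl
  right_inv _ := rfl

private def T17_rev (A B C : Type) [AddCommGroup A] [Module ℂ A] [AddCommGroup B] [Module ℂ B]
    [AddCommGroup C] [Module ℂ C] : (C × B × A) ≃ₗ[ℂ] (A × B × C) where
  toFun g := (g.2.2, g.2.1, g.1)
  invFun g := (g.2.2, g.2.1, g.1)
  map_add' _ _ := rfl
  map_smul' _ _ := rfl
  left_inv _ := rfl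
  right_inv _ := rfl

theorem stab_rot (T : Ten a b c) : stab (rot T) = stab T := by
  unfold stab
  refine T17_ker (T17_rot _ _ _) _ _ fun x => ?_
  obtain ⟨Y, Z, X⟩ := x
  constructor
  · intro h
    funext i j k
    have h1 := congrFun (congrFun (congrFun h j) k) i
    simp only [actL, LinearMap.coe_mk, AddHom.coe_mk, act, rot, Pi.zero_apply] at h1
    show act X Y Z T i j k = 0
    unfold act
    rw [← h1]
    ring
  · intro h
    funext j k i
    have h1 : act X Y Z T i j k = 0 := congrFun (congrFun (congrFun h i) j) k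
    show act Y Z X (rot T) j k i = 0
    unfold act at h1 ⊢
    simp only [rot]
    rw [← h1]
    ring

theorem stab_rev (T : Ten a b c) : stab (rev T) = stab T := by
  unfold stab
  refine T17_ker (T17_rev _ _ _) _ _ fun x => ?_
  obtain ⟨Z, Y, X⟩ := x
  constructor
  · intro h
    funext i j k
    have h1 : act Z Y X (rev T) k j i = 0 := congrFun (congrFun (congrFun h k) j) i
    show act X Y Z T i j k = 0
    unfold act at h1 ⊢
    simp only [rev] at h1
    rw [← h1]
    ring
  · intro h
    funext k j i
    have h1 : act X Y Z T i j k = 0 := congrFun (congrFun (congrFun h i) j) k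
    show act Z Y X (rev T) k j i = 0
    unfold act at h1 ⊢
    simp only [rev]
    rw [← h1]
    ring

/-- vectors orthogonal to all slices of `T` are combinations of the slices of `S` -/
private theorem T17_ann {T : Ten a b c} {S : Ten d b a} (h : Cas T S) (v : Fin a × Fin b → ℂ)
    (hv : ∀ k, ∑ p : Fin a × Fin b, T p.1 p.2 k * v p = 0) :
    ∃ x : Fin d → ℂ, ∀ p : Fin a × Fin b, ∑ l, x l * S l p.2 p.1 = v p := by
  obtain ⟨hcd, hT, hS, hann⟩ := h
  set M : Matrix (Fin c) (Fin a × Fin b) ℂ := Matrix.of fun k p => T p.1 p.2 k with hM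
  have hrow : LinearIndependent ℂ M.row := hT
  have hrk := hrow.rank_matrix
  rw [Fintype.card_fin] at hrk
  have hrn := LinearMap.finrank_range_add_finrank_ker M.mulVecLin
  have hker : Module.finrank ℂ (LinearMap.ker M.mulVecLin) = d := by
    have h1 : Module.finrank ℂ (LinearMap.range M.mulVecLin) = c := hrk
    rw [h1, Module.finrank_fintype_fun_eq_card, Fintype.card_prod, Fintype.card_fin, Fintype.card_fin] at hrn
    omega
  have hspan : Submodule.span ℂ (Set.range fun l : Fin d => fun p : Fin a × Fin b => S l p.2 p.1) =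
      LinearMap.ker M.mulVecLin := by
    apply Submodule.eq_of_le_of_finrank_eq
    · rw [Submodule.span_le]
      rintro _ ⟨l, rfl⟩
      rw [SetLike.mem_coe, LinearMap.mem_ker]
      funext k
      rw [Matrix.mulVecLin_apply]
      simp only [Matrix.mulVec, dotProduct, hM, Matrix.of_apply, Pi.zero_apply]
      rw [← hann l k, Fintype.sum_prod_type]
      refine Finset.sum_congr rfl fun i _ => Finset.sum_congr rfl fun j _ => ?_
      ring
    · rw [hker, finrank_span_eq_card hS, Fintype.card_fin]
  have hmem : v ∈ LinearMap.ker M.mulVecLin := by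
    rw [LinearMap.mem_ker]
    funext k
    rw [Matrix.mulVecLin_apply]
    simp only [Matrix.mulVec, dotProduct, hM, Matrix.of_apply, Pi.zero_apply]
    exact hv k
  rw [← hspan, Submodule.mem_span_range_iff_exists_fun] at hmem
  obtain ⟨x, hx⟩ := hmem
  refine ⟨x, fun p => ?_⟩
  have := congrFun hx p
  simpa [Finset.sum_apply, Pi.smul_apply, smul_eq_mul] using this

private theorem T17_le {T : Ten a b c} {S : Ten d b a} (h : Cas T S) : stab T ≤ stab S := by
  have hT := h.2.1
  have hann := h.2.2.2
  unfold stab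
  set πT : (Matrix (Fin a) (Fin a) ℂ × Matrix (Fin b) (Fin b) ℂ × Matrix (Fin c) (Fin c) ℂ) →ₗ[ℂ]
      (Matrix (Fin a) (Fin a) ℂ × Matrix (Fin b) (Fin b) ℂ) :=
    { toFun := fun g => (g.1, g.2.1), map_add' := fun _ _ => rfl, map_smul' := fun _ _ => rfl } with hπT
  set πS : (Matrix (Fin d) (Fin d) ℂ × Matrix (Fin b) (Fin b) ℂ × Matrix (Fin a) (Fin a) ℂ) →ₗ[ℂ]
      (Matrix (Fin a) (Fin a) ℂ × Matrix (Fin b) (Fin b) ℂ) :=
    { toFun := fun g => (-g.2.2.transpose, -g.2.1.transpose)
      map_add' := fun x y => by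
        ext <;> simp [add_comm]
      map_smul' := fun r x => by
        ext <;> simp } with hπS
  set f := πT.domRestrict (LinearMap.ker (actL T)) with hf
  have hinj : Function.Injective f := by
    rw [← LinearMap.ker_eq_bot, LinearMap.ker_eq_bot']
    rintro ⟨⟨X, Y, Z⟩, hx⟩ h0
    have h1 : X = 0 := congrArg Prod.fst h0
    have h2 : Y = 0 := congrArg Prod.snd h0
    subst h1 h2
    have h3 : ∀ i j k, act 0 0 Z T i j k = 0 := fun i j k => congrFun (congrFun (congrFun hx i) j) k
    have h4 : Z = 0 := by
      ext k k'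
      have h5 := Fintype.linearIndependent_iff.mp hT (fun k' => Z k k') (by
        funext p
        have := h3 p.1 p.2 k
        simp only [act, Matrix.zero_apply, zero_mul, Finset.sum_const_zero, zero_add] at this
        simpa [Finset.sum_apply, Pi.smul_apply, smul_eq_mul] using this)
      exact h5 k'
    subst h4
    rfl
  have hle : LinearMap.range f ≤ (LinearMap.ker (actL S)).map πS := by
    rintro _ ⟨⟨⟨X, Y, Z⟩, hx⟩, rfl⟩
    have h3 : ∀ i j k, act X Y Z T i j k = 0 := fun i j k => congrFun (congrFun (congrFun hx i) j) k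
    -- the combination
    have hex : ∀ l : Fin d, ∃ x : Fin d → ℂ, ∀ p : Fin a × Fin b, ∑ l', x l' * S l' p.2 p.1 =
        ∑ j', Y j' p.2 * S l j' p.1 + ∑ i', X i' p.1 * S l p.2 i' := by
      intro l
      refine T17_ann h _ fun k => ?_
      have e1 : ∑ p : Fin a × Fin b, T p.1 p.2 k * (∑ j', Y j' p.2 * S l j' p.1 + ∑ i', X i' p.1 * S l p.2 i') =
          ∑ i, ∑ j, S l j i * (∑ i', X i i' * T i' j k + ∑ j', Y j j' * T i j' k) := by
        rw [Fintype.sum_prod_type]
        simp only [mul_add, Finset.mul_sum, Finset.sum_add_distrib]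
        rw [add_comm]
        congr 1
        · -- X part
          rw [Finset.sum_comm]
          conv_rhs => rw [Finset.sum_comm]
          refine Finset.sum_congr rfl fun j _ => ?_
          rw [Finset.sum_comm]
          refine Finset.sum_congr rfl fun i _ => Finset.sum_congr rfl fun i' _ => ?_
          ring
        · refine Finset.sum_congr rfl fun i _ => ?_
          rw [Finset.sum_comm]
          refine Finset.sum_congr rfl fun j _ => Finset.sum_congr rfl fun j' _ => ?_
          ring
      rw [e1]
      have e2 : ∀ i j, ∑ i', X i i' * T i' j k + ∑ j', Y j j' * T i j' k = -∑ k', Z k k' * T i j k' := by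
        intro i j
        have := h3 i j k
        unfold act at this
        linear_combination this
      simp_rw [e2]
      have e3 : ∑ i, ∑ j, S l j i * (-∑ k', Z k k' * T i j k') = -∑ k', Z k k' * ∑ i, ∑ j, S l j i * T i j k' := by
        simp only [Finset.mul_sum, mul_neg, Finset.sum_neg_distrib]
        congr 1
        conv_rhs => rw [Finset.sum_comm]
        refine Finset.sum_congr rfl fun i _ => ?_
        rw [Finset.sum_comm]
        refine Finset.sum_congr rfl fun k' _ => Finset.sum_congr rfl fun j _ => ?_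
        ring
      rw [e3]
      simp [hann]
    choose x hx' using hex
    refine ⟨(Matrix.of x, -Y.transpose, -X.transpose), ?_, ?_⟩
    · rw [SetLike.mem_coe, LinearMap.mem_ker]
      funext l j i
      show act (Matrix.of x) (-Y.transpose) (-X.transpose) S l j i = 0
      unfold act
      have := hx' l (i, j)
      simp only at this
      simp only [Matrix.of_apply, Matrix.neg_apply, Matrix.transpose_apply, neg_mul, Finset.sum_neg_distrib]
      rw [this]
      ring
    · show (-(-X.transpose).transpose, -(-Y.transpose).transpose) = (X, Y)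
      simp
  calc Module.finrank ℂ (LinearMap.ker (actL T)) = Module.finrank ℂ (LinearMap.range f) :=
        (LinearMap.finrank_range_of_inj hinj).symm
    _ ≤ Module.finrank ℂ ((LinearMap.ker (actL S)).map πS) := Submodule.finrank_mono hle
    _ ≤ Module.finrank ℂ (LinearMap.ker (actL S)) := Submodule.finrank_map_le _ _

theorem stab_cas {T : Ten a b c} {S : Ten d b a} (h : Cas T S) : stab S = stab T := by
  apply le_antisymm _ (T17_le h)
  have h' : Cas (rev S) (rev T) := by
    obtain ⟨h1, h2, h3, h4⟩ := h
    refine ⟨by omega, h3, h2, fun k l => ?_⟩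
    rw [← h4 l k]
    refine Finset.sum_congr rfl fun i _ => Finset.sum_congr rfl fun j _ => ?_
    simp only [rev]
    ring
  have := T17_le h'
  rwa [stab_rev, stab_rev] at this

end Cea
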