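import Pool.Agent.Lib.MP_cea156_al.TDefs
/-! T18: if the slices are dependent, `∑ k, v k * T i j k = 0` with `v ≠ 0`, then `∑ k, v k * (g · T) i j k` lies in the span of the
slices, of dimension `≤ c - 1`, so the rank of `actL T` is at most `abc - (ab - (c - 1))`. -/
namespace Cea
variable {a b c : ℕ}

/-- contraction of the third index with a vector -/
private def T18_pi (g : Fin c → ℂ) : Ten a b c →ₗ[ℂ] (Fin a × Fin b → ℂ) where
  toFun S := fun p => ∑ k, g k * S p.1 p.2 k
  map_add' S S' := by
    funext p
    simp only [Pi.add_apply, mul_add, Finset.sum_add_distrib]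
  map_smul' r S := by
    funext p
    simp only [Pi.smul_apply, smul_eq_mul, RingHom.id_apply, Finset.mul_sum]
    apply Finset.sum_congr rfl
    intro k _
    ring

private theorem T18_surj (g : Fin c → ℂ) (k0 : Fin c) (hk : g k0 ≠ 0) :
    Function.Surjective (T18_pi (a := a) (b := b) g) := by
  intro u
  refine ⟨fun i j k => if k = k0 then u (i, j) / g k0 else 0, ?_⟩
  funext p
  show ∑ k, g k * (if k = k0 then u (p.1, p.2) / g k0 else 0) = u p
  simp only [mul_ite, mul_zero, Finset.sum_ite_eq', Finset.mem_univ, if_true]
  field_simp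

private theorem T18_finrank_ten : Module.finrank ℂ (Ten a b c) = a * b * c := by
  have h : Module.finrank ℂ (Fin a → Fin b → Fin c → ℂ) = a * b * c := by
    rw [Module.finrank_pi_fintype, Finset.sum_congr rfl (fun (_ : Fin a) _ => Module.finrank_pi_fintype ℂ)]
    simp [mul_assoc]
  exact h

theorem stab_not_inj (T : Ten a b c) (h : ¬ Inj T) :
    a ^ 2 + b ^ 2 + c ^ 2 + a * b + 1 ≤ stab T + a * b * c + c := by
  set s : Fin c → (Fin a × Fin b → ℂ) := fun k p => T p.1 p.2 k with hs
  have hns : ¬ LinearIndependent ℂ s := h
  obtain ⟨g, hg, k0, hk0⟩ := Fintype.not_linearIndependent_iff.1 hns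
  have hg' : ∀ i j, ∑ k, g k * T i j k = 0 := by
    intro i j
    have := congrFun hg (i, j)
    simpa [hs, Finset.sum_apply] using this
  have h1 : Module.finrank ℂ (LinearMap.range (T18_pi (a := a) (b := b) g)) = a * b := by
    rw [LinearMap.range_eq_top.2 (T18_surj g k0 hk0), finrank_top]
    simp
  have h2 := LinearMap.finrank_range_add_finrank_ker (T18_pi (a := a) (b := b) g)
  rw [h1, T18_finrank_ten] at h2
  have h3 := LinearMap.finrank_range_add_finrank_ker (actL T)
  have h4 : Module.finrank ℂ (Matrix (Fin a) (Fin a) ℂ × Matrix (Fin b) (Fin b) ℂ ×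
      Matrix (Fin c) (Fin c) ℂ) = a ^ 2 + b ^ 2 + c ^ 2 := by
    rw [Module.finrank_prod, Module.finrank_prod, Module.finrank_matrix, Module.finrank_matrix,
      Module.finrank_matrix]
    simp
    ring
  rw [h4] at h3
  set R := LinearMap.range (actL T) with hR
  set f := (T18_pi (a := a) (b := b) g).domRestrict R with hf
  have h5 := LinearMap.finrank_range_add_finrank_ker f
  have h6 : Module.finrank ℂ (LinearMap.range f) + 1 ≤ c := by
    have hle : LinearMap.range f ≤ Submodule.span ℂ (Set.range s) := by
      rintro _ ⟨⟨_, ⟨x, rfl⟩⟩, rfl⟩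
      have hx : f ⟨actL T x, ⟨x, rfl⟩⟩ = ∑ k', (∑ k, g k * x.2.2 k k') • s k' := by
        funext p
        show ∑ k, g k * (∑ i', x.1 p.1 i' * T i' p.2 k + ∑ j', x.2.1 p.2 j' * T p.1 j' k
          + ∑ k', x.2.2 k k' * T p.1 p.2 k') = _
        simp only [mul_add, Finset.sum_add_distrib, Finset.sum_apply, Pi.smul_apply,
          smul_eq_mul]
        have e1 : ∑ k, g k * ∑ i', x.1 p.1 i' * T i' p.2 k = 0 := by
          simp only [Finset.mul_sum]
          rw [Finset.sum_comm]
          apply Finset.sum_eq_zero
          intro i' _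
          have := hg' i' p.2
          calc _ = x.1 p.1 i' * ∑ k, g k * T i' p.2 k := by
                rw [Finset.mul_sum]
                exact Finset.sum_congr rfl (fun _ _ => by ring)
            _ = 0 := by rw [this, mul_zero]
        have e2 : ∑ k, g k * ∑ j', x.2.1 p.2 j' * T p.1 j' k = 0 := by
          simp only [Finset.mul_sum]
          rw [Finset.sum_comm]
          apply Finset.sum_eq_zero
          intro j' _
          have := hg' p.1 j'
          calc _ = x.2.1 p.2 j' * ∑ k, g k * T p.1 j' k := by
                rw [Finset.mul_sum]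
                exact Finset.sum_congr rfl (fun _ _ => by ring)
            _ = 0 := by rw [this, mul_zero]
        rw [e1, e2, zero_add, zero_add]
        simp only [Finset.mul_sum, Finset.sum_mul, hs]
        rw [Finset.sum_comm]
        exact Finset.sum_congr rfl (fun _ _ => Finset.sum_congr rfl (fun _ _ => by ring))
      rw [hx]
      exact Submodule.sum_mem _ (fun k' _ => Submodule.smul_mem _ _
        (Submodule.subset_span ⟨k', rfl⟩))
    have hlt : (Set.range s).finrank ℂ < c := by
      by_contra hcon
      apply hns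
      rw [linearIndependent_iff_card_le_finrank_span, Fintype.card_fin]
      omega
    exact lt_of_le_of_lt (Submodule.finrank_mono hle) hlt
  have h7 : Module.finrank ℂ (LinearMap.ker f)
      ≤ Module.finrank ℂ (LinearMap.ker (T18_pi (a := a) (b := b) g)) := by
    rw [← Submodule.finrank_map_subtype_eq R (LinearMap.ker f)]
    apply Submodule.finrank_mono
    rintro _ ⟨y, hy, rfl⟩
    exact hy
  unfold stab
  omega
end Cea
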