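import Pool.Agent.Lib.MP_cea156_al.T05
import Pool.Agent.Lib.MP_cea156_al.T08
import Pool.Agent.Lib.MP_cea156_al.T17
import Pool.Agent.Lib.MP_cea156_al.T18
/-! T19: small stabiliser implies non-degenerate (DONE here, uses T05, T08, T17, T18). -/
namespace Cea

theorem NdN_of_stab : ∀ (m : ℕ) {a b c : ℕ} (T : Ten a b c), MC a b c →
    stab T + a * b * c ≤ a ^ 2 + b ^ 2 + c ^ 2 + 2 → NdN m a b c T := by
  have hinj : ∀ {a b c : ℕ} (T : Ten a b c), MC a b c →
      stab T + a * b * c ≤ a ^ 2 + b ^ 2 + c ^ 2 + 2 → Inj T := by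
    intro a b c T h hs
    by_contra hT
    have h1 := stab_not_inj T hT
    have h2 := MC_two (MC_cas h)
    omega
  intro m
  induction m with
  | zero =>
    intro a b c T h hs
    exact hinj T h hs
  | succ m ih =>
    intro a b c T h hs
    refine ⟨hinj T h hs, ih (rot T) (MC_rot h) ?_, ih (rev T) (MC_rev h) ?_, fun d S hS => ?_⟩
    · rw [stab_rot]
      have : b * c * a = a * b * c := by ring
      rw [this]
      omega
    · rw [stab_rev]
      have : c * b * a = a * b * c := by ring
      rw [this]
      omega
    · have h2 := MC_two (MC_cas h)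
      have hd : d = a * b - c := by
        have := hS.1
        omega
      subst hd
      refine ih S (MC_cas h) ?_
      rw [stab_cas hS]
      obtain ⟨d, hd⟩ : ∃ d, a * b - c = d := ⟨_, rfl⟩
      have e : a * b = c + d := by omega
      rw [hd]
      have e2 : a * b * c = c ^ 2 + d * c := by rw [e]; ring
      have e3 : d * b * a = d ^ 2 + d * c := by
        have : d * b * a = d * (a * b) := by ring
        rw [this, e]
        ring
      rw [e2] at hs
      rw [e3]
      omega

theorem Nd_of_stab {a b c : ℕ} (T : Ten a b c) (h : MC a b c)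
    (hs : stab T + a * b * c ≤ a ^ 2 + b ^ 2 + c ^ 2 + 2) : Nd T := fun m => NdN_of_stab m T h hs

end Cea
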