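import Pool.Agent.Lib.MP_cea156_al.T15
/-! T20: explicit tensors in `(2,2,2)`: `G = x_0 y_0 z_0 + x_1 y_1 z_1` (`pen = xy`), `W = x_0 (y_0 z_1 + y_1 z_0) + x_1 y_0 z_0` (`pen = -x²`).
The stabilisers have dimension 4 and 5; only upper bounds are needed: a linear map (some coordinates of `(X,Y,Z)`) to `ℂ^6` is
injective on the kernel of `actL`. Inequivalence: `pen` of `W` vanishes on one line only. -/
namespace Cea
def G22 : Ten 2 2 2 := fun i j k => if i = j ∧ j = k then 1 else 0
def W22 : Ten 2 2 2 := fun i j k => if i.1 + j.1 + k.1 = 1 then 1 else 0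

/-- coordinate functionals on triples of matrices -/
theorem T20_le {a b c : ℕ} (T : Ten a b c)
    (g : (Matrix (Fin a) (Fin a) ℂ × Matrix (Fin b) (Fin b) ℂ × Matrix (Fin c) (Fin c) ℂ) →ₗ[ℂ] (Fin 6 → ℂ))
    (h : ∀ X Y Z, act X Y Z T = 0 → g (X, Y, Z) = 0 → X = 0 ∧ Y = 0 ∧ Z = 0) : stab T ≤ 6 := by
  have hinj : Function.Injective (g.domRestrict (LinearMap.ker (actL T))) := by
    rw [← LinearMap.ker_eq_bot, LinearMap.ker_eq_bot']
    rintro ⟨⟨X, Y, Z⟩, hm⟩ hg
    have h1 : act X Y Z T = 0 := hm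
    have h2 : g (X, Y, Z) = 0 := hg
    obtain ⟨hX, hY, hZ⟩ := h X Y Z h1 h2
    subst hX hY hZ
    rfl
  have := LinearMap.finrank_le_finrank_of_injective hinj
  simpa [stab] using this

theorem stab_G22 : stab G22 ≤ 6 := by
  refine T20_le G22
    { toFun := fun p => ![p.1 0 0, p.1 1 1, p.2.1 0 0, p.2.1 1 1, p.2.2 0 0, p.2.2 1 1]
      map_add' := ?_
      map_smul' := ?_ } ?_
  · intro p q
    ext i
    fin_cases i <;> simp
  · intro r p
    ext i
    fin_cases i <;> simp
  · intro X Y Z h hg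
    have e : ∀ i j k, act X Y Z G22 i j k = 0 := fun i j k => by rw [h]; rfl
    have g0 := congrFun hg 0
    have g1 := congrFun hg 1
    have g2 := congrFun hg 2
    have g3 := congrFun hg 3
    have g4 := congrFun hg 4
    have g5 := congrFun hg 5
    have a1 := e 0 1 1
    have a2 := e 1 0 0
    have a3 := e 0 1 0
    have a4 := e 1 0 1
    have a5 := e 0 0 1
    have a6 := e 1 1 0
    simp [act, G22, Fin.sum_univ_two] at a1 a2 a3 a4 a5 a6 g0 g1 g2 g3 g4 g5
    refine ⟨?_, ?_, ?_⟩ <;> (ext i j; fin_cases i <;> fin_cases j <;> simp [*])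

theorem stab_W22 : stab W22 ≤ 6 := by
  refine T20_le W22
    { toFun := fun p => ![p.1 0 0, p.2.1 0 0, p.2.2 0 0, p.1 0 1, p.2.1 0 1, p.2.2 0 1]
      map_add' := ?_
      map_smul' := ?_ } ?_
  · intro p q
    ext i
    fin_cases i <;> simp
  · intro r p
    ext i
    fin_cases i <;> simp
  · intro X Y Z h hg
    have e : ∀ i j k, act X Y Z W22 i j k = 0 := fun i j k => by rw [h]; rfl
    have g0 := congrFun hg 0
    have g1 := congrFun hg 1
    have g2 := congrFun hg 2
    have g3 := congrFun hg 3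
    have g4 := congrFun hg 4
    have g5 := congrFun hg 5
    have a1 := e 0 1 1
    have a2 := e 1 0 0
    have a3 := e 0 1 0
    have a4 := e 1 0 1
    have a5 := e 0 0 1
    have a6 := e 1 1 0
    simp [act, W22, Fin.sum_univ_two] at a1 a2 a3 a4 a5 a6 g0 g1 g2 g3 g4 g5
    have b1 : X 1 0 = 0 := by linear_combination (a4 + a6 - a1) / 2
    have b2 : Y 1 0 = 0 := by linear_combination (a1 + a6 - a4) / 2
    have b3 : Z 1 0 = 0 := by linear_combination (a1 + a4 - a6) / 2
    have b4 : Z 1 1 = 0 := by linear_combination a5 - g0 - g1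
    have b5 : Y 1 1 = 0 := by linear_combination a3 - g0 - g2
    have b6 : X 1 1 = 0 := by linear_combination a2 - g1 - g2
    refine ⟨?_, ?_, ?_⟩ <;> (ext i j; fin_cases i <;> fin_cases j <;> simp [*])

theorem G22_W22 : ¬ GLeq G22 W22 := by
  intro h
  obtain ⟨P, r, hP, hr, hx⟩ := pen_GLeq h
  have hG : ∀ x y, pen G22 x y = x * y := by
    intro x y
    simp [pen, G22, Matrix.det_fin_two]
  have hW : ∀ x y, pen W22 x y = - (x * x) := by
    intro x y
    simp [pen, W22, Matrix.det_fin_two]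
  simp only [hG, hW] at hx
  have h1 := hx 0 1
  have h2 := hx 1 1
  have h3 := hx 1 (-1)
  have hd : P 0 0 * P 1 1 - P 0 1 * P 1 0 ≠ 0 := by
    rw [← Matrix.det_fin_two]
    exact hP.ne_zero
  have h4 : P 1 0 * P 1 1 = 0 := by
    have : r * (P 1 0 * P 1 1) = 0 := by linear_combination -h1
    exact (mul_eq_zero.mp this).resolve_left hr
  have h5 : P 0 0 * P 1 1 + P 1 0 * P 0 1 = 0 := by
    have : r * (P 0 0 * P 1 1 + P 1 0 * P 0 1) = 0 := by linear_combination (h3 - h2) / 2
    exact (mul_eq_zero.mp this).resolve_left hr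
  rcases mul_eq_zero.mp h4 with h6 | h6
  · apply hd
    rw [h6] at h5 ⊢
    linear_combination h5
  · apply hd
    rw [h6] at h5 ⊢
    linear_combination -h5
end Cea
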