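import Pool.Agent.Lib.MP_cea156_al.T15
/-! T21: explicit tensors in `(2,3,3)`: `G = x_0 y_0 z_0 + x_1 y_1 z_1 + (x_0 + x_1) y_2 z_2` (`pen = xy(x+y)`),
`H = x_0 (y_0 z_0 + y_1 z_1) + x_1 (y_0 z_1 + y_2 z_2)` (`pen = x²y`). The stabilisers have dimension 4 and 5; only the upper
bound 6 is needed. Inequivalence: three zero lines against two (pigeonhole). -/
namespace Cea
def G33 : Ten 2 3 3 := fun i j k =>
  if j ≠ k then 0 else if j = 2 then 1 else if i.1 = j.1 then 1 else 0
def H33 : Ten 2 3 3 := fun i j k =>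
  if i = 0 then (if j = k ∧ j ≠ 2 then 1 else 0) else (if (j = 0 ∧ k = 1) ∨ (j = 2 ∧ k = 2) then 1 else 0)

/-- a linear map which is injective on the stabiliser bounds its dimension -/
private theorem T21_stab_le {a b c m : ℕ} (T : Ten a b c)
    (f : (Matrix (Fin a) (Fin a) ℂ × Matrix (Fin b) (Fin b) ℂ × Matrix (Fin c) (Fin c) ℂ) →ₗ[ℂ] (Fin m → ℂ))
    (h : ∀ X Y Z, act X Y Z T = 0 → f (X, Y, Z) = 0 → X = 0 ∧ Y = 0 ∧ Z = 0) : stab T ≤ m := by
  have hinj : Function.Injective (f ∘ₗ (LinearMap.ker (actL T)).subtype) := by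
    rw [← LinearMap.ker_eq_bot, LinearMap.ker_eq_bot']
    rintro ⟨⟨X, Y, Z⟩, hm⟩ h0
    have hm' : act X Y Z T = 0 := hm
    obtain ⟨h1, h2, h3⟩ := h X Y Z hm' h0
    subst h1 h2 h3
    rfl
  have := LinearMap.finrank_le_finrank_of_injective hinj
  simpa [stab] using this

/-- coordinates on the stabilisers -/
private def T21_f : (Matrix (Fin 2) (Fin 2) ℂ × Matrix (Fin 3) (Fin 3) ℂ × Matrix (Fin 3) (Fin 3) ℂ) →ₗ[ℂ]
    (Fin 6 → ℂ) where
  toFun g := ![g.1 0 0, g.2.1 0 0, g.2.1 1 1, g.2.1 2 2, g.2.1 0 1, 0]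
  map_add' g h := by
    funext i
    fin_cases i <;> simp
  map_smul' r g := by
    funext i
    fin_cases i <;> simp

private theorem T21_f0 {X : Matrix (Fin 2) (Fin 2) ℂ} {Y Z : Matrix (Fin 3) (Fin 3) ℂ} (h : T21_f (X, Y, Z) = 0) :
    X 0 0 = 0 ∧ Y 0 0 = 0 ∧ Y 1 1 = 0 ∧ Y 2 2 = 0 ∧ Y 0 1 = 0 := by
  refine ⟨?_, ?_, ?_, ?_, ?_⟩
  · exact congrFun h 0
  · exact congrFun h 1
  · exact congrFun h 2
  · exact congrFun h 3
  · exact congrFun h 4

theorem stab_G33 : stab G33 ≤ 6 := by
  refine T21_stab_le G33 T21_f fun X Y Z h h0 => ?_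
  obtain ⟨f0, f1, f2, f3, f4⟩ := T21_f0 h0
  have e : ∀ i j k, act X Y Z G33 i j k = 0 := fun i j k => congrFun (congrFun (congrFun h i) j) k
  have e000 := e 0 0 0
  have e001 := e 0 0 1
  have e002 := e 0 0 2
  have e010 := e 0 1 0
  have e011 := e 0 1 1
  have e012 := e 0 1 2
  have e020 := e 0 2 0
  have e021 := e 0 2 1
  have e022 := e 0 2 2
  have e100 := e 1 0 0
  have e101 := e 1 0 1
  have e102 := e 1 0 2
  have e110 := e 1 1 0
  have e111 := e 1 1 1
  have e112 := e 1 1 2
  have e120 := e 1 2 0
  have e121 := e 1 2 1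
  have e122 := e 1 2 2
  simp [act, G33, Fin.sum_univ_succ, f0, f1, f2, f3, f4] at e000 e001 e002 e010 e011 e012 e020 e021 e022 e100 e101 e102 e110 e111 e112 e120 e121 e122
  have x11 : X 1 1 = 0 := by linear_combination e122 - e100 - e022 + e011
  have z11 : Z 1 1 = 0 := by linear_combination e111 - x11
  have z22 : Z 2 2 = 0 := by linear_combination e022 - e011
  have y20 : Y 2 0 = 0 := by linear_combination e020 - e120
  have y21 : Y 2 1 = 0 := by linear_combination e121 - e021
  have z20 : Z 2 0 = 0 := by linear_combination e002 - e102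
  have z21 : Z 2 1 = 0 := by linear_combination e112 - e012
  refine ⟨?_, ?_, ?_⟩ <;> ext i j <;> fin_cases i <;> fin_cases j <;> assumption

theorem stab_H33 : stab H33 ≤ 6 := by
  refine T21_stab_le H33 T21_f fun X Y Z h h0 => ?_
  obtain ⟨f0, f1, f2, f3, f4⟩ := T21_f0 h0
  have e : ∀ i j k, act X Y Z H33 i j k = 0 := fun i j k => congrFun (congrFun (congrFun h i) j) k
  have e000 := e 0 0 0
  have e001 := e 0 0 1
  have e002 := e 0 0 2
  have e010 := e 0 1 0
  have e011 := e 0 1 1
  have e012 := e 0 1 2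
  have e020 := e 0 2 0
  have e021 := e 0 2 1
  have e022 := e 0 2 2
  have e100 := e 1 0 0
  have e101 := e 1 0 1
  have e102 := e 1 0 2
  have e110 := e 1 1 0
  have e111 := e 1 1 1
  have e112 := e 1 1 2
  have e120 := e 1 2 0
  have e121 := e 1 2 1
  have e122 := e 1 2 2
  simp [act, H33, Fin.sum_univ_succ, f0, f1, f2, f3, f4] at e000 e001 e002 e010 e011 e012 e020 e021 e022 e100 e101 e102 e110 e111 e112 e120 e121 e122
  have z01 : Z 0 1 = 0 := by linear_combination (1 / 2) * (e100 + e010 - e111)
  have x10 : X 1 0 = 0 := by linear_combination e100 - z01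
  have y10 : Y 1 0 = 0 := by linear_combination e010 - z01
  have x11 : X 1 1 = 0 := by linear_combination e101 - e011
  have z22 : Z 2 2 = 0 := by linear_combination e122 - x11
  have z10 : Z 1 0 = 0 := by linear_combination e001 - e022
  have z12 : Z 1 2 = 0 := by linear_combination e121 - e020
  have y02 : Y 0 2 = 0 := by linear_combination e102 - e012
  refine ⟨?_, ?_, ?_⟩ <;> ext i j <;> fin_cases i <;> fin_cases j <;> assumption

private theorem T21_penG (x y : ℂ) : pen G33 x y = x * y * (x + y) := by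
  simp [pen, Matrix.det_fin_three, G33]

private theorem T21_penH (x y : ℂ) : pen H33 x y = x ^ 2 * y := by
  simp [pen, Matrix.det_fin_three, H33]
  left
  ring

theorem G33_H33 : ¬ GLeq G33 H33 := by
  intro h
  obtain ⟨P, r, hP, hr, h⟩ := pen_GLeq h
  simp only [T21_penG, T21_penH] at h
  rw [Matrix.det_fin_two, isUnit_iff_ne_zero] at hP
  have h10 := h 1 0
  have h01 := h 0 1
  have h11 := h 1 1
  have h1m := h 1 (-1)
  generalize P 0 0 = a at *
  generalize P 0 1 = b at *
  generalize P 1 0 = c at *
  generalize P 1 1 = d at *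
  have e1 : a * b * (a + b) = 0 := by
    have : r * (a * b * (a + b)) = 0 := by linear_combination -h10
    exact (mul_eq_zero.mp this).resolve_left hr
  have e2 : c * d * (c + d) = 0 := by
    have : r * (c * d * (c + d)) = 0 := by linear_combination -h01
    exact (mul_eq_zero.mp this).resolve_left hr
  have e3 : a * d * (c + d) + c * b * (c + d) + c * d * (a + b) = 0 := by
    have : r * (a * d * (c + d) + c * b * (c + d) + c * d * (a + b)) = 0 := by
      linear_combination (-1 / 2) * h11 + (-1 / 2) * h1m + h10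
    exact (mul_eq_zero.mp this).resolve_left hr
  apply hP
  rcases mul_eq_zero.mp e1 with h1 | h1
  · rcases mul_eq_zero.mp h1 with h2 | h2
    · -- `a = 0`
      subst h2
      have e4 : (b * c) * (c + 2 * d) = 0 := by linear_combination e3
      rcases mul_eq_zero.mp e4 with h3 | h3
      · linear_combination -h3
      · have h5 : c = -2 * d := by linear_combination h3
        subst h5
        have h6 : d ^ 3 = 0 := by linear_combination (1 / 2) * e2
        have h7 : d = 0 := by simpa using h6
        subst h7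
        ring
    · -- `b = 0`
      subst h2
      have e4 : (a * d) * (2 * c + d) = 0 := by linear_combination e3
      rcases mul_eq_zero.mp e4 with h3 | h3
      · linear_combination h3
      · have h5 : d = -2 * c := by linear_combination h3
        subst h5
        have h6 : c ^ 3 = 0 := by linear_combination (1 / 2) * e2
        have h7 : c = 0 := by simpa using h6
        subst h7
        ring
  · -- `a + b = 0`
    have h2 : b = -a := by linear_combination h1
    subst h2
    have e4 : (a * (c + d)) * (d - c) = 0 := by linear_combination e3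
    rcases mul_eq_zero.mp e4 with h3 | h3
    · linear_combination h3
    · have h5 : d = c := by linear_combination h3
      subst h5
      have h6 : d ^ 3 = 0 := by linear_combination (1 / 2) * e2
      have h7 : d = 0 := by simpa using h6
      subst h7
      ring
end Cea
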