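import Pool.Agent.Lib.MP_cea156_al.T12
import Pool.Agent.Lib.MP_cea156_al.T14
import Pool.Agent.Lib.MP_cea156_al.T16
import Pool.Agent.Lib.MP_cea156_al.T19
import Pool.Agent.Lib.MP_cea156_al.T20
import Pool.Agent.Lib.MP_cea156_al.T21
/-! T22: two inequivalent non-degenerate tensors on every mutation-cyclic triple (DONE here). -/
namespace Cea

theorem Two_all {a b c : ℕ} (h : MC a b c) : Two a b c := by
  refine Two_of_min ?_ a b c h
  intro a b c h hab hbc hc
  obtain ⟨ha, hb, hc2⟩ := MC_two h
  rcases Nat.lt_or_ge a 3 with h3 | h3
  · have ha2 : a = 2 := by omega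
    subst ha2
    have hbc' : b = c := by omega
    subst hbc'
    rcases Nat.lt_or_ge b 4 with h4 | h4
    · rcases Nat.lt_or_ge b 3 with h5 | h5
      · have : b = 2 := by omega
        subst this
        exact ⟨G22, W22, Nd_of_stab _ h (by have := stab_G22; omega), Nd_of_stab _ h (by have := stab_W22; omega),
          G22_W22⟩
      · have : b = 3 := by omega
        subst this
        exact ⟨G33, H33, Nd_of_stab _ h (by have := stab_G33; omega), Nd_of_stab _ h (by have := stab_H33; omega),
          G33_H33⟩
    · exact Two_of_thin h (orbit_thin_pencil h4)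
  · exact Two_of_thin h (orbit_thin (by omega) (by omega) (by omega) (min_arith h3 hab hbc hc))

end Cea
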