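import Pool.Agent.Lib.MP_cea156_al.B07
import Pool.Agent.Lib.MP_cea156_al.T22
import Pool.Agent.Lib.MP_cea156_al.C08
import Pool.Agent.Lib.MP_cea156_al.E01
import Pool.Agent.Lib.MP_cea156_al.E02
/-! Main theorem (assembly, DONE here). -/
namespace Cea

/-- a quiver with at most 3 vertices and a unique non-degenerate potential is mutation-acyclic -/
theorem mutAcyc_of_unique {n : ℕ} (hn : n ≤ 3) (Q : Quiv (Fin n)) (hQ : Q.TwoAcyclic) (hu : UniquePot Q) :
    MutAcyc Q.B := by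
  rcases acyc_or_tri hn Q hQ with h | ⟨u, v, w, a, b, c, τ, h1, h2, h3⟩
  · exact ⟨Q.B, Relation.ReflTransGen.refl, h⟩
  · by_contra hm
    have hMC : MC a b c := by
      intro m
      by_contra h
      exact hm (mutAcyc_of_not_MCN τ.huv τ.hvw τ.hwu τ.cover m a b c Q.B (B_skew Q) h1 h2 h3 h)
    exact not_unique τ (Two_all hMC) hu

theorem main {n : ℕ} (hn : n ≤ 3) (Q : Quiv (Fin n)) (hQ : Q.TwoAcyclic) (hu : UniquePot Q) :
    MutAcyc Q.B ∧ upperAlg (initSeed Q.B) ≤ clusterAlg (initSeed Q.B) :=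
  ⟨mutAcyc_of_unique hn Q hQ hu, upper_le_of_mutAcyc Q.B (B_skew Q) (mutAcyc_of_unique hn Q hQ hu)⟩

end Cea
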