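import Pool.Agent.Lib.MP_cea156_al.TDefs
/-! T01: `GLeq` is an equivalence relation, compatible with `rot`, `rev`, `Inj`. -/
namespace Cea
variable {a b c : ℕ}

open Matrix Kronecker

private def T01_act (P : Matrix (Fin a) (Fin a) ℂ) (Q : Matrix (Fin b) (Fin b) ℂ) (R : Matrix (Fin c) (Fin c) ℂ)
    (T : Ten a b c) : Ten a b c := fun i j k => ∑ i', ∑ j', ∑ k', P i i' * Q j j' * R k k' * T i' j' k'

private theorem T01_act_eq (P : Matrix (Fin a) (Fin a) ℂ) (Q : Matrix (Fin b) (Fin b) ℂ)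
    (R : Matrix (Fin c) (Fin c) ℂ) (T : Ten a b c) :
    (fun p : Fin a × Fin b × Fin c => T01_act P Q R T p.1 p.2.1 p.2.2) =
      (P ⊗ₖ (Q ⊗ₖ R)) *ᵥ (fun p => T p.1 p.2.1 p.2.2) := by
  funext p
  obtain ⟨i, j, k⟩ := p
  simp only [T01_act, Matrix.mulVec, dotProduct, Fintype.sum_prod_type, kroneckerMap_apply, mul_assoc]

private theorem T01_act_act (P P' : Matrix (Fin a) (Fin a) ℂ) (Q Q' : Matrix (Fin b) (Fin b) ℂ)
    (R R' : Matrix (Fin c) (Fin c) ℂ) (T : Ten a b c) :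
    T01_act P Q R (T01_act P' Q' R' T) = T01_act (P * P') (Q * Q') (R * R') T := by
  have h : (fun p : Fin a × Fin b × Fin c => T01_act P Q R (T01_act P' Q' R' T) p.1 p.2.1 p.2.2) =
      (fun p : Fin a × Fin b × Fin c => T01_act (P * P') (Q * Q') (R * R') T p.1 p.2.1 p.2.2) := by
    rw [T01_act_eq, T01_act_eq, T01_act_eq, Matrix.mulVec_mulVec, ← Matrix.mul_kronecker_mul,
      ← Matrix.mul_kronecker_mul]
  funext i j k
  exact congrFun h (i, j, k)

private theorem T01_act_one (T : Ten a b c) :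
    T01_act (1 : Matrix (Fin a) (Fin a) ℂ) (1 : Matrix (Fin b) (Fin b) ℂ) (1 : Matrix (Fin c) (Fin c) ℂ) T = T := by
  have h : (fun p : Fin a × Fin b × Fin c => T01_act (1 : Matrix (Fin a) (Fin a) ℂ)
      (1 : Matrix (Fin b) (Fin b) ℂ) (1 : Matrix (Fin c) (Fin c) ℂ) T p.1 p.2.1 p.2.2) =
      (fun p : Fin a × Fin b × Fin c => T p.1 p.2.1 p.2.2) := by
    rw [T01_act_eq, Matrix.one_kronecker_one, Matrix.one_kronecker_one, Matrix.one_mulVec]
  funext i j k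
  exact congrFun h (i, j, k)

private theorem T01_iff {T S : Ten a b c} : GLeq T S ↔
    ∃ (P : Matrix (Fin a) (Fin a) ℂ) (Q : Matrix (Fin b) (Fin b) ℂ) (R : Matrix (Fin c) (Fin c) ℂ),
      IsUnit P.det ∧ IsUnit Q.det ∧ IsUnit R.det ∧ S = T01_act P Q R T := by
  constructor
  · rintro ⟨P, Q, R, hP, hQ, hR, h⟩
    exact ⟨P, Q, R, hP, hQ, hR, by funext i j k; exact h i j k⟩
  · rintro ⟨P, Q, R, hP, hQ, hR, h⟩
    exact ⟨P, Q, R, hP, hQ, hR, fun i j k => congrFun (congrFun (congrFun h i) j) k⟩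

theorem GLeq_refl (T : Ten a b c) : GLeq T T :=
  T01_iff.2 ⟨1, 1, 1, by simp, by simp, by simp, (T01_act_one T).symm⟩

theorem GLeq_symm {T S : Ten a b c} (h : GLeq T S) : GLeq S T := by
  obtain ⟨P, Q, R, hP, hQ, hR, h⟩ := T01_iff.1 h
  refine T01_iff.2 ⟨P⁻¹, Q⁻¹, R⁻¹, ?_, ?_, ?_, ?_⟩
  · exact Matrix.isUnit_nonsing_inv_det P hP
  · exact Matrix.isUnit_nonsing_inv_det Q hQ
  · exact Matrix.isUnit_nonsing_inv_det R hR
  · rw [h, T01_act_act, Matrix.nonsing_inv_mul P hP, Matrix.nonsing_inv_mul Q hQ, Matrix.nonsing_inv_mul R hR,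
      T01_act_one]

theorem GLeq_trans {T S U : Ten a b c} (h1 : GLeq T S) (h2 : GLeq S U) : GLeq T U := by
  obtain ⟨P, Q, R, hP, hQ, hR, h⟩ := T01_iff.1 h1
  obtain ⟨P', Q', R', hP', hQ', hR', h'⟩ := T01_iff.1 h2
  refine T01_iff.2 ⟨P' * P, Q' * Q, R' * R, ?_, ?_, ?_, ?_⟩
  · rw [Matrix.det_mul]; exact hP'.mul hP
  · rw [Matrix.det_mul]; exact hQ'.mul hQ
  · rw [Matrix.det_mul]; exact hR'.mul hR
  · rw [h', h, T01_act_act]

theorem GLeq_rot {T S : Ten a b c} (h : GLeq T S) : GLeq (rot T) (rot S) := by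
  obtain ⟨P, Q, R, hP, hQ, hR, h⟩ := h
  refine ⟨Q, R, P, hQ, hR, hP, fun j k i => ?_⟩
  show S i j k = ∑ j', ∑ k', ∑ i', Q j j' * R k k' * P i i' * T i' j' k'
  rw [h i j k, Finset.sum_comm]
  refine Finset.sum_congr rfl fun j' _ => ?_
  rw [Finset.sum_comm]
  refine Finset.sum_congr rfl fun k' _ => Finset.sum_congr rfl fun i' _ => ?_
  ring

theorem GLeq_rev {T S : Ten a b c} (h : GLeq T S) : GLeq (rev T) (rev S) := by
  obtain ⟨P, Q, R, hP, hQ, hR, h⟩ := h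
  refine ⟨R, Q, P, hR, hQ, hP, fun k j i => ?_⟩
  show S i j k = ∑ k', ∑ j', ∑ i', R k k' * Q j j' * P i i' * T i' j' k'
  rw [h i j k]
  have e1 : ∀ i', ∑ j', ∑ k', P i i' * Q j j' * R k k' * T i' j' k' =
      ∑ k', ∑ j', R k k' * Q j j' * P i i' * T i' j' k' := by
    intro i'
    rw [Finset.sum_comm]
    refine Finset.sum_congr rfl fun k' _ => Finset.sum_congr rfl fun j' _ => ?_
    ring
  simp only [e1]
  rw [Finset.sum_comm]
  refine Finset.sum_congr rfl fun k' _ => ?_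
  rw [Finset.sum_comm]

theorem GLeq_inj {T S : Ten a b c} (h : GLeq T S) (hT : Inj T) : Inj S := by
  obtain ⟨P, Q, R, hP, hQ, hR, h⟩ := h
  unfold Inj at hT ⊢
  rw [Fintype.linearIndependent_iff] at hT ⊢
  intro g hg
  -- the combination of the slices of `T`
  set w : Fin a × Fin b → ℂ := ∑ k', (g ᵥ* R) k' • fun p : Fin a × Fin b => T p.1 p.2 k' with hw
  have h1 : (P ⊗ₖ Q) *ᵥ w = ∑ k, g k • fun p : Fin a × Fin b => S p.1 p.2 k := by
    funext p
    obtain ⟨i, j⟩ := p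
    simp only [hw, Matrix.mulVec, dotProduct, Fintype.sum_prod_type, kroneckerMap_apply, Finset.sum_apply,
      Pi.smul_apply, smul_eq_mul, h, Matrix.vecMul, Finset.mul_sum, Finset.sum_mul]
    calc ∑ i', ∑ j', ∑ k', ∑ k, P i i' * Q j j' * (g k * R k k' * T i' j' k')
        = ∑ i', ∑ j', ∑ k, ∑ k', P i i' * Q j j' * (g k * R k k' * T i' j' k') := by
          refine Finset.sum_congr rfl fun i' _ => Finset.sum_congr rfl fun j' _ => ?_
          rw [Finset.sum_comm]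
      _ = ∑ i', ∑ k, ∑ j', ∑ k', P i i' * Q j j' * (g k * R k k' * T i' j' k') := by
          refine Finset.sum_congr rfl fun i' _ => ?_
          rw [Finset.sum_comm]
      _ = ∑ k, ∑ i', ∑ j', ∑ k', P i i' * Q j j' * (g k * R k k' * T i' j' k') := by
          rw [Finset.sum_comm]
      _ = ∑ k, ∑ i', ∑ j', ∑ k', g k * (P i i' * Q j j' * R k k' * T i' j' k') := by
          refine Finset.sum_congr rfl fun k _ => Finset.sum_congr rfl fun i' _ =>
            Finset.sum_congr rfl fun j' _ => Finset.sum_congr rfl fun k' _ => ?_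
          ring
  have hPQ : IsUnit (P ⊗ₖ Q).det := by
    rw [Matrix.det_kronecker]
    exact (hP.pow _).mul (hQ.pow _)
  have h2 : w = 0 := by
    have : (P ⊗ₖ Q)⁻¹ *ᵥ ((P ⊗ₖ Q) *ᵥ w) = 0 := by rw [h1, hg, Matrix.mulVec_zero]
    rwa [Matrix.mulVec_mulVec, Matrix.nonsing_inv_mul _ hPQ, Matrix.one_mulVec] at this
  have h3 : g ᵥ* R = 0 := by
    funext k'
    exact hT (g ᵥ* R) h2 k'
  have h4 : g = 0 := by
    have : (g ᵥ* R) ᵥ* R⁻¹ = 0 := by rw [h3, Matrix.zero_vecMul]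
    rwa [Matrix.vecMul_vecMul, Matrix.mul_nonsing_inv _ hR, Matrix.vecMul_one] at this
  intro k
  rw [h4]
  rfl

end Cea
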