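import Pool.Agent.Lib.MP_cea156_al.TDefs
/-! T02: castling transforms of equivalent tensors are equivalent. If `T₂ = (P,Q,R) T₁`, the slices of `T₂` span `(P ⊗ Q)` of the
span of the slices of `T₁`, so `(Pᵀ ⊗ Qᵀ)` maps the annihilator of `T₂` onto that of `T₁`; both `S₁` and `S₂` transported are
bases of the same space of dimension `d`; the change of basis is the third matrix. -/
namespace Cea
variable {a b c d : ℕ}

open Matrix in
/-- rows annihilated by `A` are combinations of the rows of `B` -/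
private theorem T02_factor {ι : Type} [Fintype ι] [DecidableEq ι] (A : Matrix (Fin c) ι ℂ) (B C : Matrix (Fin d) ι ℂ)
    (hA : LinearIndependent ℂ (fun k => A k)) (hB : LinearIndependent ℂ (fun l => B l))
    (hcard : c + d = Fintype.card ι) (hBA : B * Aᵀ = 0) (hCA : C * Aᵀ = 0) : ∃ M : Matrix (Fin d) (Fin d) ℂ, C = M * B := by
  have hker : ∀ X : Matrix (Fin d) ι ℂ, X * Aᵀ = 0 → ∀ l, X l ∈ LinearMap.ker A.mulVecLin := by
    intro X hX l
    rw [LinearMap.mem_ker, Matrix.mulVecLin_apply]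
    funext k
    have := congrFun (congrFun hX l) k
    simp only [Matrix.mul_apply, Matrix.transpose_apply, Matrix.zero_apply] at this
    simp only [Matrix.mulVec, dotProduct, Pi.zero_apply]
    rw [← this]
    exact Finset.sum_congr rfl fun i _ => mul_comm _ _
  have hrank : A.rank = c := by
    have := LinearIndependent.rank_matrix (M := A) hA
    simpa using this
  have hfk : Module.finrank ℂ (LinearMap.ker A.mulVecLin) = d := by
    have h1 := LinearMap.finrank_range_add_finrank_ker A.mulVecLin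
    have h2 : Module.finrank ℂ (LinearMap.range A.mulVecLin) = c := hrank
    rw [h2] at h1
    simp only [Module.finrank_fintype_fun_eq_card] at h1
    omega
  have hspan : Submodule.span ℂ (Set.range fun l => B l) = LinearMap.ker A.mulVecLin := by
    apply Submodule.eq_of_le_of_finrank_eq
    · rw [Submodule.span_le]
      rintro _ ⟨l, rfl⟩
      exact hker B hBA l
    · rw [hfk, finrank_span_eq_card hB]
      simp
  have hex : ∀ l, ∃ m : Fin d → ℂ, ∑ l', m l' • B l' = C l := by
    intro l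
    have := hker C hCA l
    rw [← hspan] at this
    exact (Submodule.mem_span_range_iff_exists_fun ℂ).mp this
  choose m hm using hex
  refine ⟨Matrix.of m, ?_⟩
  ext l i
  have := congrFun (hm l) i
  rw [← this, Matrix.mul_apply, Finset.sum_apply]
  rfl

theorem Cas_GLeq {T₁ T₂ : Ten a b c} {S₁ S₂ : Ten d b a} (h : GLeq T₁ T₂) (h1 : Cas T₁ S₁) (h2 : Cas T₂ S₂) :
    GLeq S₁ S₂ := by
  obtain ⟨P, Q, R, hP, hQ, hR, hT⟩ := h
  obtain ⟨hc1, hI1, hL1, hz1⟩ := h1
  obtain ⟨hc2, hI2, hL2, hz2⟩ := h2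
  obtain ⟨A, hAdef⟩ : ∃ A : Matrix (Fin c) (Fin a × Fin b) ℂ, ∀ k p, A k p = T₁ p.1 p.2 k := ⟨Matrix.of fun k p => T₁ p.1 p.2 k, fun _ _ => rfl⟩
  obtain ⟨B, hBdef⟩ : ∃ B : Matrix (Fin d) (Fin a × Fin b) ℂ, ∀ l p, B l p = S₁ l p.2 p.1 := ⟨Matrix.of fun l p => S₁ l p.2 p.1, fun _ _ => rfl⟩
  obtain ⟨C, hCdef⟩ : ∃ C : Matrix (Fin d) (Fin a × Fin b) ℂ, ∀ l p, C l p = ∑ q : Fin a × Fin b, S₂ l q.2 q.1 * (P q.1 p.1 * Q q.2 p.2) :=
    ⟨Matrix.of fun l p => ∑ q : Fin a × Fin b, S₂ l q.2 q.1 * (P q.1 p.1 * Q q.2 p.2), fun _ _ => rfl⟩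
  have hA1 : LinearIndependent ℂ (fun k => A k) := by
    have e : (fun k => A k) = (fun k : Fin c => fun p : Fin a × Fin b => T₁ p.1 p.2 k) := by
      funext k p
      exact hAdef k p
    rw [e]
    exact hI1
  have hB1 : LinearIndependent ℂ (fun k => B k) := by
    have e : (fun k => B k) = (fun l : Fin d => fun p : Fin a × Fin b => S₁ l p.2 p.1) := by
      funext k p
      exact hBdef k p
    rw [e]
    exact hL1
  have hBA : B * A.transpose = 0 := by
    funext l k
    rw [Matrix.mul_apply]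
    simp only [Matrix.transpose_apply, Matrix.zero_apply, hAdef, hBdef, Fintype.sum_prod_type]
    exact hz1 l k
  have hT' : ∀ (p : Fin a × Fin b) k, T₂ p.1 p.2 k = ∑ k', R k k' * ∑ q : Fin a × Fin b, P p.1 q.1 * Q p.2 q.2 * T₁ q.1 q.2 k' := by
    intro p k
    rw [hT]
    simp only [Fintype.sum_prod_type, Finset.mul_sum]
    have e1 : ∀ f : Fin c → Fin a → Fin b → ℂ, ∑ i', ∑ j', ∑ k', f k' i' j' = ∑ k', ∑ i', ∑ j', f k' i' j' := by
      intro f
      calc ∑ i', ∑ j', ∑ k', f k' i' j' = ∑ i', ∑ k', ∑ j', f k' i' j' :=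
            Finset.sum_congr rfl fun i' _ => Finset.sum_comm
        _ = ∑ k', ∑ i', ∑ j', f k' i' j' := Finset.sum_comm
    rw [← e1]
    refine Finset.sum_congr rfl fun i' _ => Finset.sum_congr rfl fun j' _ => Finset.sum_congr rfl fun k' _ => ?_
    ring
  have hCA : C * A.transpose = 0 := by
    have h3 : ∀ l, R.mulVec (fun k' => ∑ p : Fin a × Fin b, C l p * T₁ p.1 p.2 k') = 0 := by
      intro l
      funext k
      have h5 := hz2 l k
      have h6 : ∑ q : Fin a × Fin b, S₂ l q.2 q.1 * T₂ q.1 q.2 k = 0 := by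
        rw [Fintype.sum_prod_type]; exact h5
      simp only [hT'] at h6
      simp only [Matrix.mulVec, dotProduct, Pi.zero_apply, hCdef]
      rw [← h6]
      simp only [Finset.sum_mul, Finset.mul_sum]
      have e1 : ∀ f : Fin c → (Fin a × Fin b) → (Fin a × Fin b) → ℂ, ∑ k', ∑ p, ∑ q, f k' p q = ∑ q, ∑ k', ∑ p, f k' p q := by
        intro f
        calc ∑ k', ∑ p, ∑ q, f k' p q = ∑ k', ∑ q, ∑ p, f k' p q :=
              Finset.sum_congr rfl fun i' _ => Finset.sum_comm
          _ = ∑ q, ∑ k', ∑ p, f k' p q := Finset.sum_comm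
      rw [e1]
      refine Finset.sum_congr rfl fun i' _ => Finset.sum_congr rfl fun j' _ => Finset.sum_congr rfl fun k' _ => ?_
      ring
    funext l k
    have hinj := Matrix.mulVec_injective_iff_isUnit.mpr ((Matrix.isUnit_iff_isUnit_det R).mpr hR)
    have h4 : (fun k' => ∑ p : Fin a × Fin b, C l p * T₁ p.1 p.2 k') = 0 := by
      apply hinj
      rw [h3 l, Matrix.mulVec_zero]
    have := congrFun h4 k
    rw [Matrix.mul_apply]
    simpa only [Matrix.transpose_apply, hAdef, Matrix.zero_apply, Pi.zero_apply] using this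
  obtain ⟨M, hM⟩ := T02_factor A B C hA1 hB1 (by simpa using hc1) hBA hCA
  have hPP : P * P⁻¹ = 1 := Matrix.mul_nonsing_inv P hP
  have hQQ : Q * Q⁻¹ = 1 := Matrix.mul_nonsing_inv Q hQ
  -- recover S₂
  have hS2 : ∀ l j i, S₂ l j i = ∑ p : Fin a × Fin b, C l p * (P⁻¹ p.1 i * Q⁻¹ p.2 j) := by
    intro l j i
    have e2 : ∀ q : Fin a × Fin b, ∑ p : Fin a × Fin b, (P q.1 p.1 * Q q.2 p.2) * (P⁻¹ p.1 i * Q⁻¹ p.2 j)
        = if q = (i, j) then 1 else 0 := by
      intro q
      have e3 := congrFun (congrFun hPP q.1) i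
      have e4 := congrFun (congrFun hQQ q.2) j
      simp only [Matrix.mul_apply, Matrix.one_apply] at e3 e4
      have e5 : (if q = (i, j) then (1 : ℂ) else 0) = (if q.1 = i then 1 else 0) * (if q.2 = j then 1 else 0) := by
        by_cases h1 : q.1 = i <;> by_cases h2 : q.2 = j <;> simp [h1, h2, Prod.ext_iff]
      rw [e5, ← e3, ← e4, Finset.sum_mul_sum, Fintype.sum_prod_type]
      refine Finset.sum_congr rfl fun x _ => Finset.sum_congr rfl fun y _ => ?_
      ring
    calc S₂ l j i = ∑ q : Fin a × Fin b, S₂ l q.2 q.1 * (if q = (i, j) then 1 else 0) := by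
          simp
      _ = ∑ q : Fin a × Fin b, S₂ l q.2 q.1 * ∑ p : Fin a × Fin b, (P q.1 p.1 * Q q.2 p.2) * (P⁻¹ p.1 i * Q⁻¹ p.2 j) := by
          simp only [e2]
      _ = ∑ p : Fin a × Fin b, C l p * (P⁻¹ p.1 i * Q⁻¹ p.2 j) := by
          simp only [hCdef, Finset.mul_sum, Finset.sum_mul]
          rw [Finset.sum_comm]
          refine Finset.sum_congr rfl fun x _ => Finset.sum_congr rfl fun y _ => ?_
          ring
  -- M is invertible
  have hMu : IsUnit M.det := by
    rw [← Matrix.isUnit_iff_isUnit_det, ← Matrix.vecMul_injective_iff_isUnit]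
    intro x y hxy
    -- x M = y M → x C = y C → x S₂ = y S₂
    have h7 : ∀ p, ∑ l, x l * C l p = ∑ l, y l * C l p := by
      intro p
      have h8 : Matrix.vecMul x C = Matrix.vecMul y C := by
        rw [hM, ← Matrix.vecMul_vecMul, ← Matrix.vecMul_vecMul]
        exact congrArg (fun z => Matrix.vecMul z B) hxy
      exact congrFun h8 p
    have h9 : ∀ p : Fin a × Fin b, ∑ l, x l * S₂ l p.2 p.1 = ∑ l, y l * S₂ l p.2 p.1 := by
      intro p
      have h10 : ∀ z : Fin d → ℂ, ∑ l, z l * S₂ l p.2 p.1 = ∑ q : Fin a × Fin b, (∑ l, z l * C l q) * (P⁻¹ q.1 p.1 * Q⁻¹ q.2 p.2) := by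
        intro z
        simp only [hS2 _ p.2 p.1, Finset.mul_sum, Finset.sum_mul]
        rw [Finset.sum_comm]
        refine Finset.sum_congr rfl fun x _ => Finset.sum_congr rfl fun y _ => ?_
        ring
      rw [h10 x, h10 y]
      simp only [h7]
    have h11 := Fintype.linearIndependent_iff.mp hL2 (fun l => x l - y l) (by
      funext p
      have := h9 p
      simp only [Finset.sum_apply, Pi.smul_apply, smul_eq_mul, sub_mul, Finset.sum_sub_distrib, Pi.zero_apply]
      rw [this, sub_self])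
    funext l
    exact sub_eq_zero.mp (h11 l)
  refine ⟨M, (Q⁻¹).transpose, (P⁻¹).transpose, hMu, ?_, ?_, ?_⟩
  · rw [Matrix.det_transpose]
    exact Matrix.isUnit_nonsing_inv_det Q hQ
  · rw [Matrix.det_transpose]
    exact Matrix.isUnit_nonsing_inv_det P hP
  · intro l j i
    rw [hS2]
    simp only [Matrix.transpose_apply]
    rw [hM]
    simp only [Matrix.mul_apply, hBdef, Finset.sum_mul, Fintype.sum_prod_type]
    have e1 : ∀ f : Fin a → Fin b → Fin d → ℂ, ∑ i', ∑ j', ∑ l', f i' j' l' = ∑ l', ∑ j', ∑ i', f i' j' l' := by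
      intro f
      calc ∑ i', ∑ j', ∑ l', f i' j' l' = ∑ i', ∑ l', ∑ j', f i' j' l' :=
            Finset.sum_congr rfl fun i' _ => Finset.sum_comm
        _ = ∑ l', ∑ i', ∑ j', f i' j' l' := Finset.sum_comm
        _ = ∑ l', ∑ j', ∑ i', f i' j' l' := Finset.sum_congr rfl fun l' _ => Finset.sum_comm
    rw [e1]
    refine Finset.sum_congr rfl fun l' _ => Finset.sum_congr rfl fun j' _ => Finset.sum_congr rfl fun i' _ => ?_
    ring
end Cea
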