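import Pool.Agent.Lib.MP_cea156_al.TDefs
/-! T03: castling is an involution up to rotation; existence of castling transforms (dimension of the annihilator). -/
namespace Cea
variable {a b c d : ℕ}
theorem Cas_symm {T : Ten a b c} {S : Ten d b a} (h : Cas T S) : Cas (rot S) (rot (rot T)) := by
  obtain ⟨hd, hT, hS, h0⟩ := h
  refine ⟨by rw [add_comm, hd, mul_comm], ?_, ?_, ?_⟩
  · have e : (fun k : Fin d => fun p : Fin b × Fin a => rot S p.1 p.2 k) =
        (LinearEquiv.funCongrLeft ℂ ℂ (Equiv.prodComm (Fin b) (Fin a))).toLinearMap ∘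
          (fun l : Fin d => fun p : Fin a × Fin b => S l p.2 p.1) := by
      funext k p
      rfl
    unfold Inj
    rw [e]
    exact hS.map' _ (LinearEquiv.ker _)
  · have e : (fun l : Fin c => fun p : Fin b × Fin a => rot (rot T) l p.2 p.1) =
        (LinearEquiv.funCongrLeft ℂ ℂ (Equiv.prodComm (Fin b) (Fin a))).toLinearMap ∘
          (fun k : Fin c => fun p : Fin a × Fin b => T p.1 p.2 k) := by
      funext k p
      rfl
    rw [e]
    exact LinearIndependent.map' hT _ (LinearEquiv.ker _)
  · intro l k
    rw [Finset.sum_comm]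
    rw [← h0 k l]
    refine Finset.sum_congr rfl fun i _ => Finset.sum_congr rfl fun j _ => ?_
    simp only [rot]
    ring
theorem exists_Cas {T : Ten a b c} (hd : c + d = a * b) (hT : Inj T) : ∃ S : Ten d b a, Cas T S := by
  classical
  set M : Matrix (Fin c) (Fin a × Fin b) ℂ := Matrix.of fun k p => T p.1 p.2 k with hM
  have hr : M.rank = c := by
    have := LinearIndependent.rank_matrix (M := M) hT
    simpa using this
  have hk : Module.finrank ℂ (LinearMap.ker M.mulVecLin) = d := by
    have h1 := LinearMap.finrank_range_add_finrank_ker M.mulVecLin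
    have h2 : Module.finrank ℂ (LinearMap.range M.mulVecLin) = c := hr
    have h3 : Module.finrank ℂ (Fin a × Fin b → ℂ) = a * b := by simp
    rw [h2, h3] at h1
    omega
  let B := Module.finBasisOfFinrankEq ℂ (LinearMap.ker M.mulVecLin) hk
  refine ⟨fun l j i => (B l : Fin a × Fin b → ℂ) (i, j), hd, hT, ?_, ?_⟩
  · have e : (fun l : Fin d => fun p : Fin a × Fin b => (fun (l : Fin d) (j : Fin b) (i : Fin a) => (B l : Fin a × Fin b → ℂ) (i, j)) l p.2 p.1) =
        (LinearMap.ker M.mulVecLin).subtype ∘ B := by
      funext l p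
      rfl
    rw [e]
    exact B.linearIndependent.map' _ (Submodule.ker_subtype _)
  · intro l k
    have h1 : M.mulVecLin (B l) = 0 := (B l).2
    have h2 := congrFun h1 k
    simp only [Matrix.mulVecLin_apply, Matrix.mulVec, dotProduct, hM, Matrix.of_apply, Pi.zero_apply] at h2
    rw [Fintype.sum_prod_type] at h2
    rw [← h2]
    refine Finset.sum_congr rfl fun i _ => Finset.sum_congr rfl fun j _ => ?_
    ring
end Cea
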