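import Pool.Agent.Lib.MP_cea156_al.T01
import Pool.Agent.Lib.MP_cea156_al.T02
import Pool.Agent.Lib.MP_cea156_al.T03
/-! T05: invariance of `NdN`, closure properties of `Nd` (DONE here, uses T01, T02, T03). -/
namespace Cea
variable {a b c d : ℕ}

theorem Cas_of_GLeq {T₁ T₂ : Ten a b c} {S₂ : Ten d b a} (h : GLeq T₁ T₂) (h2 : Cas T₂ S₂) :
    ∃ S₁, Cas T₁ S₁ ∧ GLeq S₁ S₂ := by
  obtain ⟨S₁, h1⟩ := exists_Cas h2.1 (GLeq_inj (GLeq_symm h) h2.2.1)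
  exact ⟨S₁, h1, Cas_GLeq h h1 h2⟩

theorem NdN_GLeq : ∀ (m : ℕ) {a b c : ℕ} {T S : Ten a b c}, GLeq T S → NdN m a b c T → NdN m a b c S
  | 0, _, _, _, _, _, h, hT => GLeq_inj h hT
  | m + 1, _, _, _, _, _, h, hT => by
      obtain ⟨h1, h2, h3, h4⟩ := hT
      refine ⟨GLeq_inj h h1, NdN_GLeq m (GLeq_rot h) h2, NdN_GLeq m (GLeq_rev h) h3, fun d S' hS => ?_⟩
      obtain ⟨T', hT', hg⟩ := Cas_of_GLeq h hS
      exact NdN_GLeq m hg (h4 d T' hT')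

theorem Nd_GLeq {T S : Ten a b c} (h : GLeq T S) (hT : Nd T) : Nd S := fun m => NdN_GLeq m h (hT m)
theorem Nd_rot {T : Ten a b c} (h : Nd T) : Nd (rot T) := fun m => (h (m + 1)).2.1
theorem Nd_rev {T : Ten a b c} (h : Nd T) : Nd (rev T) := fun m => (h (m + 1)).2.2.1
theorem Nd_inj {T : Ten a b c} (h : Nd T) : Inj T := h 0
theorem Nd_cas {T : Ten a b c} (h : Nd T) {S : Ten d b a} (hS : Cas T S) : Nd S :=
  fun m => (h (m + 1)).2.2.2 d S hS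

theorem Nd_of_cas {T : Ten a b c} {S : Ten d b a} (h : Cas T S) (hS : Nd S) : Nd T := by
  have h1 : Nd (rot (rot T)) := Nd_cas (Nd_rot hS) (Cas_symm h)
  exact Nd_rot h1

theorem Two_rot (h : Two b c a) : Two a b c := by
  obtain ⟨T₁, T₂, h1, h2, h3⟩ := h
  refine ⟨rot (rot T₁), rot (rot T₂), Nd_rot (Nd_rot h1), Nd_rot (Nd_rot h2), fun h => h3 ?_⟩
  exact GLeq_rot h

theorem Two_rev (h : Two c b a) : Two a b c := by
  obtain ⟨T₁, T₂, h1, h2, h3⟩ := h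
  refine ⟨rev T₁, rev T₂, Nd_rev h1, Nd_rev h2, fun h => h3 ?_⟩
  exact GLeq_rev h

theorem Two_cas (hd : c + d = a * b) (h : Two d b a) : Two a b c := by
  obtain ⟨S₁, S₂, h1, h2, h3⟩ := h
  have key : ∀ S : Ten d b a, Nd S → ∃ T : Ten a b c, Cas T S := by
    intro S hS
    obtain ⟨X, hX⟩ := exists_Cas (a := b) (b := a) (c := d) (d := c) (by rw [mul_comm b a]; omega)
      (Nd_inj (Nd_rot hS))
    exact ⟨rot X, Cas_symm hX⟩
  obtain ⟨T₁, c1⟩ := key S₁ h1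
  obtain ⟨T₂, c2⟩ := key S₂ h2
  exact ⟨T₁, T₂, Nd_of_cas c1 h1, Nd_of_cas c2 h2, fun h => h3 (Cas_GLeq h c1 c2)⟩

end Cea
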