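import Pool.Agent.Lib.MP_cea156_al.TDefs
/-! T10: sets containing a nonempty Zariski open set: intersections, permutations of the indices, injectivity. -/
namespace Cea
variable {a b c : ℕ}

theorem CoThin_and {X Y : Ten a b c → Prop} (h1 : CoThin X) (h2 : CoThin Y) :
    CoThin (fun T => X T ∧ Y T) := by
  obtain ⟨F, hF, hX⟩ := h1
  obtain ⟨G, hG, hY⟩ := h2
  refine ⟨F * G, mul_ne_zero hF hG, fun T hT => ?_⟩
  rw [map_mul] at hT
  exact ⟨hX T (left_ne_zero_of_mul hT), hY T (right_ne_zero_of_mul hT)⟩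

theorem CoThin_rot {X : Ten b c a → Prop} (h : CoThin X) :
    CoThin (fun T : Ten a b c => X (rot T)) := by
  obtain ⟨F, hF, hX⟩ := h
  have hinj : Function.Injective
      (fun p : Fin b × Fin c × Fin a => ((p.2.2, p.1, p.2.1) : Fin a × Fin b × Fin c)) := by
    rintro ⟨j, k, i⟩ ⟨j', k', i'⟩ h
    simp only [Prod.mk.injEq] at h ⊢
    tauto
  refine ⟨MvPolynomial.rename
      (fun p : Fin b × Fin c × Fin a => ((p.2.2, p.1, p.2.1) : Fin a × Fin b × Fin c)) F,
    fun h0 => hF ?_, fun T hT => hX (rot T) ?_⟩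
  · exact (MvPolynomial.rename_injective _ hinj) (by rw [h0, map_zero])
  · rw [MvPolynomial.eval_rename] at hT
    exact hT

theorem CoThin_rev {X : Ten c b a → Prop} (h : CoThin X) :
    CoThin (fun T : Ten a b c => X (rev T)) := by
  obtain ⟨F, hF, hX⟩ := h
  have hinj : Function.Injective
      (fun p : Fin c × Fin b × Fin a => ((p.2.2, p.2.1, p.1) : Fin a × Fin b × Fin c)) := by
    rintro ⟨k, j, i⟩ ⟨k', j', i'⟩ h
    simp only [Prod.mk.injEq] at h ⊢
    tauto
  refine ⟨MvPolynomial.rename
      (fun p : Fin c × Fin b × Fin a => ((p.2.2, p.2.1, p.1) : Fin a × Fin b × Fin c)) F,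
    fun h0 => hF ?_, fun T hT => hX (rev T) ?_⟩
  · exact (MvPolynomial.rename_injective _ hinj) (by rw [h0, map_zero])
  · rw [MvPolynomial.eval_rename] at hT
    exact hT

/-- some `c × c` minor of the `ab × c` matrix of `T` is nonzero -/
theorem CoThin_inj (hc : c ≤ a * b) : CoThin (Inj : Ten a b c → Prop) := by
  classical
  have hcard : Fintype.card (Fin c) ≤ Fintype.card (Fin a × Fin b) := by simpa using hc
  obtain ⟨e⟩ := Function.Embedding.nonempty_of_card_le hcard
  let M : Matrix (Fin c) (Fin c) (MvPolynomial (Fin a × Fin b × Fin c) ℂ) :=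
    fun k k' => MvPolynomial.X ((e k).1, (e k).2, k')
  have hev : ∀ T : Ten a b c, MvPolynomial.eval (fun p => T p.1 p.2.1 p.2.2) M.det =
      Matrix.det (fun k k' : Fin c => T (e k).1 (e k).2 k') := by
    intro T
    rw [RingHom.map_det]
    congr 1
    ext k k'
    simp [M, RingHom.mapMatrix_apply, Matrix.map_apply]
  refine ⟨M.det, fun h0 => ?_, fun T hT => ?_⟩
  · have h1 := hev (fun i j k' => if (i, j) = e k' then 1 else 0)
    rw [h0, map_zero] at h1
    have h2 : (fun k k' : Fin c => (fun (i : Fin a) (j : Fin b) (k' : Fin c) =>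
        if (i, j) = e k' then (1 : ℂ) else 0) (e k).1 (e k).2 k') =
        (1 : Matrix (Fin c) (Fin c) ℂ) := by
      funext k k'
      simp only [Prod.mk.eta, Matrix.one_apply, e.injective.eq_iff]
    rw [h2, Matrix.det_one] at h1
    exact zero_ne_one h1
  · rw [hev T] at hT
    have h1 : LinearIndependent ℂ (fun k' : Fin c => fun k : Fin c => T (e k).1 (e k).2 k') := by
      have := Matrix.linearIndependent_cols_of_det_ne_zero hT
      exact this
    unfold Inj
    have h2 : (fun k' : Fin c => fun k : Fin c => T (e k).1 (e k).2 k') =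
        (LinearMap.funLeft ℂ ℂ e) ∘ (fun k : Fin c => fun p : Fin a × Fin b => T p.1 p.2 k) := by
      funext k' k
      simp [LinearMap.funLeft_apply]
    rw [h2] at h1
    exact LinearIndependent.of_comp _ h1

end Cea
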