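import Pool.Agent.Lib.MP_cea156_al.TDefs
/-! T11: castling back a generic tensor. `CoThin_cas`: let `G ≠ 0` be a polynomial on `Ten d b a` with `G S ≠ 0 → X S`. Identify
`Fin a × Fin b` with `Fin c ⊕ Fin d` (`c + d = ab`), so that `T` is a pair `(A, B)`, `A` a `c × c`, `B` a `d × c` matrix, `S` is a pair
`(S_1, S_2)`, `S_1` a `d × c`, `S_2` a `d × d` matrix. As `G ≠ 0` there are invertible `R` and `N` with `G (R (-N, 1)) ≠ 0`
(`S = S_2 (S_2⁻¹ S_1, 1)` whenever `det S_2 ≠ 0`). Put `F(T) = det A * G (R (-B adj A, det A))`, nonzero at `T = (1, N)`. If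
`F(T) ≠ 0`: the columns of `T` are independent, `S₀ = (-B adj A, det A)` is a castling transform of `T` and `R S₀` satisfies `X`;
any castling transform of `T` is `GLeq` to `R S₀` (change of basis of the annihilator). -/
namespace Cea
variable {a b c d : ℕ}

namespace T11

variable {R : Type} [CommRing R] {R' : Type} [CommRing R']

/-- the upper block -/
def AA (e : Fin a × Fin b ≃ Fin c ⊕ Fin d) (t : Fin a → Fin b → Fin c → R) : Matrix (Fin c) (Fin c) R :=
  Matrix.of fun i k => t (e.symm (Sum.inl i)).1 (e.symm (Sum.inl i)).2 k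

/-- the lower block -/
def BB (e : Fin a × Fin b ≃ Fin c ⊕ Fin d) (t : Fin a → Fin b → Fin c → R) : Matrix (Fin d) (Fin c) R :=
  Matrix.of fun l k => t (e.symm (Sum.inr l)).1 (e.symm (Sum.inr l)).2 k

/-- the explicit castling transform, as a matrix -/
def SS (e : Fin a × Fin b ≃ Fin c ⊕ Fin d) (t : Fin a → Fin b → Fin c → R) : Matrix (Fin d) (Fin c ⊕ Fin d) R :=
  Matrix.fromCols (-(BB e t * (AA e t).adjugate)) ((AA e t).det • (1 : Matrix (Fin d) (Fin d) R))

/-- the same after a change of basis `C` -/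
def RS (e : Fin a × Fin b ≃ Fin c ⊕ Fin d) (C : Matrix (Fin d) (Fin d) R) (t : Fin a → Fin b → Fin c → R) :
    Fin d → Fin b → Fin a → R :=
  fun l j i => (C * SS e t) l (e (i, j))

theorem AA_map (e : Fin a × Fin b ≃ Fin c ⊕ Fin d) (φ : R →+* R') (t : Fin a → Fin b → Fin c → R) :
    AA e (fun i j k => φ (t i j k)) = (AA e t).map φ := rfl

theorem BB_map (e : Fin a × Fin b ≃ Fin c ⊕ Fin d) (φ : R →+* R') (t : Fin a → Fin b → Fin c → R) :
    BB e (fun i j k => φ (t i j k)) = (BB e t).map φ := rfl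

theorem SS_map (e : Fin a × Fin b ≃ Fin c ⊕ Fin d) (φ : R →+* R') (t : Fin a → Fin b → Fin c → R) :
    SS e (fun i j k => φ (t i j k)) = (SS e t).map φ := by
  ext l s
  unfold SS
  rw [AA_map, BB_map]
  rcases s with s | s
  · simp only [Matrix.fromCols_apply_inl, Matrix.map_apply, Matrix.neg_apply, map_neg]
    rw [← RingHom.mapMatrix_apply φ (AA e t), ← RingHom.map_adjugate, RingHom.mapMatrix_apply, ← Matrix.map_mul,
      Matrix.map_apply]
  · simp only [Matrix.fromCols_apply_inr, Matrix.map_apply, Matrix.smul_apply, smul_eq_mul, map_mul]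
    rw [RingHom.map_det, RingHom.mapMatrix_apply]
    congr 1
    by_cases h : l = s
    · subst h; simp
    · simp [Matrix.one_apply_ne h]

theorem RS_map (e : Fin a × Fin b ≃ Fin c ⊕ Fin d) (φ : R →+* R') (C : Matrix (Fin d) (Fin d) R)
    (t : Fin a → Fin b → Fin c → R) (l : Fin d) (j : Fin b) (i : Fin a) :
    φ (RS e C t l j i) = RS e (C.map φ) (fun i j k => φ (t i j k)) l j i := by
  unfold RS
  rw [SS_map, ← Matrix.map_mul, Matrix.map_apply]

theorem SS_mul (e : Fin a × Fin b ≃ Fin c ⊕ Fin d) (t : Fin a → Fin b → Fin c → R) :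
    SS e t * Matrix.fromRows (AA e t) (BB e t) = 0 := by
  unfold SS
  rw [Matrix.fromCols_mul_fromRows, Matrix.neg_mul, Matrix.mul_assoc, Matrix.adjugate_mul, Matrix.smul_mul,
    Matrix.one_mul, Matrix.mul_smul, Matrix.mul_one, neg_add_cancel]

/-- coordinates of a tensor -/
def vec {a b c : ℕ} (T : Ten a b c) : Fin a × Fin b × Fin c → ℂ := fun p => T p.1 p.2.1 p.2.2

/-- a nonzero polynomial on a finite-dimensional space does not vanish identically -/
theorem exists_eval_ne {σ : Type} [Finite σ] (G : MvPolynomial σ ℂ) (hG : G ≠ 0) :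
    ∃ x : σ → ℂ, MvPolynomial.eval x G ≠ 0 := by
  by_contra hcon
  push Not at hcon
  apply hG
  apply MvPolynomial.funext
  intro x
  rw [hcon x, map_zero]

/-- the tensor of a matrix -/
def ofMat (e : Fin a × Fin b ≃ Fin c ⊕ Fin d) (M : Matrix (Fin d) (Fin c ⊕ Fin d) ℂ) : Ten d b a :=
  fun l j i => M l (e (i, j))

/-- the matrix of a tensor -/
def toMat (e : Fin a × Fin b ≃ Fin c ⊕ Fin d) (S : Ten d b a) : Matrix (Fin d) (Fin c ⊕ Fin d) ℂ :=
  Matrix.of fun l s => S l (e.symm s).2 (e.symm s).1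

theorem toMat_inj (e : Fin a × Fin b ≃ Fin c ⊕ Fin d) {S S' : Ten d b a} (h : toMat e S = toMat e S') : S = S' := by
  funext l j i
  have := congrFun (congrFun h l) (e (i, j))
  simpa [toMat] using this

/-- changing the basis of the first index -/
theorem GLeq_of_mul (e : Fin a × Fin b ≃ Fin c ⊕ Fin d) {S S' : Ten d b a} (P : Matrix (Fin d) (Fin d) ℂ)
    (hP : IsUnit P.det) (h : toMat e S' = P * toMat e S) : GLeq S S' := by
  refine ⟨P, 1, 1, hP, by simp, by simp, fun l j i => ?_⟩
  have h1 := congrFun (congrFun h l) (e (i, j))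
  simp only [toMat, Matrix.of_apply, Equiv.symm_apply_apply, Matrix.mul_apply] at h1
  rw [h1]
  refine Finset.sum_congr rfl fun i' _ => ?_
  rw [Finset.sum_eq_single j, Finset.sum_eq_single i]
  · simp
  · intro x _ hx
    simp [Matrix.one_apply_ne (Ne.symm hx)]
  · intro hx
    exact absurd (Finset.mem_univ _) hx
  · intro x _ hx
    simp [Matrix.one_apply_ne (Ne.symm hx)]
  · intro hx
    exact absurd (Finset.mem_univ _) hx

theorem toMat_RS (e : Fin a × Fin b ≃ Fin c ⊕ Fin d) (C : Matrix (Fin d) (Fin d) ℂ) (T : Ten a b c) :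
    toMat e (RS e C T) = C * SS e T := by
  ext l s
  simp [toMat, RS]

/-- a castling transform is annihilated by the matrix of `T` -/
theorem cas_mul (e : Fin a × Fin b ≃ Fin c ⊕ Fin d) {T : Ten a b c} {S : Ten d b a} (h : Cas T S) :
    toMat e S * Matrix.fromRows (AA e T) (BB e T) = 0 := by
  ext l k
  rw [Matrix.mul_apply, Matrix.zero_apply]
  have h1 := h.2.2.2 l k
  rw [← h1, ← Fintype.sum_prod_type', ← e.sum_comp]
  refine Finset.sum_congr rfl fun p _ => ?_
  have h2 : Matrix.fromRows (AA e T) (BB e T) (e p) k = T p.1 p.2 k := by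
    rcases hs : e p with s | s
    · have : e.symm (Sum.inl s) = p := by rw [← hs, Equiv.symm_apply_apply]
      simp [AA, this]
    · have : e.symm (Sum.inr s) = p := by rw [← hs, Equiv.symm_apply_apply]
      simp [BB, this]
  rw [h2]
  simp [toMat]

theorem inj_of_det (e : Fin a × Fin b ≃ Fin c ⊕ Fin d) {T : Ten a b c} (h : (AA e T).det ≠ 0) : Inj T := by
  unfold Inj
  rw [Fintype.linearIndependent_iff]
  intro g hg k
  have h1 : (AA e T).mulVec g = 0 := by
    funext i
    have h2 := congrFun hg (e.symm (Sum.inl i))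
    simp only [Finset.sum_apply, Pi.smul_apply, smul_eq_mul, Pi.zero_apply] at h2
    rw [Matrix.mulVec, dotProduct, Pi.zero_apply, ← h2]
    refine Finset.sum_congr rfl fun x _ => ?_
    simp [AA, mul_comm]
  exact congrFun (Matrix.eq_zero_of_mulVec_eq_zero h h1) k

/-- a castling transform is a change of basis of the explicit one -/
theorem cas_GLeq (e : Fin a × Fin b ≃ Fin c ⊕ Fin d) {T : Ten a b c} {S : Ten d b a} (hdet : (AA e T).det ≠ 0)
    (C : Matrix (Fin d) (Fin d) ℂ) (hC : IsUnit C.det) (h : Cas T S) : GLeq (RS e C T) S := by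
  set M := toMat e S with hM
  have h0 := cas_mul e h
  rw [← hM, ← Matrix.fromCols_toCols M, Matrix.fromCols_mul_fromRows] at h0
  have hS1 : M.toCols₁ * AA e T = -(M.toCols₂ * BB e T) := eq_neg_of_add_eq_zero_left h0
  have hkey : (AA e T).det • M = M.toCols₂ * SS e T := by
    have h1 : (AA e T).det • M.toCols₁ = M.toCols₂ * (-(BB e T * (AA e T).adjugate)) := by
      calc (AA e T).det • M.toCols₁ = M.toCols₁ * (AA e T * (AA e T).adjugate) := by
            rw [Matrix.mul_adjugate, Matrix.mul_smul, Matrix.mul_one]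
        _ = M.toCols₁ * AA e T * (AA e T).adjugate := by rw [Matrix.mul_assoc]
        _ = M.toCols₂ * (-(BB e T * (AA e T).adjugate)) := by
            rw [hS1, Matrix.neg_mul, Matrix.mul_neg, Matrix.mul_assoc]
    have h2 : (AA e T).det • M.toCols₂ = M.toCols₂ * ((AA e T).det • (1 : Matrix (Fin d) (Fin d) ℂ)) := by
      rw [Matrix.mul_smul, Matrix.mul_one]
    rw [SS, Matrix.mul_fromCols, ← h1, ← h2]
    ext l s
    rcases s with s | s <;> simp
  have hind := h.2.2.1
  have hU : IsUnit M.toCols₂.det := by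
    rw [isUnit_iff_ne_zero]
    intro hz
    obtain ⟨v, hv, hv0⟩ := Matrix.exists_vecMul_eq_zero_iff.2 hz
    apply hv
    have h3 : Matrix.vecMul v M = 0 := by
      have h4 : (AA e T).det • Matrix.vecMul v M = 0 := by
        rw [← Matrix.vecMul_smul, hkey, ← Matrix.vecMul_vecMul, hv0, Matrix.zero_vecMul]
      rcases smul_eq_zero.1 h4 with h5 | h5
      · exact absurd h5 hdet
      · exact h5
    rw [Fintype.linearIndependent_iff] at hind
    funext l
    refine hind v ?_ l
    funext p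
    have h6 := congrFun h3 (e p)
    simp only [Matrix.vecMul, dotProduct, hM, toMat, Matrix.of_apply, Equiv.symm_apply_apply, Pi.zero_apply] at h6
    simp only [Finset.sum_apply, Pi.smul_apply, smul_eq_mul, Pi.zero_apply]
    exact h6
  refine GLeq_of_mul e ((AA e T).det⁻¹ • (M.toCols₂ * C⁻¹)) ?_ ?_
  · rw [Matrix.det_smul, Matrix.det_mul, isUnit_iff_ne_zero]
    refine mul_ne_zero (pow_ne_zero _ (inv_ne_zero hdet)) (mul_ne_zero hU.ne_zero ?_)
    exact (Matrix.isUnit_nonsing_inv_det C hC).ne_zero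
  · rw [toMat_RS, ← hM, Matrix.smul_mul, Matrix.mul_assoc, ← Matrix.mul_assoc C⁻¹, Matrix.nonsing_inv_mul _ hC,
      Matrix.one_mul, ← hkey, smul_smul, inv_mul_cancel₀ hdet, one_smul]

end T11

open T11 in
theorem CoThin_cas {X : Ten d b a → Prop} (hX : CoThin X) (hinv : ∀ S S', GLeq S S' → X S → X S')
    (hd : c + d = a * b) : CoThin (fun T : Ten a b c => Inj T ∧ ∀ S, Cas T S → X S) := by
  classical
  obtain ⟨G, hG, hGX⟩ := hX
  let e : Fin a × Fin b ≃ Fin c ⊕ Fin d := finProdFinEquiv.trans ((finCongr hd.symm).trans finSumFinEquiv.symm)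
  -- the determinant of the right block as a polynomial on `Ten d b a`
  let D : MvPolynomial (Fin d × Fin b × Fin a) ℂ :=
    (Matrix.of fun l l' : Fin d => (MvPolynomial.X (l, (e.symm (Sum.inr l')).2, (e.symm (Sum.inr l')).1) :
      MvPolynomial (Fin d × Fin b × Fin a) ℂ)).det
  have hD : ∀ S : Ten d b a, MvPolynomial.eval (fun p => S p.1 p.2.1 p.2.2) D = (toMat e S).toCols₂.det := by
    intro S
    simp only [D]
    rw [RingHom.map_det]
    congr 1
    ext l l'
    simp [toMat]
  have hD0 : D ≠ 0 := by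
    intro h0
    have h1 := hD (ofMat e (Matrix.fromCols 0 1))
    rw [h0, map_zero] at h1
    have h2 : (toMat e (ofMat e (Matrix.fromCols 0 (1 : Matrix (Fin d) (Fin d) ℂ)))).toCols₂ = 1 := by
      ext l s
      simp [toMat, ofMat]
    rw [h2, Matrix.det_one] at h1
    exact zero_ne_one h1
  obtain ⟨y, hy⟩ := exists_eval_ne (G * D) (mul_ne_zero hG hD0)
  let S₁ : Ten d b a := fun l j i => y (l, j, i)
  have hy1 : MvPolynomial.eval (fun p => S₁ p.1 p.2.1 p.2.2) G ≠ 0 := fun h => hy (by
    rw [map_mul]; exact mul_eq_zero_of_left h _)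
  have hy2 : (toMat e S₁).toCols₂.det ≠ 0 := by
    rw [← hD]
    exact fun h => hy (by rw [map_mul]; exact mul_eq_zero_of_right _ h)
  set C := (toMat e S₁).toCols₂ with hC
  have hCu : IsUnit C.det := isUnit_iff_ne_zero.2 hy2
  let x : Fin a → Fin b → Fin c → MvPolynomial (Fin a × Fin b × Fin c) ℂ := fun i j k => MvPolynomial.X (i, j, k)
  have hev : ∀ T : Ten a b c, (fun i j k => MvPolynomial.eval (fun p => T p.1 p.2.1 p.2.2) (x i j k)) = T := by
    intro T
    funext i j k
    simp [x]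
  have hRS : ∀ (T : Ten a b c) (q : Fin d × Fin b × Fin a),
      MvPolynomial.eval (fun p => T p.1 p.2.1 p.2.2) (RS e (C.map MvPolynomial.C) x q.1 q.2.1 q.2.2) =
        RS e C T q.1 q.2.1 q.2.2 := by
    intro T q
    rw [RS_map, hev]
    congr 1
    ext l l'
    simp
  let F : MvPolynomial (Fin a × Fin b × Fin c) ℂ :=
    (AA e x).det * MvPolynomial.bind₁ (fun q : Fin d × Fin b × Fin a => RS e (C.map MvPolynomial.C) x q.1 q.2.1 q.2.2) G
  have hF : ∀ T : Ten a b c, MvPolynomial.eval (fun p => T p.1 p.2.1 p.2.2) F =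
      (AA e T).det * MvPolynomial.eval (fun q => RS e C T q.1 q.2.1 q.2.2) G := by
    intro T
    simp only [F]
    rw [map_mul, RingHom.map_det, RingHom.mapMatrix_apply, ← AA_map, hev]
    congr 1
    rw [MvPolynomial.eval, MvPolynomial.eval₂Hom_bind₁]
    congr 1
    congr 1
    funext q
    exact hRS T q
  refine ⟨F, ?_, ?_⟩
  · intro h0
    -- the point `(1, N)`
    let N : Matrix (Fin d) (Fin c) ℂ := -(C⁻¹ * (toMat e S₁).toCols₁)
    let T₀ : Ten a b c := fun i j k => Matrix.fromRows (1 : Matrix (Fin c) (Fin c) ℂ) N (e (i, j)) k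
    have hA : AA e T₀ = 1 := by
      ext i k
      simp [AA, T₀]
    have hB : BB e T₀ = N := by
      ext i k
      simp [BB, T₀]
    have hST : RS e C T₀ = S₁ := by
      apply toMat_inj e
      rw [toMat_RS, SS, hA, hB, Matrix.adjugate_one, Matrix.det_one, one_smul, Matrix.mul_one, Matrix.mul_fromCols,
        Matrix.mul_one, Matrix.mul_neg, Matrix.mul_neg, neg_neg, ← Matrix.mul_assoc, Matrix.mul_nonsing_inv _ hCu,
        Matrix.one_mul]
      exact Matrix.fromCols_toCols _
    have h1 := hF T₀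
    rw [h0, map_zero, hA, Matrix.det_one, one_mul, hST] at h1
    exact hy1 h1.symm
  · intro T hT
    rw [hF] at hT
    have h1 : (AA e T).det ≠ 0 := left_ne_zero_of_mul hT
    have h2 := hGX (RS e C T) (right_ne_zero_of_mul hT)
    exact ⟨inj_of_det e h1, fun S hS => hinv _ _ (cas_GLeq e h1 C hCu hS) h2⟩

end Cea
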