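import Pool.Agent.Lib.MP_cea156_al.T05
import Pool.Agent.Lib.MP_cea156_al.T08
import Pool.Agent.Lib.MP_cea156_al.T10
import Pool.Agent.Lib.MP_cea156_al.T11
import Pool.Agent.Lib.MP_cea156_al.T13
/-! T12: very general tensors are castling-non-degenerate (DONE here, uses T05, T08, T10, T11, T13). -/
namespace Cea

theorem CoThin_NdN : ∀ (m : ℕ) {a b c : ℕ}, MC a b c → CoThin (NdN m a b c)
  | 0, a, b, c, h => by
      have h1 := MC_two (MC_cas h)
      have h2 : c ≤ a * b := by omega
      obtain ⟨F, hF, hF'⟩ := CoThin_inj h2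
      refine ⟨F, hF, fun T hT => ?_⟩
      have h3 : Inj T := hF' T hT
      rw [NdN]
      exact h3
  | m + 1, a, b, c, h => by
      have h1 := MC_two (MC_cas h)
      have hd : c + (a * b - c) = a * b := by omega
      have e1 := CoThin_rot (CoThin_NdN m (MC_rot h))
      have e2 := CoThin_rev (CoThin_NdN m (MC_rev h))
      have e3 := CoThin_cas (CoThin_NdN m (MC_cas h)) (fun S S' => NdN_GLeq m) hd
      obtain ⟨F, hF, hF'⟩ := CoThin_and e1 (CoThin_and e2 e3)
      refine ⟨F, hF, fun T hT => ?_⟩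
      obtain ⟨g1, g2, g3, g4⟩ := hF' T hT
      refine ⟨g3, g1, g2, fun d S hS => ?_⟩
      have : d = a * b - c := by
        have := hS.1
        omega
      subst this
      exact g4 S hS

/-- if every orbit lies in a hypersurface, there are two inequivalent non-degenerate tensors -/
theorem Two_of_thin {a b c : ℕ} (h : MC a b c)
    (ht : ∀ T₀ : Ten a b c, ∃ P : MvPolynomial (Fin a × Fin b × Fin c) ℂ, P ≠ 0 ∧
      ∀ T : Ten a b c, GLeq T₀ T → MvPolynomial.eval (fun p => T p.1 p.2.1 p.2.2) P = 0) : Two a b c := by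
  have h1 : ∀ m, ∃ F : MvPolynomial (Fin a × Fin b × Fin c) ℂ, F ≠ 0 ∧
    ∀ T : Ten a b c, MvPolynomial.eval (fun p => T p.1 p.2.1 p.2.2) F ≠ 0 → NdN m a b c T :=
    fun m => CoThin_NdN m h
  choose F hF hF' using h1
  have e : ∀ z : Fin a × Fin b × Fin c → ℂ, (fun p : Fin a × Fin b × Fin c => z (p.1, p.2.1, p.2.2)) = z :=
    fun z => rfl
  have key : ∀ (m : ℕ) (z : Fin a × Fin b × Fin c → ℂ), MvPolynomial.eval z (F m) ≠ 0 →
      NdN m a b c (fun i j k => z (i, j, k)) := by
    intro m z hz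
    apply hF' m
    simp only [e]
    exact hz
  obtain ⟨x, hx⟩ := exists_avoid F hF
  obtain ⟨P, hP, hP'⟩ := ht (fun i j k => x (i, j, k))
  obtain ⟨y, hy⟩ := exists_avoid (fun m => F m * P) (fun m => mul_ne_zero (hF m) hP)
  have hy1 : ∀ m, MvPolynomial.eval y (F m) ≠ 0 := by
    intro m h0
    apply hy m
    rw [map_mul, h0, zero_mul]
  have hy2 : MvPolynomial.eval y P ≠ 0 := by
    intro h0
    apply hy 0
    rw [map_mul, h0, mul_zero]
  refine ⟨fun i j k => x (i, j, k), fun i j k => y (i, j, k), fun m => key m x (hx m),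
    fun m => key m y (hy1 m), fun hg => hy2 ?_⟩
  have h3 := hP' _ hg
  simp only [e] at h3
  exact h3

end Cea
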