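import Pool.Agent.Lib.MP_cea156_al.TDefs
import Pool.Agent.Lib.MP_cea156_al.T13
/-! T15: pencils. `pen T x y = det (x T_0 + y T_1)`. Under `(P, Q, R)`: `pen S x y = det Q det R pen T ((x, y) P)`.
`orbit_thin_pencil`: coefficients of `pen T` in `y`: a vector `κ(T)` of `b + 1` polynomials in `T`; for `T` in the orbit of `T₀` it is
the coefficient vector of `f ∘ P'`, `f = pen T₀`, `P'` a `2 × 2` matrix (absorb `det Q det R = s^b` in `P' = s P`): 4 < b + 1
parameters; `image_thin` gives `P₁ ≠ 0`; `P = P₁ ∘ κ` is not zero since every vector with nonzero last entry is `κ` of a diagonal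
pencil (factor the binary form). -/
namespace Cea
variable {b : ℕ}
/-- determinant of the pencil -/
noncomputable def pen (T : Ten 2 b b) (x y : ℂ) : ℂ := (Matrix.of fun j k => x * T 0 j k + y * T 1 j k).det
theorem pen_GLeq {T S : Ten 2 b b} (h : GLeq T S) : ∃ (P : Matrix (Fin 2) (Fin 2) ℂ) (r : ℂ), IsUnit P.det ∧ r ≠ 0 ∧
    ∀ x y, pen S x y = r * pen T (x * P 0 0 + y * P 1 0) (x * P 0 1 + y * P 1 1) := by
  obtain ⟨P, Q, R, hP, hQ, hR, hS⟩ := h
  refine ⟨P, Q.det * R.det, hP, mul_ne_zero hQ.ne_zero hR.ne_zero, fun x y => ?_⟩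
  have key : (Matrix.of fun j k => x * S 0 j k + y * S 1 j k) =
      Q * (Matrix.of fun j k => (x * P 0 0 + y * P 1 0) * T 0 j k + (x * P 0 1 + y * P 1 1) * T 1 j k) *
        R.transpose := by
    ext j k
    have e : ∀ i, S i j k =
        ∑ j', ∑ k', Q j j' * (P i 0 * T 0 j' k' + P i 1 * T 1 j' k') * R k k' := by
      intro i
      rw [hS, Fin.sum_univ_two, ← Finset.sum_add_distrib]
      refine Finset.sum_congr rfl fun j' _ => ?_
      rw [← Finset.sum_add_distrib]
      exact Finset.sum_congr rfl fun k' _ => by ring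
    have e2 : (Q * (Matrix.of fun j k => (x * P 0 0 + y * P 1 0) * T 0 j k +
        (x * P 0 1 + y * P 1 1) * T 1 j k) * R.transpose) j k =
        ∑ k', ∑ j', Q j j' * ((x * P 0 0 + y * P 1 0) * T 0 j' k' +
          (x * P 0 1 + y * P 1 1) * T 1 j' k') * R k k' := by
      rw [Matrix.mul_apply]
      refine Finset.sum_congr rfl fun k' _ => ?_
      rw [Matrix.mul_apply, Finset.sum_mul]
      rfl
    rw [e2, Finset.sum_comm]
    show x * S 0 j k + y * S 1 j k = _
    rw [e 0, e 1, Finset.mul_sum, Finset.mul_sum, ← Finset.sum_add_distrib]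
    refine Finset.sum_congr rfl fun j' _ => ?_
    rw [Finset.mul_sum, Finset.mul_sum, ← Finset.sum_add_distrib]
    exact Finset.sum_congr rfl fun k' _ => by ring
  unfold pen
  rw [key, Matrix.det_mul, Matrix.det_mul, Matrix.det_transpose]
  ring
end Cea
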