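import Pool.Agent.Lib.MP_cea156_al.Defs

/-!
# Three-index tensors and castling transforms
-/

namespace Cea

/-- tensors with three indices -/
abbrev Ten (a b c : ℕ) : Type := Fin a → Fin b → Fin c → ℂ

/-- rotation of the indices: `(rot T) j k i = T i j k` -/
def rot {a b c : ℕ} (T : Ten a b c) : Ten b c a := fun j k i => T i j k

/-- reversal of the indices: `(rev T) k j i = T i j k` -/
def rev {a b c : ℕ} (T : Ten a b c) : Ten c b a := fun k j i => T i j k

/-- equivalence under `GL a × GL b × GL c` -/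
def GLeq {a b c : ℕ} (T S : Ten a b c) : Prop :=
  ∃ (P : Matrix (Fin a) (Fin a) ℂ) (Q : Matrix (Fin b) (Fin b) ℂ) (R : Matrix (Fin c) (Fin c) ℂ),
    IsUnit P.det ∧ IsUnit Q.det ∧ IsUnit R.det ∧
    ∀ i j k, S i j k = ∑ i', ∑ j', ∑ k', P i i' * Q j j' * R k k' * T i' j' k'

/-- the slices `T · · k` are linearly independent -/
def Inj {a b c : ℕ} (T : Ten a b c) : Prop :=
  LinearIndependent ℂ (fun k : Fin c => fun p : Fin a × Fin b => T p.1 p.2 k)

/-- `S` is a castling transform of `T`: the slices `S l · ·` are a basis of the annihilator of the slices `T · · k` -/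
def Cas {a b c d : ℕ} (T : Ten a b c) (S : Ten d b a) : Prop :=
  c + d = a * b ∧ Inj T ∧ LinearIndependent ℂ (fun l : Fin d => fun p : Fin a × Fin b => S l p.2 p.1) ∧
    ∀ l k, ∑ i, ∑ j, S l j i * T i j k = 0

/-- non-degenerate up to depth `m` -/
def NdN : ℕ → (a b c : ℕ) → Ten a b c → Prop
  | 0, _, _, _, T => Inj T
  | m + 1, a, b, c, T => Inj T ∧ NdN m b c a (rot T) ∧ NdN m c b a (rev T) ∧
      ∀ (d : ℕ) (S : Ten d b a), Cas T S → NdN m d b a S

/-- castling-non-degenerate tensors -/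
def Nd {a b c : ℕ} (T : Ten a b c) : Prop := ∀ m, NdN m a b c T

/-- mutation-cyclic triples up to depth `m` (`a * b - c` is truncated subtraction) -/
def MCN : ℕ → ℕ → ℕ → ℕ → Prop
  | 0, a, b, c => 2 ≤ a ∧ 2 ≤ b ∧ 2 ≤ c
  | m + 1, a, b, c => (2 ≤ a ∧ 2 ≤ b ∧ 2 ≤ c) ∧ MCN m b c a ∧ MCN m c b a ∧ MCN m (a * b - c) b a

/-- mutation-cyclic triples -/
def MC (a b c : ℕ) : Prop := ∀ m, MCN m a b c

/-- there are two inequivalent non-degenerate tensors -/
def Two (a b c : ℕ) : Prop := ∃ T₁ T₂ : Ten a b c, Nd T₁ ∧ Nd T₂ ∧ ¬ GLeq T₁ T₂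

/-- infinitesimal action of `gl a × gl b × gl c` -/
def act {a b c : ℕ} (X : Matrix (Fin a) (Fin a) ℂ) (Y : Matrix (Fin b) (Fin b) ℂ) (Z : Matrix (Fin c) (Fin c) ℂ)
    (T : Ten a b c) : Ten a b c := fun i j k =>
  ∑ i', X i i' * T i' j k + ∑ j', Y j j' * T i j' k + ∑ k', Z k k' * T i j k'

/-- the infinitesimal action as a linear map -/
def actL {a b c : ℕ} (T : Ten a b c) :
    (Matrix (Fin a) (Fin a) ℂ × Matrix (Fin b) (Fin b) ℂ × Matrix (Fin c) (Fin c) ℂ) →ₗ[ℂ] Ten a b c where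
  toFun g := act g.1 g.2.1 g.2.2 T
  map_add' g h := by
    funext i j k
    simp only [act, Pi.add_apply, Prod.fst_add, Prod.snd_add, Matrix.add_apply, add_mul, Finset.sum_add_distrib]
    ring
  map_smul' r g := by
    funext i j k
    simp only [act, Pi.smul_apply, Prod.smul_fst, Prod.smul_snd, Matrix.smul_apply, smul_eq_mul, mul_assoc,
      ← Finset.mul_sum, RingHom.id_apply]
    ring

/-- dimension of the Lie stabiliser of `T` -/
noncomputable def stab {a b c : ℕ} (T : Ten a b c) : ℕ := Module.finrank ℂ (LinearMap.ker (actL T))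

/-- a set of tensors which contains a nonempty Zariski open set -/
def CoThin {a b c : ℕ} (X : Ten a b c → Prop) : Prop :=
  ∃ F : MvPolynomial (Fin a × Fin b × Fin c) ℂ, F ≠ 0 ∧
    ∀ T : Ten a b c, MvPolynomial.eval (fun p => T p.1 p.2.1 p.2.2) F ≠ 0 → X T

/-- labelled cyclic triangle `u → v → w → u` with `a`, `b`, `c` arrows -/
structure Tri {V : Type} (Q : Quiv V) (u v w : V) (a b c : ℕ) where
  huv : u ≠ v
  hvw : v ≠ w
  hwu : w ≠ u
  cover : ∀ z : V, z = u ∨ z = v ∨ z = w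
  ea : Fin a ≃ {x : Q.A // Q.s x = u ∧ Q.t x = v}
  eb : Fin b ≃ {x : Q.A // Q.s x = v ∧ Q.t x = w}
  ec : Fin c ≃ {x : Q.A // Q.s x = w ∧ Q.t x = u}
  all : ∀ x, (Q.s x = u ∧ Q.t x = v) ∨ (Q.s x = v ∧ Q.t x = w) ∨ (Q.s x = w ∧ Q.t x = u)

/-- the cubic part of a potential on a triangle -/
def Tri.ten {V : Type} {Q : Quiv V} {u v w : V} {a b c : ℕ} (τ : Tri Q u v w a b c) (W : List Q.A → ℂ) :
    Ten a b c := fun i j k => cyc W [(τ.ea i).1, (τ.eb j).1, (τ.ec k).1]

end Cea
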